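import Pool.Agent.T2h61.PR.Stm

/-!
# (CA) commutative algebra
-/

set_option autoImplicit false

namespace Pool.Agent.T2h61.PR.CA

open Matrix

/-- `ℤ` is a Jacobson ring. -/
theorem jac_int : IsJacobsonRing ℤ := by
  rw [isJacobsonRing_iff_prime_eq]
  intro P hP
  by_cases hP0 : P = ⊥
  · subst hP0
    rw [eq_bot_iff]
    intro n hn
    rw [Ideal.mem_bot]
    by_contra hn0
    obtain ⟨q, hq1, hq2⟩ := Nat.exists_infinite_primes (n.natAbs + 1)
    have hqi : Prime (q : ℤ) := Nat.prime_iff_prime_int.1 hq2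
    have hmax : (Ideal.span {(q : ℤ)}).IsMaximal :=
      PrincipalIdealRing.isMaximal_of_irreducible hqi.irreducible
    have hmem : n ∈ Ideal.span {(q : ℤ)} := by
      have := Ideal.mem_sInf.1 hn (I := Ideal.span {(q : ℤ)}) ⟨bot_le, hmax⟩
      exact this
    rw [Ideal.mem_span_singleton] at hmem
    have h1 : q ∣ n.natAbs := Int.natCast_dvd.1 hmem
    have h2 := Nat.le_of_dvd (Int.natAbs_pos.2 hn0) h1
    omega
  · have : P.IsMaximal := hP.isMaximal hP0
    exact Ideal.jacobson_eq_self_of_isMaximal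

/-- A field which is of finite type over `ℤ` is finite. -/
theorem finite_of_ft (F : Type) [Field F] [Algebra.FiniteType ℤ F] : Finite F := by
  have := jac_int
  have hfin : Module.Finite ℤ F := finite_of_finite_type_of_isJacobsonRing ℤ F
  have hint : Algebra.IsIntegral ℤ F := inferInstance
  have hnot : ¬ Function.Injective (algebraMap ℤ F) := by
    intro hinj
    have := isField_of_isIntegral_of_isField (R := ℤ) (S := F) hinj (Field.toIsField F)
    exact Int.not_isField this
  obtain ⟨p, hp⟩ := CharP.exists F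
  have hp0 : p ≠ 0 := by
    rintro rfl
    apply hnot
    have : CharZero F := CharP.charP_to_charZero F
    exact (algebraMap ℤ F).injective_int
  have : NeZero p := ⟨hp0⟩
  let _ : Algebra (ZMod p) F := ZMod.algebra F p
  have hfin2 : Module.Finite (ZMod p) F := Module.Finite.of_restrictScalars_finite ℤ (ZMod p) F
  exact Module.finite_of_finite (ZMod p)

theorem step1 (C : Type) [CommRing C] (hft : Algebra.FiniteType ℤ C) (B : ℕ)
    (h : ∀ (F : Type) [Field F] [Finite F] (ψ₁ ψ₂ : C →+* F), B < ringChar F → ψ₁ = ψ₂)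
    (Ω : Type) [Field Ω] [CharZero Ω] (α β : C →+* Ω) : α = β := by
  classical
  by_contra hne
  obtain ⟨r, hr⟩ : ∃ r, α r ≠ β r := by
    by_contra hcon
    push Not at hcon
    exact hne (RingHom.ext hcon)
  obtain ⟨s, hs⟩ := hft.out
  set d : Ω := α r - β r with hd
  have hd0 : d ≠ 0 := sub_ne_zero.mpr hr
  have hB0 : ((B.factorial : ℕ) : Ω) ≠ 0 := by exact_mod_cast B.factorial_ne_zero
  set S : Finset Ω := s.image α ∪ s.image β ∪ {d⁻¹, ((B.factorial : ℕ) : Ω)⁻¹} with hS
  let D : Subalgebra ℤ Ω := Algebra.adjoin ℤ (S : Set Ω)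
  have hDft : Algebra.FiniteType ℤ D := by
    apply (Subalgebra.fg_iff_finiteType D).mp
    exact ⟨S, rfl⟩
  have hmem (γ : C →+* Ω) (hγ : ∀ x ∈ s, γ x ∈ D) (c : C) : γ c ∈ D := by
    have h1 : (⊤ : Subalgebra ℤ C) ≤ D.comap γ.toIntAlgHom := by
      rw [← hs]
      apply Algebra.adjoin_le
      intro x hx
      exact hγ x hx
    exact h1 (Algebra.mem_top (x := c))
  have hα : ∀ c, α c ∈ D := hmem α (fun x hx => Algebra.subset_adjoin (by
    simp only [hS, Finset.coe_union, Finset.coe_image, Set.mem_union]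
    exact Or.inl (Or.inl ⟨x, hx, rfl⟩)))
  have hβ : ∀ c, β c ∈ D := hmem β (fun x hx => Algebra.subset_adjoin (by
    simp only [hS, Finset.coe_union, Finset.coe_image, Set.mem_union]
    exact Or.inl (Or.inr ⟨x, hx, rfl⟩)))
  have hdi : d⁻¹ ∈ D := Algebra.subset_adjoin (by simp [hS])
  have hBi : ((B.factorial : ℕ) : Ω)⁻¹ ∈ D := Algebra.subset_adjoin (by simp [hS])
  obtain ⟨m, hm⟩ := Ideal.exists_maximal D
  let _ : Field (D ⧸ m) := Ideal.Quotient.field m
  have hft3 : Algebra.FiniteType ℤ (D ⧸ m) :=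
    Algebra.FiniteType.of_surjective (Ideal.Quotient.mkₐ ℤ m) (Ideal.Quotient.mkₐ_surjective ℤ m)
  have hfinF : Finite (D ⧸ m) := @finite_of_ft (D ⧸ m) (Ideal.Quotient.field m) hft3
  let π : D →+* (D ⧸ m) := Ideal.Quotient.mk m
  let ψ₁ : C →+* (D ⧸ m) := π.comp (α.codRestrict D.toSubring (fun c => hα c))
  let ψ₂ : C →+* (D ⧸ m) := π.comp (β.codRestrict D.toSubring (fun c => hβ c))
  have hchar : B < ringChar (D ⧸ m) := by
    have hp : (ringChar (D ⧸ m)).Prime := by
      have := CharP.char_is_prime_or_zero (D ⧸ m) (ringChar (D ⧸ m))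
      rcases this with h1 | h1
      · exact h1
      · exfalso
        have hc : CharP (D ⧸ m) 0 := by rw [← h1]; infer_instance
        have : CharZero (D ⧸ m) := CharP.charP_to_charZero (D ⧸ m)
        exact not_finite (D ⧸ m)
    by_contra hlt
    push Not at hlt
    have hdvd : ringChar (D ⧸ m) ∣ B.factorial := (hp.dvd_factorial).mpr hlt
    have hz : ((B.factorial : ℕ) : D ⧸ m) = 0 := by
      rw [CharP.cast_eq_zero_iff (D ⧸ m) (ringChar (D ⧸ m))]
      exact hdvd
    have h1 : ((B.factorial : ℕ) : D) * ⟨_, hBi⟩ = 1 := by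
      apply Subtype.ext
      push_cast
      exact mul_inv_cancel₀ hB0
    have h2 := congrArg π h1
    rw [map_mul, map_natCast, hz, zero_mul, map_one] at h2
    exact zero_ne_one h2
  have heq := h (D ⧸ m) ψ₁ ψ₂ hchar
  have hr2 : ψ₁ r = ψ₂ r := by rw [heq]
  have h3 : π (⟨α r, hα r⟩ - ⟨β r, hβ r⟩) = 0 := by
    rw [map_sub, sub_eq_zero]
    exact hr2
  have h4 : ((⟨α r, hα r⟩ - ⟨β r, hβ r⟩ : D)) * ⟨d⁻¹, hdi⟩ = 1 := by
    apply Subtype.ext
    exact mul_inv_cancel₀ hd0
  have h5 := congrArg π h4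
  rw [map_mul, h3, zero_mul, map_one] at h5
  exact zero_ne_one h5

/-- Amalgamation of field embeddings. -/
theorem amalgam (E K L : Type) [Field E] [Field K] [Field L] (f : E →+* K) (g : E →+* L) :
    ∃ (Ω : Type) (_ : Field Ω) (i : K →+* Ω) (j : L →+* Ω), ∀ x, i (f x) = j (g x) := by
  let _ : Algebra E K := f.toAlgebra
  let _ : Algebra E L := g.toAlgebra
  let T := TensorProduct E K L
  have hT : Nontrivial T := by infer_instance
  obtain ⟨m, hm⟩ := Ideal.exists_maximal T
  refine ⟨T ⧸ m, Ideal.Quotient.field m,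
    (Ideal.Quotient.mk m).comp (Algebra.TensorProduct.includeLeftRingHom),
    (Ideal.Quotient.mk m).comp (Algebra.TensorProduct.includeRight (R := E) (A := K) (B := L)).toRingHom,
    fun x => ?_⟩
  simp only [RingHom.comp_apply]
  congr 1
  change (f x) ⊗ₜ[E] (1 : L) = (1 : K) ⊗ₜ[E] (g x)
  have h1 : f x = x • (1 : K) := by rw [Algebra.smul_def, mul_one]; rfl
  have h2 : g x = x • (1 : L) := by rw [Algebra.smul_def, mul_one]; rfl
  rw [h1, h2, TensorProduct.smul_tmul]

theorem rational (K : Type) [Field K] [CharZero K] (x : K)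
    (h : ∀ (Ω : Type) [Field Ω] (i j : K →+* Ω), i x = j x) : ∃ t : ℚ, x = t := by
  let E := IntermediateField.adjoin ℚ ({x} : Set K)
  let L := AlgebraicClosure E
  have key : ∀ a b : E →+* L, a = b := by
    intro a b
    obtain ⟨Ω₁, hΩ₁, i₁, j₁, h₁⟩ := amalgam E K L (algebraMap E K) a
    obtain ⟨Ω₂, hΩ₂, i₂, j₂, h₂⟩ := amalgam E K Ω₁ (algebraMap E K) (j₁.comp b)
    have h3 := h Ω₂ (j₂.comp i₁) i₂
    have hx : x ∈ E := IntermediateField.mem_adjoin_simple_self ℚ x
    have h4 := h₁ ⟨x, hx⟩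
    have h5 := h₂ ⟨x, hx⟩
    have h6 : a ⟨x, hx⟩ = b ⟨x, hx⟩ := by
      apply j₁.injective
      apply j₂.injective
      rw [← h4]
      simp only [RingHom.comp_apply] at h5 h3
      rw [← h5]
      exact h3
    have hab : (a.toRatAlgHom : E →ₐ[ℚ] L) = b.toRatAlgHom := by
      refine IntermediateField.algHom_ext_of_eq_adjoin (F := ℚ) (S := E) (s := {x}) rfl ?_
      intro y hy
      have : y = x := hy
      subst this
      exact h6
    ext y
    exact congrArg (fun c : E →ₐ[ℚ] L => c y) hab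
  have hpi : IsPurelyInseparable ℚ E := by
    have : Nonempty (E →+* L) := ⟨algebraMap E L⟩
    apply IsPurelyInseparable.of_injective_comp_algebraMap ℚ E L
    intro a b _
    exact key a b
  have hsurj := IsPurelyInseparable.surjective_algebraMap_of_isSeparable ℚ E
  obtain ⟨t, ht⟩ := hsurj ⟨x, IntermediateField.mem_adjoin_simple_self ℚ x⟩
  refine ⟨t, ?_⟩
  have := congrArg (fun y : E => (y : K)) ht
  simp only at this
  rw [← this]
  simp

end Pool.Agent.T2h61.PR.CA

namespace Pool.Agent.T2h61.PR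

theorem ca : S_CA := by
  intro C _ hft B h K K' _ _ _ _ φ φ' r
  obtain ⟨Ω, hΩ, i, j, hij⟩ := CA.amalgam ℚ K K' (algebraMap ℚ K) (algebraMap ℚ K')
  have hcz : CharZero Ω := by
    exact charZero_of_injective_ringHom (i.injective)
  have h1 := CA.step1 C hft B h Ω (i.comp φ) (j.comp φ')
  have hrat : ∃ t : ℚ, φ r = t := by
    apply CA.rational K (φ r)
    intro Ω' _ a b
    have hcz : CharZero Ω' := charZero_of_injective_ringHom (a.injective)
    have := CA.step1 C hft B h Ω' (a.comp φ) (b.comp φ)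
    exact congrArg (fun c : C →+* Ω' => c r) this
  obtain ⟨t, ht⟩ := hrat
  refine ⟨t, ht, ?_⟩
  apply j.injective
  have h2 : i (φ r) = j (φ' r) := congrArg (fun c : C →+* Ω => c r) h1
  rw [← h2, ht, map_ratCast, map_ratCast]

end Pool.Agent.T2h61.PR
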