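import Pool.Agent.T2h61.PR.Stm
import Pool.Agent.H185.ZM.Euc
import Pool.Agent.Helper460_PR.Hopf

set_option autoImplicit false

namespace Pool.Agent.T2h61.PR

open Matrix Pool.Agent.Helper58.K2

/-- elementary matrix -/
def tr {n : ℕ} {A : Type} [CommRing A] (i j : Fin n) (h : i ≠ j) (c : A) : SLn n A :=
  ⟨Matrix.transvection i j c, Matrix.det_transvection_of_ne i j h c⟩

lemma map_tr {n : ℕ} {A B : Type} [CommRing A] [CommRing B] (f : A →+* B) (i j : Fin n)
    (h : i ≠ j) (c : A) : Matrix.SpecialLinearGroup.map f (tr i j h c) = tr i j h (f c) := by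
  ext k l
  simp [tr, Matrix.transvection, Matrix.single_apply, Matrix.one_apply]
  split_ifs <;> simp

lemma sl_map_inj {n : ℕ} {A B : Type} [CommRing A] [CommRing B] (f : A →+* B)
    (hf : Function.Injective f) :
    Function.Injective (Matrix.SpecialLinearGroup.map (n := Fin n) f) := by
  intro x y hxy
  ext i j
  apply hf
  have := congrArg (fun t : SLn n B => t i j) hxy
  simpa using this

lemma lift_sl {n : ℕ} {C D Λ : Type} [CommRing C] [CommRing D] [Group Λ] (ι : C →+* D)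
    (hι : Function.Injective ι) (Ψ : Λ →* SLn n D) (S : Set Λ) (hS : Subgroup.closure S = ⊤)
    (h : ∀ s ∈ S, ∃ y, Matrix.SpecialLinearGroup.map ι y = Ψ s) :
    ∃ Θ : Λ →* SLn n C, ∀ l, Matrix.SpecialLinearGroup.map ι (Θ l) = Ψ l := by
  let f := Matrix.SpecialLinearGroup.map (n := Fin n) ι
  have hle : (⊤ : Subgroup Λ) ≤ f.range.comap Ψ := by
    rw [← hS, Subgroup.closure_le]
    intro s hs
    exact h s hs
  have hmem : ∀ l, Ψ l ∈ f.range := fun l => hle (Subgroup.mem_top l)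
  let e := MonoidHom.ofInjective (sl_map_inj (n := n) ι hι)
  refine ⟨e.symm.toMonoidHom.comp (Ψ.codRestrict f.range hmem), fun l => ?_⟩
  have h1 : e (e.symm (Ψ.codRestrict f.range hmem l)) = Ψ.codRestrict f.range hmem l :=
    e.apply_symm_apply _
  exact congrArg Subtype.val h1

/-- combination of two homomorphisms -/
def pairSL {n : ℕ} {A B Λ : Type} [CommRing A] [CommRing B] [Group Λ] (θ : Λ →* SLn n A)
    (θ' : Λ →* SLn n B) : Λ →* SLn n (A × B) where
  toFun l := ⟨Matrix.of fun i j => (θ l i j, θ' l i j), by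
    apply Prod.ext
    · have := RingHom.map_det (RingHom.fst A B) (Matrix.of fun i j => (θ l i j, θ' l i j))
      have h2 : (RingHom.fst A B).mapMatrix (Matrix.of fun i j => (θ l i j, θ' l i j)) = (θ l).1 := by
        ext i j; rfl
      rw [h2, (θ l).2] at this
      exact this
    · have := RingHom.map_det (RingHom.snd A B) (Matrix.of fun i j => (θ l i j, θ' l i j))
      have h2 : (RingHom.snd A B).mapMatrix (Matrix.of fun i j => (θ l i j, θ' l i j)) = (θ' l).1 := by
        ext i j; rfl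
      rw [h2, (θ' l).2] at this
      exact this⟩
  map_one' := by
    ext i j
    · simp [Matrix.one_apply]; split_ifs <;> rfl
    · simp [Matrix.one_apply]; split_ifs <;> rfl
  map_mul' a b := by
    ext i j
    · simp [Matrix.mul_apply, Prod.fst_sum]
    · simp [Matrix.mul_apply, Prod.snd_sum]

lemma pairSL_tr {n : ℕ} {A B Λ : Type} [CommRing A] [CommRing B] [Group Λ] (θ : Λ →* SLn n A)
    (θ' : Λ →* SLn n B) (l : Λ) (i j : Fin n) (h : i ≠ j) (a : A) (b : B) (h1 : θ l = tr i j h a)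
    (h2 : θ' l = tr i j h b) : pairSL θ θ' l = tr i j h (a, b) := by
  have e : ∀ k l', pairSL θ θ' l k l' = (θ l k l', θ' l k l') := fun k l' => rfl
  ext k l'
  · rw [e, h1]
    simp [tr, Matrix.transvection, Matrix.single_apply, Matrix.one_apply]
    split_ifs <;> simp
  · rw [e, h2]
    simp [tr, Matrix.transvection, Matrix.single_apply, Matrix.one_apply]
    split_ifs <;> simp

/-- renumbering -/
def reSL {m n : ℕ} {A : Type} [CommRing A] (e : Fin m ≃ Fin n) : SLn n A →* SLn m A where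
  toFun M := ⟨M.1.submatrix e e, by rw [Matrix.det_submatrix_equiv_self, M.2]⟩
  map_one' := by ext i j; simp [Matrix.one_apply]
  map_mul' a b := by
    apply Subtype.ext
    show (a.1 * b.1).submatrix e e = a.1.submatrix e e * b.1.submatrix e e
    rw [Matrix.submatrix_mul_equiv]

lemma reSL_tr {m n : ℕ} {A : Type} [CommRing A] (e : Fin m ≃ Fin n) (i j : Fin m) (h : i ≠ j)
    (a : A) : reSL e (tr (e i) (e j) (e.injective.ne h) a) = tr i j h a := by
  ext k l
  simp [reSL, tr, Matrix.transvection, Matrix.single_apply, Matrix.one_apply]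

section key

variable {m : ℕ} {R Λ : Type} [Ring R] [Group Λ]

lemma key (hFF : S_FF) (hCA : S_CA) (hm : 3 ≤ m) (A : Finset R)
    (hA : Subring.closure (A : Set R) = ⊤) (hFQ : SameFQ Λ (SLn m ℤ))
    (x : Fin m → Fin m → R → Λ) (hx1 : ∀ i a, x i i a = 1)
    (hx : Subgroup.closure {g | ∃ i j a, g = x i j a} = ⊤)
    {q q' : ℕ} [Fact q.Prime] [Fact q'.Prime] (φ : R →+* ℤ_[q]) (φ' : R →+* ℤ_[q'])
    (θ : Λ →* SLn m ℤ_[q]) (θ' : Λ →* SLn m ℤ_[q'])
    (hθ : ∀ i j h a, θ (x i j a) = tr i j h (φ a))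
    (hθ' : ∀ i j h a, θ' (x i j a) = tr i j h (φ' a)) (r : R) :
    ∃ t : ℚ, ((φ r : ℤ_[q]) : ℚ_[q]) = t ∧ ((φ' r : ℤ_[q']) : ℚ_[q']) = t := by
  classical
  obtain ⟨B, hB⟩ := hFF m hm
  let c : R →+* ℤ_[q] × ℤ_[q'] := φ.prod φ'
  let C := c.range
  let cr : R →+* C := c.rangeRestrict
  have hcr : Function.Surjective cr := c.rangeRestrict_surjective
  -- the representation over C
  obtain ⟨Θ, hΘ⟩ := lift_sl C.subtype Subtype.val_injective (pairSL θ θ') _ hx (by
    rintro _ ⟨i, j, a, rfl⟩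
    by_cases h : i = j
    · subst h
      exact ⟨1, by rw [hx1, map_one, map_one]⟩
    · refine ⟨tr i j h (cr a), ?_⟩
      rw [map_tr, pairSL_tr θ θ' _ i j h _ _ (hθ i j h a) (hθ' i j h a)]
      rfl)
  have hΘx : ∀ i j h a, Θ (x i j a) = tr i j h (cr a) := by
    intro i j h a
    apply sl_map_inj C.subtype Subtype.val_injective
    rw [hΘ, map_tr, pairSL_tr θ θ' _ i j h _ _ (hθ i j h a) (hθ' i j h a)]
    rfl
  -- finite type
  have hft : Algebra.FiniteType ℤ C := by
    refine ⟨⟨A.image cr, ?_⟩⟩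
    rw [Algebra.adjoin_int]
    have h1 : Subring.closure ((A.image cr : Finset C) : Set C) = ⊤ := by
      rw [Finset.coe_image, ← RingHom.map_closure, hA, ← RingHom.range_eq_map,
        RingHom.range_eq_top.2 hcr]
    rw [h1]
    ext y
    simp [mem_subalgebraOfSubring]
  -- hypothesis of CA
  have hyp : ∀ (F : Type) [Field F] [Finite F] (ψ₁ ψ₂ : C →+* F), B < ringChar F → ψ₁ = ψ₂ := by
    intro F _ _ ψ₁ ψ₂ hBF
    have hp : (ringChar F).Prime := by
      rcases CharP.char_is_prime_or_zero F (ringChar F) with h | h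
      · exact h
      · omega
    let s : C →+* F × F := ψ₁.prod ψ₂
    let S := s.range
    have hfin : Finite S := Subtype.finite
    have hch : CharP S (ringChar F) := by
      have h1 := ringChar.charP F
      have h2 : CharP (F × F) (ringChar F) :=
        (RingHom.charP_iff ((RingHom.id F).prod (RingHom.id F))
          (fun a b hab => congrArg Prod.fst hab) (ringChar F)).1 h1
      exact (RingHom.charP_iff S.subtype Subtype.val_injective (ringChar F)).2 h2
    let Ψ : Λ →* SLn m S := (Matrix.SpecialLinearGroup.map s.rangeRestrict).comp Θ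
    have hfinS : Finite (SLn m S) := inferInstance
    obtain ⟨f0, hf0⟩ := (hFQ Ψ.range).1 ⟨Ψ.rangeRestrict, Ψ.rangeRestrict_surjective⟩
    have hk := hB (ringChar F) hp hBF S F ((RingHom.fst F F).comp S.subtype)
      ((RingHom.snd F F).comp S.subtype) (fun s h1 h2 => Subtype.ext (Prod.ext h1 h2))
      (Ψ.range.subtype.comp f0) (by
        intro i j h s'
        obtain ⟨c', hc'⟩ := s.rangeRestrict_surjective s'
        obtain ⟨a, ha⟩ := hcr c'
        obtain ⟨y, hy⟩ := hf0 ⟨Ψ (x i j a), ⟨_, rfl⟩⟩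
        refine ⟨y, ?_⟩
        show ((f0 y : Ψ.range) : SLn m S) = _
        rw [hy]
        show Matrix.SpecialLinearGroup.map s.rangeRestrict (Θ (x i j a)) = _
        rw [hΘx i j h a, map_tr, ha, hc']
        rfl)
    ext c'
    obtain ⟨k, hk'⟩ := hk (s.rangeRestrict c')
    have h3 : ((s.rangeRestrict c' : S) : F × F) = (k : F × F) := by
      rw [hk']; simp
    have h4 : (ψ₁ c', ψ₂ c') = ((k : F × F) : F × F) := h3
    have h5 := congrArg Prod.fst h4
    have h6 := congrArg Prod.snd h4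
    simp at h5 h6
    rw [h5, h6]
  have := hCA C hft B hyp ℚ_[q] ℚ_[q']
    ((PadicInt.Coe.ringHom (p := q)).comp ((RingHom.fst _ _).comp C.subtype))
    ((PadicInt.Coe.ringHom (p := q')).comp ((RingHom.snd _ _).comp C.subtype)) (cr r)
  exact this

lemma top_fg (hFF : S_FF) (hCA : S_CA) (hH : S_HOM) {n : ℕ} (hn : 3 ≤ n) (hm : 3 ≤ m)
    (hyp : Hyp n m R) (A : Finset R) (hA : Subring.closure (A : Set R) = ⊤)
    (hFG : Group.FG Λ) (hRF : ∀ g : Λ, g ≠ 1 → ∃ H : Subgroup Λ, H.index ≠ 0 ∧ g ∉ H)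
    (hFQ : SameFQ Λ (SLn n ℤ)) (x : Fin m → Fin m → R → Λ) (hx0 : SR x)
    (hx : Subgroup.closure {g | ∃ i j a, g = x i j a} = ⊤) :
    m = n ∧ Nonempty (Λ ≃* SLn n ℤ) := by
  have h2 := hH n m hn hm R hyp Λ hFG hFQ x hx0 hx
  have hmn : m = n := by
    haveI : Fact (Nat.Prime 2) := ⟨Nat.prime_two⟩
    obtain ⟨e, -, -, -⟩ := h2 2
    simpa using Fintype.card_congr e
  subst hmn
  refine ⟨rfl, ?_⟩
  have hθ : ∀ (q : ℕ) [Fact q.Prime], ∃ (φ : R →+* ℤ_[q]) (θ : Λ →* SLn m ℤ_[q]),
      ∀ i j h a, θ (x i j a) = tr i j h (φ a) := by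
    intro q _
    obtain ⟨e, φ, θ, h⟩ := h2 q
    refine ⟨φ, (reSL e).comp θ, fun i j hij a => ?_⟩
    rw [MonoidHom.comp_apply, h i j hij a]
    exact reSL_tr e i j hij (φ a)
  haveI : Fact (Nat.Prime 2) := ⟨Nat.prime_two⟩
  obtain ⟨φ, θ, hφ⟩ := hθ 2
  have hk := fun (q' : ℕ) [Fact q'.Prime] (φ' : R →+* ℤ_[q']) (θ' : Λ →* SLn m ℤ_[q'])
    (hθ' : ∀ i j h a, θ' (x i j a) = tr i j h (φ' a)) (r : R) =>
    key hFF hCA hm A hA hFQ x hx0.diag hx φ φ' θ θ' hφ hθ' r
  -- integrality
  have hint : ∀ r : R, ∃ z : ℤ, φ r = z := by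
    intro r
    obtain ⟨t, ht, -⟩ := hk 2 φ θ hφ r
    have hden : t.den = 1 := by
      by_contra hne
      obtain ⟨q', hq', hdvd⟩ := Nat.exists_prime_and_dvd hne
      haveI : Fact q'.Prime := ⟨hq'⟩
      obtain ⟨φ', θ', hφ'⟩ := hθ q'
      obtain ⟨t', ht1, ht2⟩ := hk q' φ' θ' hφ' r
      have htt : t' = t := by
        have : ((t' : ℚ) : ℚ_[2]) = (t : ℚ) := by rw [← ht1, ht]
        exact_mod_cast this
      rw [htt] at ht2
      have h3 : ‖((t : ℚ) : ℚ_[q'])‖ ≤ 1 := by
        rw [← ht2]; exact PadicInt.norm_le_one _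
      have h4 := PadicInt.isUnit_den t h3
      rw [PadicInt.isUnit_iff] at h4
      have h5 : ‖((t.den : ℤ) : ℤ_[q'])‖ < 1 := by
        rw [PadicInt.norm_int_lt_one_iff_dvd]
        exact_mod_cast hdvd
      have h6 : ((t.den : ℤ) : ℤ_[q']) = (t.den : ℤ_[q']) := by simp
      rw [h6, h4] at h5
      exact lt_irrefl _ h5
    refine ⟨t.num, ?_⟩
    have h7 : ((φ r : ℤ_[2]) : ℚ_[2]) = ((t.num : ℤ_[2]) : ℚ_[2]) := by
      rw [ht]
      nth_rw 1 [← Rat.num_div_den t]
      rw [hden]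
      push_cast
      simp
    exact Subtype.ext h7
  have hinj : Function.Injective (Int.castRingHom ℤ_[2]) := RingHom.injective_int _
  obtain ⟨Θ, hΘ⟩ := lift_sl (Int.castRingHom ℤ_[2]) hinj θ _ hx (by
    rintro _ ⟨i, j, a, rfl⟩
    by_cases h : i = j
    · subst h
      exact ⟨1, by rw [hx0.diag, map_one, map_one]⟩
    · obtain ⟨z, hz⟩ := hint a
      refine ⟨tr i j h z, ?_⟩
      rw [map_tr, hφ i j h a, hz]
      rfl)
  have hsurj : Function.Surjective Θ := by
    rw [← MonoidHom.range_eq_top, eq_top_iff, ← Pool.Agent.H185.ZM.EE_eq_top]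
    unfold Pool.Agent.H185.ZM.EE
    rw [Subgroup.closure_le]
    rintro _ ⟨i, j, h, z, rfl⟩
    refine ⟨x i j (z : R), ?_⟩
    apply sl_map_inj _ hinj
    rw [hΘ, hφ i j h, map_intCast]
    symm
    exact map_tr (Int.castRingHom ℤ_[2]) i j h z
  have hinj2 := Pool.Agent.Helper460_PR.hopf hFG hRF hFQ Θ hsurj
  exact ⟨MulEquiv.ofBijective Θ ⟨hinj2, hsurj⟩⟩

/-- finitely many elements suffice -/
lemma exists_finite_gen {G : Type} [Group G] (hG : Group.FG G) {ι : Type} (f : ι → G)
    (hf : Subgroup.closure (Set.range f) = ⊤) :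
    ∃ T : Finset ι, Subgroup.closure (f '' (T : Set ι)) = ⊤ := by
  classical
  obtain ⟨S, hS, hfin⟩ := Group.fg_iff.1 hG
  have h1 : ∀ g : G, ∃ T : Finset ι, g ∈ Subgroup.closure (f '' (T : Set ι)) := by
    intro g
    have hg : g ∈ Subgroup.closure (Set.range f) := by rw [hf]; trivial
    induction hg using Subgroup.closure_induction with
    | mem x hx =>
      obtain ⟨i, rfl⟩ := hx
      exact ⟨{i}, Subgroup.subset_closure ⟨i, by simp, rfl⟩⟩
    | one => exact ⟨∅, Subgroup.one_mem _⟩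
    | mul x y _ _ hx hy =>
      obtain ⟨T1, h1⟩ := hx
      obtain ⟨T2, h2⟩ := hy
      refine ⟨T1 ∪ T2, Subgroup.mul_mem _ ?_ ?_⟩
      · exact Subgroup.closure_mono (Set.image_mono (by simp)) h1
      · exact Subgroup.closure_mono (Set.image_mono (by simp)) h2
    | inv x _ hx =>
      obtain ⟨T1, h1⟩ := hx
      exact ⟨T1, Subgroup.inv_mem _ h1⟩
  choose T hT using h1
  refine ⟨hfin.toFinset.biUnion T, ?_⟩
  rw [eq_top_iff, ← hS, Subgroup.closure_le]
  intro g hg
  refine Subgroup.closure_mono (Set.image_mono ?_) (hT g)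
  intro i hi
  rw [Finset.mem_coe, Finset.mem_biUnion]
  exact ⟨g, by simpa using hg, hi⟩

end key

theorem top : S_HOM → S_FF → S_CA → S_TOP := by
  classical
  intro hH hFF hCA n m hn hm R _ hyp Λ _ hFG hRF hFQ x hx0 hx
  have hr : Set.range (fun t : Fin m × Fin m × R => x t.1 t.2.1 t.2.2) =
      {g | ∃ i j a, g = x i j a} := by
    ext g
    constructor
    · rintro ⟨⟨i, j, a⟩, rfl⟩
      exact ⟨i, j, a, rfl⟩
    · rintro ⟨i, j, a, rfl⟩
      exact ⟨⟨i, j, a⟩, rfl⟩
  obtain ⟨T, hT⟩ := exists_finite_gen hFG (fun t : Fin m × Fin m × R => x t.1 t.2.1 t.2.2)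
    (by rw [hr, hx])
  let A0 : Finset R := T.image (fun t => t.2.2)
  let R0 : Subring R := Subring.closure (A0 : Set R)
  let A : Finset R0 := A0.attach.image (fun a => (⟨a.1, Subring.subset_closure a.2⟩ : R0))
  have hA : Subring.closure (A : Set R0) = ⊤ := by
    have h1 : (A : Set R0) = R0.subtype ⁻¹' (A0 : Set R) := by
      ext y
      simp only [A, Finset.coe_image, Set.mem_image, Finset.mem_coe, Finset.mem_attach, true_and,
        Subtype.exists, Set.mem_preimage, Subring.subtype_apply]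
      constructor
      · rintro ⟨a, ha, rfl⟩
        exact ha
      · intro hy
        exact ⟨y.1, hy, Subtype.ext rfl⟩
    rw [h1]
    rw [eq_top_iff]
    rintro ⟨y, hy⟩ -
    induction hy using Subring.closure_induction with
    | mem y hy => exact Subring.subset_closure hy
    | zero => exact Subring.zero_mem _
    | one => exact Subring.one_mem _
    | add a b ha hb h1 h2 => exact Subring.add_mem _ h1 h2
    | neg a ha h1 => exact Subring.neg_mem _ h1
    | mul a b ha hb h1 h2 => exact Subring.mul_mem _ h1 h2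
  have hyp0 : Hyp n m R0 := by
    rcases hyp with h | h
    · exact Or.inl h
    · exact Or.inr fun a b => Subtype.ext (h a.1 b.1)
  let x0 : Fin m → Fin m → R0 → Λ := fun i j a => x i j (a : R)
  have hx00 : SR x0 :=
    { diag := fun i a => hx0.diag i a
      add := fun i j a b => hx0.add i j a b
      comm := fun i j k hij hjk hik a b => hx0.comm i j k hij hjk hik a b
      commute := fun i j k l h1 h2 a b => hx0.commute i j k l h1 h2 a b }
  refine top_fg hFF hCA hH hn hm hyp0 A hA hFG hRF hFQ x0 hx00 ?_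
  rw [eq_top_iff, ← hT, Subgroup.closure_le]
  rintro _ ⟨⟨i, j, a⟩, ht, rfl⟩
  refine Subgroup.subset_closure ⟨i, j, ⟨a, Subring.subset_closure ?_⟩, rfl⟩
  exact Finset.mem_coe.2 (Finset.mem_image.2 ⟨_, ht, rfl⟩)

end Pool.Agent.T2h61.PR
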