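import Pool.Agent.T2h61.PR.Stm

/-!
# (AB) commuting matrices of bounded order
-/

set_option autoImplicit false

namespace Pool.Agent.T2h61.PR.AB

open Matrix

/-- In an Artinian commutative ring in which `M` is a unit, `t ^ M = 1` has finitely many
solutions. -/
theorem fin_roots (A : Type) [CommRing A] [IsArtinianRing A] (M : ℕ) (hM : 0 < M)
    (hu : IsUnit (M : A)) : {t : A | t ^ M = 1}.Finite := by
  classical
  have hroots : ∀ m : MaximalSpectrum A, Finite {x : A ⧸ m.asIdeal | x ^ M = 1} := by
    intro m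
    have hmax := m.isMaximal
    let _ : Field (A ⧸ m.asIdeal) := Ideal.Quotient.field m.asIdeal
    apply Set.Finite.to_subtype
    have hne : (Polynomial.X ^ M - 1 : Polynomial (A ⧸ m.asIdeal)) ≠ 0 :=
      Polynomial.X_pow_sub_C_ne_zero hM 1
    apply (Polynomial.X ^ M - 1 : Polynomial (A ⧸ m.asIdeal)).roots.toFinset.finite_toSet.subset
    intro x hx
    simp only [Set.mem_setOf_eq] at hx
    simp only [Finset.mem_coe, Multiset.mem_toFinset, Polynomial.mem_roots hne,
      Polynomial.IsRoot.def, Polynomial.eval_sub, Polynomial.eval_pow, Polynomial.eval_X,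
      Polynomial.eval_one]
    rw [hx, sub_self]
  let Φ : {t : A | t ^ M = 1} → ((m : MaximalSpectrum A) → {x : A ⧸ m.asIdeal | x ^ M = 1}) :=
    fun t m => ⟨Ideal.Quotient.mk m.asIdeal t.1, by
      have := t.2
      simp only [Set.mem_setOf_eq] at this ⊢
      rw [← map_pow, this, map_one]⟩
  have hinj : Function.Injective Φ := by
    intro t t' h
    have hS : IsUnit (∑ i ∈ Finset.range M, t.1 ^ i * t'.1 ^ (M - 1 - i)) := by
      by_contra hnu
      obtain ⟨m, hm, hmem⟩ := exists_max_ideal_of_mem_nonunits hnu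
      have h1 := congrArg (fun f => (f ⟨m, hm⟩).1) h
      simp only [Φ] at h1
      have h2 : Ideal.Quotient.mk m (∑ i ∈ Finset.range M, t.1 ^ i * t'.1 ^ (M - 1 - i)) = 0 :=
        Ideal.Quotient.eq_zero_iff_mem.mpr hmem
      rw [map_sum] at h2
      have h3 : ∀ i ∈ Finset.range M, Ideal.Quotient.mk m (t.1 ^ i * t'.1 ^ (M - 1 - i)) =
          (Ideal.Quotient.mk m t.1) ^ (M - 1) := by
        intro i hi
        have hi2 := Finset.mem_range.mp hi
        rw [map_mul, map_pow, map_pow, ← h1, ← pow_add]
        congr 1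
        omega
      rw [Finset.sum_congr rfl h3, Finset.sum_const, Finset.card_range, nsmul_eq_mul] at h2
      have h4 : IsUnit ((M : A ⧸ m) * (Ideal.Quotient.mk m t.1) ^ (M - 1)) := by
        apply IsUnit.mul
        · have := hu.map (Ideal.Quotient.mk m)
          rwa [map_natCast] at this
        · apply IsUnit.pow
          have : IsUnit t.1 := by
            apply IsUnit.of_pow_eq_one t.2 hM.ne'
          exact this.map _
      rw [h2] at h4
      have hnt : Nontrivial (A ⧸ m) := Ideal.Quotient.nontrivial_iff.mpr hm.ne_top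
      exact not_isUnit_zero h4
    have h5 := (Commute.all t.1 t'.1).geom_sum₂_mul M
    have h6 : t.1 ^ M - t'.1 ^ M = 0 := by
      have a1 := t.2
      have a2 := t'.2
      simp only [Set.mem_setOf_eq] at a1 a2
      rw [a1, a2, sub_self]
    rw [h6] at h5
    apply Subtype.ext
    have h7 := (hS.mul_right_eq_zero).mp h5
    exact sub_eq_zero.mp h7
  have := Finite.of_injective Φ hinj
  exact Set.toFinite _

end Pool.Agent.T2h61.PR.AB

namespace Pool.Agent.T2h61.PR

theorem ab : S_AB := by
  intro n K _ _ M hM T hcomm hT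
  classical
  let T0 : Set (Mn n K) := (fun u : (Mn n K)ˣ => (u : Mn n K)) '' T
  have hc : ∀ a ∈ T0, ∀ b ∈ T0, a * b = b * a := by
    rintro _ ⟨a, ha, rfl⟩ _ ⟨b, hb, rfl⟩
    exact congrArg (fun u : (Mn n K)ˣ => (u : Mn n K)) (hcomm a ha b hb)
  let A := Algebra.adjoin K T0
  let _ : CommRing A := Algebra.adjoinCommRingOfComm K hc
  have hfd : Module.Finite K A := by
    have : Module.Finite K (Subalgebra.toSubmodule A) := inferInstance
    exact this
  have hart : IsArtinianRing A := IsArtinianRing.of_finite K A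
  have hu : IsUnit (M : A) := by
    have h1 : (M : A) = algebraMap K A (M : K) := by rw [map_natCast]
    rw [h1]
    apply IsUnit.map
    exact (Nat.cast_ne_zero.mpr hM.ne').isUnit
  have hfin := AB.fin_roots A M hM hu
  have himg := hfin.image (fun a : A => (a : Mn n K))
  have hsub : T0 ⊆ (fun a : A => (a : Mn n K)) '' {t : A | t ^ M = 1} := by
    rintro _ ⟨a, ha, rfl⟩
    refine ⟨⟨(a : Mn n K), Algebra.subset_adjoin ⟨a, ha, rfl⟩⟩, ?_, rfl⟩
    apply Subtype.ext
    have := congrArg (fun u : (Mn n K)ˣ => (u : Mn n K)) (hT a ha)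
    simpa using this
  have hT0 := himg.subset hsub
  exact Set.Finite.of_finite_image hT0 (Units.val_injective.injOn)

end Pool.Agent.T2h61.PR
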