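import Pool.Agent.T2h61.PR.Stm

/-!
# T61 (profinite rigidity), task CONJ: from the Lie algebra back to the group (helper59)
-/

set_option autoImplicit false
set_option linter.all false

namespace Pool.Agent.T2h61.PR.Conj

open Matrix Pool.Agent.Helper58.K2

variable {ι K : Type} [Fintype ι] [DecidableEq ι] [Field K]

/-- elementary units -/
def T (p q : ι) (h : p ≠ q) (c : K) : (Matrix ι ι K)ˣ where
  val := 1 + Matrix.single p q c
  inv := 1 - Matrix.single p q c
  val_inv := by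
    rw [mul_sub, add_mul, one_mul, mul_one, add_mul, one_mul,
      Matrix.single_mul_single_of_ne _ _ _ _ h.symm]
    simp
  inv_val := by
    rw [mul_add, mul_one, sub_mul, one_mul, Matrix.single_mul_single_of_ne _ _ _ _ h.symm]
    simp

@[simp] lemma T_val (p q : ι) (h : p ≠ q) (c : K) : (T p q h c : Matrix ι ι K) = 1 + Matrix.single p q c := rfl
@[simp] lemma T_inv (p q : ι) (h : p ≠ q) (c : K) : ((T p q h c)⁻¹ : (Matrix ι ι K)ˣ) = (1 - Matrix.single p q c : Matrix ι ι K) := rfl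

lemma T_comm (p q r : ι) (h1 : p ≠ q) (h2 : q ≠ r) (h3 : p ≠ r) (a b : K) :
    T p q h1 a * T q r h2 b * (T p q h1 a)⁻¹ * (T q r h2 b)⁻¹ = T p r h3 (a * b) := by
  rw [mul_inv_eq_iff_eq_mul, mul_inv_eq_iff_eq_mul]
  apply Units.ext
  simp only [Units.val_mul, T_val]
  simp only [mul_add, add_mul, one_mul, mul_one]
  simp [Matrix.single_mul_single_same, Matrix.single_mul_single_of_ne, h1.symm, h2.symm, h3.symm, h1, h2, h3]
  abel

lemma T_left (p q r : ι) (h1 : p ≠ q) (h3 : p ≠ r) (a b : K) :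
    (T p q h1 a : Matrix ι ι K) * Matrix.single q r b * ((T p q h1 a)⁻¹ : (Matrix ι ι K)ˣ) =
      Matrix.single q r b + Matrix.single p r (a * b) := by
  simp only [T_val, T_inv, mul_sub, add_mul, one_mul, mul_one, Matrix.single_mul_single_same]
  simp [Matrix.single_mul_single_of_ne, h3.symm]

lemma T_right (p q r : ι) (h1 : p ≠ q) (h3 : r ≠ q) (a b : K) :
    (T p q h1 a : Matrix ι ι K) * Matrix.single r p b * ((T p q h1 a)⁻¹ : (Matrix ι ι K)ˣ) =
      Matrix.single r p b - Matrix.single r q (b * a) := by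
  simp only [T_val, T_inv, mul_sub, add_mul, one_mul, mul_one, Matrix.single_mul_single_same]
  simp [Matrix.single_mul_single_of_ne, h3.symm]

lemma T_fix (p q r s : ι) (h1 : p ≠ q) (h2 : q ≠ r) (h3 : p ≠ s) (a b : K) :
    (T p q h1 a : Matrix ι ι K) * Matrix.single r s b * ((T p q h1 a)⁻¹ : (Matrix ι ι K)ˣ) =
      Matrix.single r s b := by
  simp only [T_val, T_inv, mul_sub, add_mul, one_mul, mul_one]
  simp [Matrix.single_mul_single_of_ne, h2, h3.symm]

/-- three distinct indices -/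
lemma third {m : ℕ} (hm : 3 ≤ m) (i j : Fin m) : ∃ k, k ≠ i ∧ k ≠ j := by
  have : ({i, j} : Finset (Fin m)).card < (Finset.univ : Finset (Fin m)).card := by
    rw [Finset.card_univ, Fintype.card_fin]
    exact lt_of_le_of_lt (Finset.card_le_two) (by omega)
  obtain ⟨k, _, hk⟩ := Finset.exists_mem_notMem_of_card_lt_card this
  simp only [Finset.mem_insert, Finset.mem_singleton, not_or] at hk
  exact ⟨k, hk.1, hk.2⟩

/-- from conjugation to commutation -/
lemma comm_of_conj {G : Type} [Monoid G] (x z : Gˣ) (w : G)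
    (h : (x : G) * w * ((x⁻¹ : Gˣ) : G) = (z : G) * w * ((z⁻¹ : Gˣ) : G)) :
    ((z⁻¹ * x : Gˣ) : G) * w = w * ((z⁻¹ * x : Gˣ) : G) := by
  rw [Units.val_mul]
  calc ((z⁻¹ : Gˣ) : G) * x * w = ((z⁻¹ : Gˣ) : G) * ((x : G) * w * ((x⁻¹ : Gˣ) : G)) * x := by
        simp [mul_assoc]
    _ = ((z⁻¹ : Gˣ) : G) * ((z : G) * w * ((z⁻¹ : Gˣ) : G)) * x := by rw [h]
    _ = _ := by simp [mul_assoc]

lemma grp {G : Type} [Group G] (A s B t : G) (hs : ∀ v, s * v = v * s) (ht : ∀ v, t * v = v * t) :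
    A * s * (B * t) * (A * s)⁻¹ * (B * t)⁻¹ = A * B * A⁻¹ * B⁻¹ := by
  have c1 : A * s * (B * t) = A * B * t * s := by
    rw [mul_assoc A s, hs, ← mul_assoc, ← mul_assoc]
  rw [c1]
  have : A * B * t * s * (A * s)⁻¹ * (B * t)⁻¹ = A * B * (t * (A⁻¹ * t⁻¹)) * B⁻¹ := by group
  rw [this, ht (A⁻¹ * t⁻¹)]
  group

theorem main {m n : ℕ} (hm : 3 ≤ m) {R : Type} [Ring R]
    (X : Fin m → Fin m → R → (Mn n K)ˣ) (N : Fin m → Fin m → R → Mn n K)
    (hc : ∀ i j k, i ≠ j → j ≠ k → i ≠ k → ∀ a b,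
      X i j a * X j k b * (X i j a)⁻¹ * (X j k b)⁻¹ = X i k (a * b))
    (hXN : XN X N) (e : Fin m ≃ Fin n) (φ : R →+* K)
    (hN : ∀ i j a, i ≠ j → N i j a = Matrix.single (e i) (e j) (φ a)) :
    ∀ i j a, i ≠ j → (X i j a : Mn n K) = 1 + Matrix.single (e i) (e j) (φ a) := by
  have he : ∀ {i j : Fin m}, i ≠ j → e i ≠ e j := fun h => e.injective.ne h
  -- the difference is central
  have key : ∀ i j a (h : i ≠ j), ∀ v : (Mn n K)ˣ,
      ((T (e i) (e j) (he h) (φ a))⁻¹ * X i j a) * v = v * ((T (e i) (e j) (he h) (φ a))⁻¹ * X i j a) := by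
    intro i j a h
    set u := (T (e i) (e j) (he h) (φ a))⁻¹ * X i j a with hu
    have h1 : ∀ k l b, k ≠ l → (k ≠ j ∨ l ≠ i) → (u : Mn n K) * N k l b = N k l b * u := by
      intro k l b hkl hor
      apply comm_of_conj
      by_cases hjk : j = k
      · subst hjk
        have hli : l ≠ i := by
          rcases hor with h | h
          · exact absurd rfl h
          · exact h
        rw [hXN.left i j l h hkl hli.symm, hN _ _ _ hkl, hN _ _ _ hli.symm, map_mul,
          T_left _ _ _ _ (he hli.symm)]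
      · by_cases hil : i = l
        · subst hil
          rw [hXN.right i j k h hkl (Ne.symm hjk), hN _ _ _ hkl, hN _ _ _ (Ne.symm hjk), map_mul,
            T_right _ _ _ _ (he (Ne.symm hjk))]
        · rw [hXN.fix i j k l h hkl hjk hil, hN _ _ _ hkl, T_fix _ _ _ _ _ (he hjk) (he hil)]
    have h2 : ∀ k l b, k ≠ l → (u : Mn n K) * N k l b = N k l b * u := by
      intro k l b hkl
      by_cases hor : k ≠ j ∨ l ≠ i
      · exact h1 k l b hkl hor
      · push Not at hor
        obtain ⟨rfl, rfl⟩ := hor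
        obtain ⟨p, hp1, hp2⟩ := third hm k l
        have e1 : N k l b = N k p 1 * N p l b := by
          rw [hN _ _ _ hkl, hN _ _ _ hp1.symm, hN _ _ _ hp2, map_one,
            Matrix.single_mul_single_same, one_mul]
        rw [e1, ← mul_assoc, h1 k p 1 hp1.symm (Or.inr hp2), mul_assoc,
          h1 p l b hp2 (Or.inl hp1), mul_assoc]
    have h3 : (u : Mn n K) ∈ Set.range (Matrix.scalar (Fin n)) := by
      apply Matrix.mem_range_scalar_of_commute_single
      intro p q hpq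
      have := h2 (e.symm p) (e.symm q) 1 (e.symm.injective.ne hpq)
      rw [hN _ _ _ (e.symm.injective.ne hpq)] at this
      simp only [Equiv.apply_symm_apply, map_one] at this
      exact this.symm
    obtain ⟨c, hc⟩ := h3
    intro v
    apply Units.ext
    rw [Units.val_mul u v, Units.val_mul v u, ← hc]
    exact (Matrix.scalar_commute c (fun r => mul_comm _ _) (v : Mn n K)).eq
  intro i j a h
  obtain ⟨k, hki, hkj⟩ := third hm i j
  have e1 : X i j a = T (e i) (e j) (he h) (φ a) := by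
    have hh := hc i k j hki.symm hkj h a 1
    rw [mul_one] at hh
    rw [← hh]
    have hA : X i k a = T (e i) (e k) (he hki.symm) (φ a) *
      ((T (e i) (e k) (he hki.symm) (φ a))⁻¹ * X i k a) := by group
    have hB : X k j 1 = T (e k) (e j) (he hkj) (φ 1) *
      ((T (e k) (e j) (he hkj) (φ 1))⁻¹ * X k j 1) := by group
    have kA := key i k a hki.symm
    have kB := key k j 1 hkj
    rw [hA, hB, grp _ _ _ _ kA kB, T_comm _ _ _ _ _ (he h), map_one, mul_one]
  rw [e1, T_val]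

/-- inverse transpose -/
def itr {n : ℕ} : (Mn n K)ˣ →* (Mn n K)ˣ where
  toFun u := ⟨(((u⁻¹ : (Mn n K)ˣ) : Mn n K))ᵀ, (u : Mn n K)ᵀ, by
    rw [← Matrix.transpose_mul]; simp, by rw [← Matrix.transpose_mul]; simp⟩
  map_one' := by apply Units.ext; simp
  map_mul' a b := by apply Units.ext; simp [Matrix.transpose_mul]

lemma itr_val {n : ℕ} (u : (Mn n K)ˣ) : (itr u : Mn n K) = (((u⁻¹ : (Mn n K)ˣ) : Mn n K))ᵀ := rfl

lemma itr_inv {n : ℕ} (u : (Mn n K)ˣ) : (((itr u)⁻¹ : (Mn n K)ˣ) : Mn n K) = (u : Mn n K)ᵀ := rfl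

theorem main' {m n : ℕ} (hm : 3 ≤ m) {R : Type} [Ring R]
    (X : Fin m → Fin m → R → (Mn n K)ˣ) (N : Fin m → Fin m → R → Mn n K)
    (hc : ∀ i j k, i ≠ j → j ≠ k → i ≠ k → ∀ a b,
      X i j a * X j k b * (X i j a)⁻¹ * (X j k b)⁻¹ = X i k (a * b))
    (hXN : XN X N) (e : Fin m ≃ Fin n) (φ : R →+* K)
    (hN : ∀ i j a, i ≠ j → N i j a = - Matrix.single (e j) (e i) (φ a)) :
    ∀ i j a, i ≠ j → (X i j a : Mn n K) = 1 - Matrix.single (e j) (e i) (φ a) := by
  have hconj : ∀ (u : (Mn n K)ˣ) (w : Mn n K),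
      (itr u : Mn n K) * (-wᵀ) * (((itr u)⁻¹ : (Mn n K)ˣ) : Mn n K) =
        - ((u : Mn n K) * w * ((u⁻¹ : (Mn n K)ˣ) : Mn n K))ᵀ := by
    intro u w
    rw [itr_val, itr_inv, Matrix.transpose_mul, Matrix.transpose_mul, mul_neg, neg_mul, mul_assoc]
  have h := main hm (fun i j a => itr (X i j a)) (fun i j a => -(N i j a)ᵀ)
    (fun i j k h1 h2 h3 a b => by
      rw [← map_inv, ← map_inv, ← map_mul, ← map_mul, ← map_mul, hc i j k h1 h2 h3])
    ⟨fun i j k h1 h2 h3 a b => by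
      rw [hconj, hXN.left i j k h1 h2 h3, Matrix.transpose_add, neg_add],
     fun i j k h1 h2 h3 a b => by
      rw [hconj, hXN.right i j k h1 h2 h3, Matrix.transpose_sub]
      abel,
     fun i j k l h1 h2 h3 h4 a b => by
      rw [hconj, hXN.fix i j k l h1 h2 h3 h4]⟩ e φ
    (fun i j a hij => by
      rw [hN i j a hij, Matrix.transpose_neg, neg_neg, Matrix.transpose_single])
  intro i j a hij
  have h1 := h i j a hij
  simp only [itr_val] at h1
  have h2 : (((X i j a)⁻¹ : (Mn n K)ˣ) : Mn n K) = 1 + Matrix.single (e j) (e i) (φ a) := by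
    rw [← Matrix.transpose_transpose ((((X i j a)⁻¹ : (Mn n K)ˣ) : Mn n K)), h1,
      Matrix.transpose_add, Matrix.transpose_one, Matrix.transpose_single]
  have h3 : (X i j a)⁻¹ = T (e j) (e i) (e.injective.ne hij.symm) (φ a) := Units.ext h2
  rw [inv_eq_iff_eq_inv] at h3
  rw [h3, T_inv]

end Pool.Agent.T2h61.PR.Conj

namespace Pool.Agent.T2h61.PR

open Matrix Pool.Agent.Helper58.K2

theorem conj : S_CONJ := by
  intro m n hm K _ _ R _ X N hS hXN ⟨e, g, φ, hN⟩
  -- conjugate by `g`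
  have hconj : ∀ (u : (Mn n K)ˣ) (w : Mn n K),
      ((g⁻¹ * u * g : (Mn n K)ˣ) : Mn n K) * (((g⁻¹ : (Mn n K)ˣ) : Mn n K) * w * g) *
        (((g⁻¹ * u * g)⁻¹ : (Mn n K)ˣ) : Mn n K) =
      ((g⁻¹ : (Mn n K)ˣ) : Mn n K) * ((u : Mn n K) * w * ((u⁻¹ : (Mn n K)ˣ) : Mn n K)) * g := by
    intro u w
    rw [_root_.mul_inv_rev, _root_.mul_inv_rev, inv_inv]
    simp only [Units.val_mul, mul_assoc, Units.mul_inv_cancel_left, Units.inv_mul_cancel_left]
  have hX' : ∀ i j k, i ≠ j → j ≠ k → i ≠ k → ∀ a b,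
      (g⁻¹ * X i j a * g) * (g⁻¹ * X j k b * g) * (g⁻¹ * X i j a * g)⁻¹ *
        (g⁻¹ * X j k b * g)⁻¹ = g⁻¹ * X i k (a * b) * g := by
    intro i j k h1 h2 h3 a b
    rw [← hS.comm i j k h1 h2 h3]
    group
  have hXN' : XN (fun i j a => g⁻¹ * X i j a * g)
      (fun i j a => ((g⁻¹ : (Mn n K)ˣ) : Mn n K) * N i j a * g) :=
    ⟨fun i j k h1 h2 h3 a b => by
      rw [hconj, hXN.left i j k h1 h2 h3, mul_add, add_mul],
     fun i j k h1 h2 h3 a b => by
      rw [hconj, hXN.right i j k h1 h2 h3, mul_sub, sub_mul],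
     fun i j k l h1 h2 h3 h4 a b => by
      rw [hconj, hXN.fix i j k l h1 h2 h3 h4]⟩
  refine ⟨e, g, φ, ?_⟩
  rcases hN with hN | hN
  · left
    intro i j a hij
    have := Conj.main hm _ _ hX' hXN' e φ (fun i j a h => by
      rw [hN i j a h]
      simp [mul_assoc]) i j a hij
    rw [← this]
    simp [mul_assoc]
  · right
    intro i j a hij
    have := Conj.main' hm _ _ hX' hXN' e φ (fun i j a h => by
      rw [hN i j a h]
      simp [mul_assoc]) i j a hij
    rw [← this]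
    simp [mul_assoc]

end Pool.Agent.T2h61.PR
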