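import Pool.Agent.T2h61.PR.Stm
import Pool.Agent.Helper460_CSP.Bls

/-!
# (FF) quotients of `SL (n, ℤ)` over finite rings of large characteristic
-/

set_option autoImplicit false
set_option linter.unusedSimpArgs false
set_option linter.unusedVariables false

namespace Pool.Agent.T2h61.PR.FF

open Matrix SpecialLinearGroup

theorem diag_mat {ι F : Type} [Fintype ι] [DecidableEq ι] [Field F] {i j : ι} (hij : i ≠ j) (a : F)
    (ha : a ≠ 0) : (diagonal (fun k ↦ if k = i then a else if k = j then a⁻¹ else 1) :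
      Matrix ι ι F) =
    (1 + single i j a) * (1 + single j i (-a⁻¹)) * (1 + single i j a) * (1 + single i j (-1)) *
      (1 + single j i 1) * (1 + single i j (-1)) := by
  simp only [mul_add, add_mul, mul_one,
    one_mul, Matrix.single_mul_single_same, Matrix.single_mul_single_of_ne _ _ _ _ hij,
    Matrix.single_mul_single_of_ne _ _ _ _ hij.symm, zero_mul, mul_zero, add_zero, zero_add]
  ext r s
  simp only [Matrix.diagonal_apply, Matrix.add_apply, Matrix.one_apply, Matrix.single_apply]
  by_cases hr : r = i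
  · subst hr
    by_cases hs : s = r
    · subst hs
      simp [hij, hij.symm]
      try field_simp
      try ring
    · by_cases hs2 : s = j
      · subst hs2
        simp [hij, hij.symm]
        try field_simp
        try ring
      · simp [hij, hij.symm, Ne.symm hs, Ne.symm hs2]
  · by_cases hr2 : r = j
    · subst hr2
      by_cases hs : s = i
      · subst hs
        simp [hij, hij.symm]
        try field_simp
        try ring
      · by_cases hs2 : s = r
        · subst hs2
          simp [hij, hij.symm]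
          try field_simp
          try ring
        · simp [hij, hij.symm, Ne.symm hs, Ne.symm hs2]
    · simp [hr, hr2, Ne.symm hr, Ne.symm hr2]

theorem diag_dec {ι F : Type} [Fintype ι] [DecidableEq ι] [Field F] {i j : ι} (hij : i ≠ j) (a : F)
    (ha : a ≠ 0) : diag2n hij a ha = SpecialLinearGroup.transvection hij a *
      SpecialLinearGroup.transvection hij.symm (- a⁻¹) *
      SpecialLinearGroup.transvection hij a *
      SpecialLinearGroup.transvection hij (-1) *
      SpecialLinearGroup.transvection hij.symm 1 *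
      SpecialLinearGroup.transvection hij (-1) :=
  Subtype.ext (diag_mat hij a ha)

theorem gen_field {ι F : Type} [Fintype ι] [DecidableEq ι] [Nontrivial ι] [Field F]
    (A : SpecialLinearGroup ι F) (H : Subgroup (SpecialLinearGroup ι F))
    (hH : ∀ (i j : ι) (h : i ≠ j) (c : F), SpecialLinearGroup.transvection h c ∈ H) : A ∈ H := by
  refine diagonal_transvection_induction' (fun A => A ∈ H) A ?_ hH (fun A B hA hB => mul_mem hA hB)
  intro i j hij c hc
  rw [diag_dec]
  exact mul_mem (mul_mem (mul_mem (mul_mem (mul_mem (hH _ _ _ _) (hH _ _ _ _)) (hH _ _ _ _))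
    (hH _ _ _ _)) (hH _ _ _ _)) (hH _ _ _ _)

open Pool.Agent.Helper460_CSP

theorem tv_rel {ι : Type} [Fintype ι] [DecidableEq ι] {i j k : ι} (hij : i ≠ j) (hjk : j ≠ k)
    (hik : i ≠ k) : tv i j hij 1 * tv j k hjk 1 = tv i k hik 1 * (tv j k hjk 1 * tv i j hij 1) := by
  apply Subtype.ext
  show (Matrix.transvection i j (1 : ℤ)) * Matrix.transvection j k 1 =
    Matrix.transvection i k 1 * (Matrix.transvection j k 1 * Matrix.transvection i j 1)
  simp only [Matrix.transvection, mul_add, add_mul, mul_one, one_mul,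
    Matrix.single_mul_single_same, Matrix.single_mul_single_of_ne _ _ _ _ hik.symm,
    Matrix.single_mul_single_of_ne _ _ _ _ hjk.symm, zero_mul, mul_zero, add_zero, zero_add]
  abel

theorem tv_com1 {ι : Type} [Fintype ι] [DecidableEq ι] {i j k : ι} (hij : i ≠ j) (hjk : j ≠ k)
    (hik : i ≠ k) : tv i k hik 1 * tv i j hij 1 = tv i j hij 1 * tv i k hik 1 := by
  apply Subtype.ext
  show (Matrix.transvection i k (1 : ℤ)) * Matrix.transvection i j 1 =
    Matrix.transvection i j 1 * Matrix.transvection i k 1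
  simp only [Matrix.transvection, mul_add, add_mul, mul_one, one_mul,
    Matrix.single_mul_single_of_ne _ _ _ _ hik.symm,
    Matrix.single_mul_single_of_ne _ _ _ _ hij.symm, zero_mul, mul_zero, add_zero, zero_add]
  abel

theorem tv_com2 {ι : Type} [Fintype ι] [DecidableEq ι] {i j k : ι} (hij : i ≠ j) (hjk : j ≠ k)
    (hik : i ≠ k) : tv i k hik 1 * tv j k hjk 1 = tv j k hjk 1 * tv i k hik 1 := by
  apply Subtype.ext
  show (Matrix.transvection i k (1 : ℤ)) * Matrix.transvection j k 1 =
    Matrix.transvection j k 1 * Matrix.transvection i k 1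
  simp only [Matrix.transvection, mul_add, add_mul, mul_one, one_mul,
    Matrix.single_mul_single_of_ne _ _ _ _ hjk.symm,
    Matrix.single_mul_single_of_ne _ _ _ _ hik.symm, zero_mul, mul_zero, add_zero, zero_add]
  abel

/-- The map to `GL (n, F)`. -/
noncomputable def toF {n : ℕ} {S F : Type} [CommRing S] [Field F] (ψ : S →+* F) :
    SLn n S →* (Mn n F)ˣ :=
  (Matrix.GeneralLinearGroup.map (n := Fin n) ψ).comp
    (Matrix.SpecialLinearGroup.toGL (n := Fin n) (R := S))

theorem toF_apply {n : ℕ} {S F : Type} [CommRing S] [Field F] (ψ : S →+* F) (A : SLn n S)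
    (i j : Fin n) : (toF ψ A : Mn n F) i j = ψ (A.1 i j) := rfl

theorem third {n : ℕ} (hn : 3 ≤ n) (i j : Fin n) : ∃ k : Fin n, k ≠ i ∧ k ≠ j := by
  by_contra hcon
  push Not at hcon
  have h1 : (Finset.univ : Finset (Fin n)) ⊆ {i, j} := by
    intro k _
    by_cases hk : k = i
    · simp [hk]
    · simp [hcon k hk]
  have h2 := Finset.card_le_card h1
  have h3 : ({i, j} : Finset (Fin n)).card ≤ 2 := Finset.card_le_two
  rw [Finset.card_univ, Fintype.card_fin] at h2
  omega

/-- (1) the transvections of level `n! p` are killed. -/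
theorem kill (hUNI : S_UNI) {n : ℕ} (hn : 3 ≤ n) {p : ℕ} (hp : p.Prime) (hnp : n ≤ p)
    {S F : Type} [CommRing S] [CharP S p] [Field F] (ψ₁ ψ₂ : S →+* F)
    (hψ : ∀ s, ψ₁ s = 0 → ψ₂ s = 0 → s = 0) (f : SLn n ℤ →* SLn n S) (i k : Fin n) (hik : i ≠ k) :
    f (tv i k hik ((n.factorial * p : ℕ) : ℤ)) = 1 := by
  obtain ⟨j, hji, hjk⟩ := third hn i k
  have hFp : CharP F p := by
    have h0 : ((p : ℕ) : F) = 0 := by
      have : ((p : ℕ) : S) = 0 := CharP.cast_eq_zero S p
      rw [← map_natCast ψ₁, this, map_zero]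
    exact (CharP.charP_iff_prime_eq_zero hp).mpr h0
  have hFact : Fact p.Prime := ⟨hp⟩
  have hne : Nonempty (Fin n) := ⟨i⟩
  have hEx : ExpChar (Mn n F) p := ExpChar.prime hp
  have key : ∀ ψ : S →+* F, toF ψ (f (tv i k hik 1)) ^ (n.factorial * p) = 1 := by
    intro ψ
    let φ : SLn n ℤ →* (Mn n F)ˣ := (toF ψ).comp f
    have h1 := hUNI n F (φ (tv i j hji.symm 1)) (φ (tv j k hjk 1)) (φ (tv i k hik 1))
      (by
        have := congrArg φ (tv_rel hji.symm hjk hik)
        rw [map_mul, map_mul, map_mul] at this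
        rw [this]; group)
      (by rw [← map_mul, ← map_mul, tv_com1 hji.symm hjk hik])
      (by rw [← map_mul, ← map_mul, tv_com2 hji.symm hjk hik])
    have h2 : ((φ (tv i k hik 1) : Mn n F) ^ n.factorial - 1) ^ p = 0 := by
      obtain ⟨c, rfl⟩ := Nat.exists_eq_add_of_le hnp
      rw [pow_add, h1, zero_mul]
    rw [sub_pow_expChar_of_commute _ (Commute.one_right _), one_pow, ← pow_mul, sub_eq_zero] at h2
    apply Units.ext
    rw [Units.val_pow_eq_pow_val, Units.val_one]
    exact h2
  have h3 : tv i k hik ((n.factorial * p : ℕ) : ℤ) = tv i k hik 1 ^ (n.factorial * p) := by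
    have := tv_mul_zpow i k hik 1 ((n.factorial * p : ℕ) : ℤ)
    rw [one_mul, zpow_natCast] at this
    exact this
  rw [h3, map_pow]
  apply Subtype.ext
  ext r s
  apply sub_eq_zero.mp
  apply hψ
  · have h4 := key ψ₁
    rw [← map_pow] at h4
    have h5 := congrArg (fun u : (Mn n F)ˣ => (u : Mn n F) r s) h4
    simp only [toF_apply] at h5
    rw [map_sub, h5, sub_eq_zero]
    show (1 : Matrix (Fin n) (Fin n) F) r s = ψ₁ ((1 : Matrix (Fin n) (Fin n) S) r s)
    rw [Matrix.one_apply, Matrix.one_apply]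
    split_ifs <;> simp
  · have h4 := key ψ₂
    rw [← map_pow] at h4
    have h5 := congrArg (fun u : (Mn n F)ˣ => (u : Mn n F) r s) h4
    simp only [toF_apply] at h5
    rw [map_sub, h5, sub_eq_zero]
    show (1 : Matrix (Fin n) (Fin n) F) r s = ψ₂ ((1 : Matrix (Fin n) (Fin n) S) r s)
    rw [Matrix.one_apply, Matrix.one_apply]
    split_ifs <;> simp

/-- Reduction. -/
def red (n M : ℕ) : SLn n ℤ →* SLn n (ZMod M) :=
  SpecialLinearGroup.map (n := Fin n) (Int.castRingHom (ZMod M))

theorem cgr_red {n M : ℕ} (A : SLn n ℤ) : Cgr (M : ℤ) A ↔ red n M A = 1 := by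
  have := cgr_iff (M := (M : ℤ)) (A := A)
  rw [this, MonoidHom.mem_ker]
  rfl

/-- Congruence subgroups. -/
def Gam (n M : ℕ) : Subgroup (SLn n ℤ) := (red n M).ker

instance (n M : ℕ) : (Gam n M).Normal := by unfold Gam; infer_instance

theorem mem_Gam {n M : ℕ} (A : SLn n ℤ) : A ∈ Gam n M ↔ Cgr (M : ℤ) A := by
  rw [cgr_red]; rfl

/-- (2) -/
theorem ker_of {n : ℕ} (hn : 3 ≤ n) {M : ℕ} (hM : M ≠ 0) {G : Type} [Group G] (f : SLn n ℤ →* G)
    (hf : ∀ (i k : Fin n) (h : i ≠ k), f (tv i k h (M : ℤ)) = 1) (A : SLn n ℤ) (hA : A ∈ Gam n M) :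
    f A = 1 := by
  obtain ⟨m, rfl⟩ := Nat.exists_eq_add_of_le' hn
  have h1 := bls (M := (M : ℤ)) (by exact_mod_cast hM) m A ((mem_Gam A).mp hA)
  have h2 : El (Fin (m + 3)) (M : ℤ) ≤ f.ker := El_le (N := f.ker) (fun i j h => hf i j h)
  exact h2 h1

theorem gam_inter {n a b : ℕ} (hab : a.Coprime b) {A : SLn n ℤ} (h1 : A ∈ Gam n a)
    (h2 : A ∈ Gam n b) : A ∈ Gam n (a * b) := by
  rw [mem_Gam] at *
  intro i j
  push_cast
  exact (Int.isCoprime_iff_gcd_eq_one.mpr (by simpa using hab)).mul_dvd (h1 i j) (h2 i j)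

theorem gam_comm {n a b : ℕ} (hab : a.Coprime b) {G : Type} [Group G] (f : SLn n ℤ →* G)
    (hf : ∀ A ∈ Gam n (a * b), f A = 1) {A B : SLn n ℤ} (hA : A ∈ Gam n a) (hB : B ∈ Gam n b) :
    f A * f B = f B * f A := by
  have h1 : A * B * A⁻¹ * B⁻¹ ∈ Gam n (a * b) := by
    apply gam_inter hab
    · have : A * (B * A⁻¹ * B⁻¹) ∈ Gam n a :=
        mul_mem hA ((inferInstance : (Gam n a).Normal).conj_mem _ (inv_mem hA) B)
      simpa [mul_assoc] using this
    · exact mul_mem ((inferInstance : (Gam n b).Normal).conj_mem _ hB A) (inv_mem hB)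
  have h2 := hf _ h1
  simp only [map_mul, map_inv] at h2
  have h3 : f A * f B * (f A)⁻¹ = f B := by
    rw [← mul_inv_eq_one]; exact h2
  calc f A * f B = f A * f B * (f A)⁻¹ * f A := by group
    _ = f B * f A := by rw [h3]

theorem gam_sup {n : ℕ} (hn : 3 ≤ n) {a b : ℕ} (hab : a.Coprime b) (A : SLn n ℤ) :
    ∃ U ∈ Gam n a, ∃ V ∈ Gam n b, A = U * V := by
  have h1 : A ∈ Gam n a ⊔ Gam n b := by
    obtain ⟨m, rfl⟩ := Nat.exists_eq_add_of_le' hn
    have h2 := bls (M := 1) one_ne_zero m A (fun i j => one_dvd _)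
    have hco : IsCoprime (a : ℤ) (b : ℤ) := Int.isCoprime_iff_gcd_eq_one.mpr (by simpa using hab)
    obtain ⟨u, v, huv⟩ := hco
    have hmem : ∀ (c : ℕ) (t : ℤ) (i j : Fin (m + 3)) (h : i ≠ j), (c : ℤ) ∣ t →
        tv i j h t ∈ Gam (m + 3) c := by
      intro c t i j h hd
      rw [mem_Gam]
      exact El_cgr (tv_El i j h hd)
    have h3 : El (Fin (m + 3)) 1 ≤ Gam (m + 3) a ⊔ Gam (m + 3) b := by
      apply El_le
      intro i j h
      rw [← huv, tv_add]
      exact Subgroup.mul_mem_sup (hmem a _ i j h (dvd_mul_left _ _))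
        (hmem b _ i j h (dvd_mul_left _ _))
    exact h3 h2
  rw [Subgroup.mem_sup_of_normal_left] at h1
  obtain ⟨U, hU, V, hV, h⟩ := h1
  exact ⟨U, hU, V, hV, h.symm⟩

/-- The image of `Γ(a)` has at most as many elements as `SL (n, ℤ / b)`. -/
theorem card_img {n a b : ℕ} (hab : a.Coprime b) (hb : b ≠ 0) {G : Type} [Group G]
    (f : SLn n ℤ →* G) (hf : ∀ A ∈ Gam n (a * b), f A = 1) :
    Finite ((Gam n a).map f) ∧ Nat.card ((Gam n a).map f) ≤ Nat.card (SLn n (ZMod b)) := by
  have : NeZero b := ⟨hb⟩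
  have hfin : Finite (SLn n (ZMod b)) := inferInstance
  have hch : ∀ x : (Gam n a).map f, ∃ A : SLn n ℤ, A ∈ Gam n a ∧ f A = x.1 := by
    rintro ⟨x, A, hA, rfl⟩
    exact ⟨A, hA, rfl⟩
  choose c hc1 hc2 using hch
  have hinj : Function.Injective (fun x => red n b (c x)) := by
    intro x y hxy
    simp only at hxy
    have h1 : (c x) * (c y)⁻¹ ∈ Gam n (a * b) := by
      apply gam_inter hab (mul_mem (hc1 x) (inv_mem (hc1 y)))
      rw [Gam, MonoidHom.mem_ker, map_mul, map_inv, hxy, mul_inv_cancel]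
    have h2 := hf _ h1
    rw [map_mul, map_inv, mul_inv_eq_one] at h2
    apply Subtype.ext
    rw [← hc2 x, ← hc2 y, h2]
  exact ⟨Finite.of_injective _ hinj, Nat.card_le_card_of_injective _ hinj⟩

end Pool.Agent.T2h61.PR.FF

namespace Pool.Agent.T2h61.PR

open Matrix Pool.Agent.Helper460_CSP FF

theorem ff (hUNI : S_UNI) : S_FF := by
  intro n hn
  classical
  refine ⟨max n.factorial (Nat.card (SLn n (ZMod n.factorial))), ?_⟩
  intro p hp hB S _ _ _ F _ ψ₁ ψ₂ hψ f hf s
  have hFact : Fact p.Prime := ⟨hp⟩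
  have hnf : n.factorial < p := lt_of_le_of_lt (le_max_left _ _) hB
  have hcf : Nat.card (SLn n (ZMod n.factorial)) < p := lt_of_le_of_lt (le_max_right _ _) hB
  have hn0 : n.factorial ≠ 0 := Nat.factorial_ne_zero n
  have hnp : n ≤ p := le_trans (Nat.self_le_factorial n) hnf.le
  have hco : (n.factorial).Coprime p := by
    rw [Nat.coprime_comm, hp.coprime_iff_not_dvd]
    exact Nat.not_dvd_of_pos_of_lt (Nat.pos_of_ne_zero hn0) hnf
  have hK : ∀ A ∈ Gam n (n.factorial * p), f A = 1 := by
    intro A hA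
    exact ker_of hn (Nat.mul_ne_zero hn0 hp.ne_zero) f
      (fun i k h => kill hUNI hn hp hnp ψ₁ ψ₂ hψ f i k h) A hA
  have hK' : ∀ A ∈ Gam n (p * n.factorial), f A = 1 := by
    rw [mul_comm p]; exact hK
  obtain ⟨hfin1, hcard1⟩ := card_img hco hp.ne_zero f hK
  obtain ⟨hfin2, hcard2⟩ := card_img hco.symm hn0 f hK'
  set H1 := (Gam n n.factorial).map f with hH1
  set H2 := (Gam n p).map f with hH2
  have hc2 : Nat.card H2 < p := lt_of_le_of_lt hcard2 hcf
  have hc2pos : 0 < Nat.card H2 := Nat.card_pos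
  -- transvections are in `H1`
  have htv : ∀ (i j : Fin n) (h : i ≠ j) (s : S),
      (⟨Matrix.transvection i j s, Matrix.det_transvection_of_ne i j h s⟩ : SLn n S) ∈ H1 := by
    intro i j h s
    obtain ⟨y, hy⟩ := hf i j h s
    obtain ⟨U, hU, V, hV, hUV⟩ := gam_sup hn hco y
    set t : SLn n S := ⟨Matrix.transvection i j s, Matrix.det_transvection_of_ne i j h s⟩ with ht
    have h1 : t = f U * f V := by rw [← hy, hUV, map_mul]
    have hcomm : Commute (f U) (f V) := gam_comm hco f hK hU hV
    have hVc : (f V) ^ (Nat.card H2) = 1 := by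
      have : (⟨f V, ⟨V, hV, rfl⟩⟩ : H2) ^ (Nat.card H2) = 1 := pow_card_eq_one'
      exact congrArg Subtype.val this
    have h2 : t ^ (Nat.card H2) = f U ^ (Nat.card H2) := by
      rw [h1, hcomm.mul_pow, hVc, mul_one]
    have hmem : t ^ (Nat.card H2) ∈ H1 := by
      have hm1 : f U ∈ H1 := ⟨U, hU, rfl⟩
      rw [h2]; exact pow_mem hm1 _
    have htp : t ^ p = 1 := by
      have hpow : ∀ k : ℕ, t ^ k =
          (⟨Matrix.transvection i j ((k : S) * s), Matrix.det_transvection_of_ne i j h _⟩ :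
            SLn n S) := by
        intro k
        induction k with
        | zero =>
          apply Subtype.ext
          simp [Matrix.transvection]
        | succ k ih =>
          rw [pow_succ, ih]
          apply Subtype.ext
          show Matrix.transvection i j ((k : S) * s) * Matrix.transvection i j s = _
          rw [Matrix.transvection_mul_transvection_same i j h]
          congr 1
          push_cast; ring
      rw [hpow p, CharP.cast_eq_zero, zero_mul]
      apply Subtype.ext
      simp [Matrix.transvection]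
    have hcop : (Nat.card H2).Coprime p := by
      rw [Nat.coprime_comm, hp.coprime_iff_not_dvd]
      exact Nat.not_dvd_of_pos_of_lt hc2pos hc2
    have hz : IsCoprime ((Nat.card H2 : ℕ) : ℤ) (p : ℤ) := Nat.isCoprime_iff_coprime.mpr hcop
    obtain ⟨u, v, huv⟩ := hz
    have h3 : t = (t ^ (Nat.card H2)) ^ u := by
      have : t ^ (1 : ℤ) = t ^ (u * (Nat.card H2 : ℤ) + v * (p : ℤ)) := by rw [huv]
      rw [_root_.zpow_one, _root_.zpow_add, mul_comm v, _root_.zpow_mul t (p : ℤ),
        _root_.zpow_natCast t p, htp, _root_.one_zpow, mul_one, mul_comm u, _root_.zpow_mul,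
        _root_.zpow_natCast] at this
      exact this
    rw [h3]
    exact zpow_mem hmem u
  -- the prime field
  have hnt : Nontrivial S := CharP.nontrivial_of_char_ne_one hp.one_lt.ne'
  let ι : ZMod p →+* S := ZMod.castHom (dvd_refl p) S
  have hι : Function.Injective ι := ι.injective
  let ι' : SLn n (ZMod p) →* SLn n S := SpecialLinearGroup.map (n := Fin n) ι
  have hι' : Function.Injective ι' := by
    intro A B hAB
    apply Subtype.ext
    ext i j
    apply hι
    exact congrArg (fun M : SLn n S => M.1 i j) hAB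
  have hfin0 : Fin n := ⟨0, by omega⟩
  have hnn : Nontrivial (Fin n) := Fin.nontrivial_iff_two_le.mpr (by omega)
  have hle : ι'.range ≤ H1 := by
    rintro _ ⟨A, rfl⟩
    have := gen_field A (H1.comap ι') (by
      intro i j h c
      rw [Subgroup.mem_comap]
      have h4 : ι' (Matrix.SpecialLinearGroup.transvection h c) =
          ⟨Matrix.transvection i j (ι c), Matrix.det_transvection_of_ne i j h _⟩ := by
        apply Subtype.ext
        show ι.mapMatrix (Matrix.transvection i j c) = _
        ext r s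
        simp only [RingHom.mapMatrix_apply, Matrix.map_apply, Matrix.transvection,
          Matrix.add_apply, Matrix.one_apply, Matrix.single_apply, map_add]
        split_ifs <;> simp
      rw [h4]
      exact htv i j h _)
    exact this
  have hcard3 : Nat.card ι'.range = Nat.card (SLn n (ZMod p)) :=
    (Nat.card_congr (Equiv.ofInjective ι' hι')).symm
  have heq : ι'.range = H1 := by
    apply Subgroup.eq_of_le_of_card_ge hle
    rw [hcard3]; exact hcard1
  let i0 : Fin n := ⟨0, by omega⟩
  let i1 : Fin n := ⟨1, by omega⟩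
  have h01 : i0 ≠ i1 := by
    intro h
    have := congrArg Fin.val h
    simp [i0, i1] at this
  have hmem := htv i0 i1 h01 s
  rw [← heq] at hmem
  obtain ⟨A, hA⟩ := hmem
  have h5 := congrArg (fun M : SLn n S => M.1 i0 i1) hA
  have h6 : ι (A.1 i0 i1) = s := by
    have e : (ι' A).1 i0 i1 = ι (A.1 i0 i1) := rfl
    rw [← e]
    rw [hA]
    show Matrix.transvection i0 i1 s i0 i1 = s
    simp [Matrix.transvection, h01]
  refine ⟨(A.1 i0 i1).val, ?_⟩
  rw [← h6]
  conv_lhs => rw [← ZMod.natCast_zmod_val (A.1 i0 i1)]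
  rw [map_natCast]

end Pool.Agent.T2h61.PR
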