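import Pool.Agent.T2h61.PR.Stm
import Pool.Agent.Helper58.K2.JSK

/-!
# T61 (profinite rigidity), task FIN: Steinberg groups of finite rings are finite (helper59)
-/

set_option autoImplicit false
set_option linter.all false

namespace Pool.Agent.T2h61.PR.Fin

open Matrix Pool.Agent.Helper58.K2 commutatorElement

lemma grp {G : Type} [Group G] (A s B t : G) (hs : ∀ v, s * v = v * s) (ht : ∀ v, t * v = v * t) :
    A * s * (B * t) * (A * s)⁻¹ * (B * t)⁻¹ = A * B * A⁻¹ * B⁻¹ := by
  have c1 : A * s * (B * t) = A * B * t * s := by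
    rw [mul_assoc A s, hs, ← mul_assoc, ← mul_assoc]
  rw [c1]
  have : A * B * t * s * (A * s)⁻¹ * (B * t)⁻¹ = A * B * (t * (A⁻¹ * t⁻¹)) * B⁻¹ := by group
  rw [this, ht (A⁻¹ * t⁻¹)]
  group

/-- a perfect group whose centre contains the kernel of a map to a finite group is finite -/
theorem schur {G H : Type} [Group G] [Group H] [Finite H] (f : G →* H)
    (hf : ∀ g, f g = 1 → ∀ h, g * h = h * g) (hp : commutator G = ⊤) : Finite G := by
  -- the commutator set is finite
  have hfin : Finite (commutatorSet G) := by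
    classical
    have hc : ∀ a b a' b' : G, f a = f a' → f b = f b' → ⁅a, b⁆ = ⁅a', b'⁆ := by
      intro a b a' b' ha hb
      have h1 := hf (a'⁻¹ * a) (by rw [map_mul, map_inv, ha, inv_mul_cancel])
      have h2 := hf (b'⁻¹ * b) (by rw [map_mul, map_inv, hb, inv_mul_cancel])
      have ea : a = a' * (a'⁻¹ * a) := by simp
      have eb : b = b' * (b'⁻¹ * b) := by simp
      rw [ea, eb]
      exact grp _ _ _ _ h1 h2
    let F : commutatorSet G → H × H := fun g => (f g.2.choose, f g.2.choose_spec.choose)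
    have hF : Function.Injective F := by
      intro g g' hgg
      have e1 := congrArg Prod.fst hgg
      have e2 := congrArg Prod.snd hgg
      apply Subtype.ext
      rw [← g.2.choose_spec.choose_spec, ← g'.2.choose_spec.choose_spec]
      exact hc _ _ _ _ e1 e2
    exact Finite.of_injective F hF
  have h3 : Finite (commutator G) := inferInstance
  rw [hp] at h3
  exact Finite.of_injective (fun g : G => (⟨g, Subgroup.mem_top g⟩ : (⊤ : Subgroup G)))
    (fun a b h => congrArg Subtype.val h)

lemma third {m : ℕ} (hm : 3 ≤ m) (i j : Fin m) : ∃ k, k ≠ i ∧ k ≠ j := by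
  have : ({i, j} : Finset (Fin m)).card < (Finset.univ : Finset (Fin m)).card := by
    rw [Finset.card_univ, Fintype.card_fin]
    exact lt_of_le_of_lt (Finset.card_le_two) (by omega)
  obtain ⟨k, _, hk⟩ := Finset.exists_mem_notMem_of_card_lt_card this
  simp only [Finset.mem_insert, Finset.mem_singleton, not_or] at hk
  exact ⟨k, hk.1, hk.2⟩

theorem perfect {m : ℕ} (hm : 3 ≤ m) (A : Type) [Ring A] : commutator (St (Fin m) A) = ⊤ := by
  rw [← top_le_iff, ← closure_x, Subgroup.closure_le]
  rintro _ ⟨i, j, a, rfl⟩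
  by_cases hij : i = j
  · subst hij
    rw [x_sr.diag]
    exact Subgroup.one_mem _
  · obtain ⟨k, hki, hkj⟩ := third hm i j
    have := x_sr.comm (ι := Fin m) (A := A) i k j hki.symm hkj hij a 1
    rw [mul_one] at this
    rw [← this]
    exact Subgroup.commutator_mem_commutator (Subgroup.mem_top _) (Subgroup.mem_top _)

end Pool.Agent.T2h61.PR.Fin

namespace Pool.Agent.T2h61.PR

open Matrix Pool.Agent.Helper58.K2 commutatorElement

theorem fin : S_FIN := by
  intro m hm A _ _
  have h3 : 3 ≤ Fintype.card (Fin m) := by rw [Fintype.card_fin]; exact hm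
  have hart : IsArtinianRing A := inferInstance
  obtain ⟨N, hN⟩ := IsSemiprimaryRing.isNilpotent (R := A)
  have hker : ∀ a : A, Ideal.Quotient.mk (Ring.jacobson A) a = 0 → IsUnit (1 + a) := by
    intro a ha
    rw [Ideal.Quotient.eq_zero_iff_mem] at ha
    have h1 : a ^ N ∈ Ring.jacobson A ^ N := Ideal.pow_mem_pow ha N
    rw [hN] at h1
    exact IsNilpotent.isUnit_one_add ⟨N, h1⟩
  have hK : ∀ (j : Fin m) (κ : St (Fin m) A), mat κ = 1 → κ ∈ N0 (x : Fin m → Fin m → A → St (Fin m) A) j :=
    fun j => K_lift h3 (Ideal.Quotient.mk (Ring.jacobson A)) Ideal.Quotient.mk_surjective hker j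
      (fun κ hκ => ss_K h3 ss_RU ss_DF j κ hκ)
  have hCE : ∀ κ : St (Fin m) A, mat κ = 1 → ∀ h, κ * h = h * κ := by
    intro κ hκ
    exact CE_of_gen κ (fun i j a => comm_col h3 j κ (hK j κ hκ) hκ i a)
  exact Fin.schur (mat : St (Fin m) A →* _) hCE (Fin.perfect hm A)

end Pool.Agent.T2h61.PR
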