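import Pool.Agent.T2h61.PR.Stm

/-!
# The image is infinite (helper4), task INF
-/

set_option autoImplicit false
set_option linter.all false

namespace Pool.Agent.T2h61.PR

open Matrix

namespace Inf

theorem toU_inj (n q : ℕ) [Fact q.Prime] : Function.Injective (toU n q) := by
  intro x y h
  apply Subtype.ext
  ext i j
  have h1 : ((toU n q x : (Mn n ℚ_[q])ˣ) : Mn n ℚ_[q]) i j =
      ((toU n q y : (Mn n ℚ_[q])ˣ) : Mn n ℚ_[q]) i j := by rw [h]
  have h2 : ((x.1 i j : ℤ_[q]) : ℚ_[q]) = ((y.1 i j : ℤ_[q]) : ℚ_[q]) := h1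
  exact Subtype.ext h2

end Inf

theorem inf : S_INF := by
  intro n q hq hn Λ _ ρ hρ hfin
  have hF : Finite ((toU n q).comp ρ).range := hfin.to_subtype
  have key : ∀ s : ℕ, q ^ s ≤ Nat.card ((toU n q).comp ρ).range := by
    intro s
    have hne : (⟨0, by omega⟩ : Fin n) ≠ ⟨1, by omega⟩ := by
      intro h
      simpa using congrArg Fin.val h
    have hs := fun t : ZMod (q ^ s) => hρ s ⟨transvection (⟨0, by omega⟩ : Fin n) ⟨1, by omega⟩ t,
      det_transvection_of_ne _ _ hne _⟩
    choose l hl using hs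
    have hinj : Function.Injective (fun t : ZMod (q ^ s) =>
        (⟨((toU n q).comp ρ) (l t), ⟨l t, rfl⟩⟩ : ((toU n q).comp ρ).range)) := by
      intro t t' h
      have h1 : toU n q (ρ (l t)) = toU n q (ρ (l t')) := congrArg Subtype.val h
      have h2 := Inf.toU_inj n q h1
      have h3 := hl t
      have h4 := hl t'
      simp only [MonoidHom.comp_apply] at h3 h4
      rw [h2, h4] at h3
      have h5 := congrFun (congrFun (congrArg Subtype.val h3) ⟨0, by omega⟩) ⟨1, by omega⟩
      simpa [transvection, hne] using h5.symm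
    have h := Nat.card_le_card_of_injective _ hinj
    rwa [Nat.card_zmod] at h
  have h := key (Nat.card ((toU n q).comp ρ).range)
  have h2 : Nat.card ((toU n q).comp ρ).range < q ^ (Nat.card ((toU n q).comp ρ).range) :=
    Nat.lt_pow_self hq.out.one_lt
  omega

end Pool.Agent.T2h61.PR
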