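import Pool.Agent.T2h61.PR.Stm

/-!
# T61 (profinite rigidity), task INTEG: integrality (helper59)
-/

set_option autoImplicit false
set_option linter.all false

namespace Pool.Agent.T2h61.PR

open Matrix

lemma toU_apply (n q : ℕ) [Fact q.Prime] (y : SLn n ℤ_[q]) (k l : Fin n) :
    (toU n q y : Mn n ℚ_[q]) k l = (((y : Matrix (Fin n) (Fin n) ℤ_[q]) k l : ℤ_[q]) : ℚ_[q]) := rfl

lemma norm_toU_sub_one_le (n q : ℕ) [Fact q.Prime] (y : SLn n ℤ_[q]) (k l : Fin n) :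
    ‖((toU n q y : Mn n ℚ_[q]) - 1) k l‖ ≤ 1 := by
  have : ((toU n q y : Mn n ℚ_[q]) - 1) k l =
      ((((y : Matrix (Fin n) (Fin n) ℤ_[q]) k l - (1 : Matrix (Fin n) (Fin n) ℤ_[q]) k l : ℤ_[q])) : ℚ_[q]) := by
    rw [Matrix.sub_apply, toU_apply]
    by_cases h : k = l
    · subst h; simp
    · simp [h]
  rw [this]
  exact PadicInt.norm_le_one _

theorem integ : S_INTEG := by
  intro n q _ R _ x g φ i j ε hε h a
  set C : ℝ := ∑ k, ∑ l, ‖((g⁻¹ : (Mn n ℚ_[q])ˣ) : Mn n ℚ_[q]) i k‖ * ‖(g : Mn n ℚ_[q]) l j‖ with hC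
  have bound : ∀ b, ‖ε * φ b‖ ≤ C := by
    intro b
    have e1 : Matrix.single i j (ε * φ b) = ((g⁻¹ : (Mn n ℚ_[q])ˣ) : Mn n ℚ_[q]) *
        ((toU n q (x b) : Mn n ℚ_[q]) - 1) * (g : Mn n ℚ_[q]) := by
      rw [h b]
      rw [mul_add, add_mul, mul_one, mul_sub, mul_add, sub_mul, add_mul]
      simp [mul_assoc]
    have e2 : ε * φ b = ∑ l, (∑ k, ((g⁻¹ : (Mn n ℚ_[q])ˣ) : Mn n ℚ_[q]) i k *
        ((toU n q (x b) : Mn n ℚ_[q]) - 1) k l) * (g : Mn n ℚ_[q]) l j := by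
      have := congrFun (congrFun e1 i) j
      rw [Matrix.single_apply_same, Matrix.mul_apply] at this
      rw [this]
      rfl
    rw [e2, hC, Finset.sum_comm]
    refine (norm_sum_le _ _).trans (Finset.sum_le_sum fun l _ => ?_)
    rw [norm_mul, ← Finset.sum_mul]
    refine mul_le_mul_of_nonneg_right ?_ (norm_nonneg _)
    refine (norm_sum_le _ _).trans (Finset.sum_le_sum fun k _ => ?_)
    rw [norm_mul]
    exact mul_le_of_le_one_right (norm_nonneg _) (norm_toU_sub_one_le n q _ _ _)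
  by_contra hlt
  rw [not_le] at hlt
  have hε' : 0 < ‖ε‖ := norm_pos_iff.2 hε
  obtain ⟨k, hk⟩ := pow_unbounded_of_one_lt (C / ‖ε‖) hlt
  have := bound (a ^ k)
  rw [norm_mul, map_pow, norm_pow] at this
  rw [div_lt_iff₀ hε'] at hk
  linarith

end Pool.Agent.T2h61.PR
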