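import Pool.Agent.T2h61.PR.Stm

/-!
# T61 (profinite rigidity), task IRR: irreducibility from density (helper59)
-/

set_option autoImplicit false
set_option linter.all false

namespace Pool.Agent.T2h61.PR.IRRx

open Matrix

section alg

variable {ι K : Type} [Fintype ι] [DecidableEq ι] [Field K] [CharZero K]

/-- the algebraic part: a subspace closed under `w ↦ [E_ij, w]` and `w ↦ E_ij w E_ij` -/
theorem alg (W : Submodule K (Matrix ι ι K)) (hne : Nonempty ι)
    (h1 : ∀ i j, i ≠ j → ∀ w ∈ W, Matrix.single i j 1 * w - w * Matrix.single i j 1 ∈ W)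
    (h2 : ∀ i j, i ≠ j → ∀ w ∈ W, Matrix.single i j 1 * w * Matrix.single i j 1 ∈ W) :
    (∀ w ∈ W, ∃ c : K, w = c • (1 : Matrix ι ι K)) ∨ (∀ w : Matrix ι ι K, w.trace = 0 → w ∈ W) := by
  have h3 : ∀ i j, i ≠ j → ∀ w ∈ W, w j i ≠ 0 → Matrix.single i j (1 : K) ∈ W := by
    intro i j hij w hw hwji
    have := h2 i j hij w hw
    rw [Matrix.single_mul_mul_single, one_mul, mul_one] at this
    have h4 := W.smul_mem (w j i)⁻¹ this
    rw [Matrix.smul_single, smul_eq_mul, inv_mul_cancel₀ hwji] at h4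
    exact h4
  by_cases hS : ∃ i j, i ≠ j ∧ Matrix.single i j (1 : K) ∈ W
  · right
    obtain ⟨i, j, hij, hE⟩ := hS
    have hsw : ∀ i j : ι, i ≠ j → Matrix.single i j (1 : K) ∈ W → Matrix.single j i (1 : K) ∈ W := by
      intro i j hij hE
      have e1 := h1 j i hij.symm _ hE
      rw [Matrix.single_mul_single_same, Matrix.single_mul_single_same, one_mul] at e1
      have e2 := h1 j i hij.symm _ e1
      rw [mul_sub, sub_mul, Matrix.single_mul_single_same, Matrix.single_mul_single_same,
        Matrix.single_mul_single_of_ne _ _ _ _ hij, Matrix.single_mul_single_of_ne _ _ _ _ hij,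
        zero_sub, sub_zero, one_mul] at e2
      have e3 := W.smul_mem (-(1 / 2) : K) e2
      have e4 : (-(1 / 2) : K) • (-Matrix.single j i (1 : K) - Matrix.single j i 1) = Matrix.single j i 1 := by
        rw [← neg_add', ← Matrix.single_add, Matrix.single_neg, Matrix.smul_single]
        congr 1
        rw [smul_eq_mul]; ring
      rwa [e4] at e3
    have hmv : ∀ i j k : ι, i ≠ j → k ≠ j → Matrix.single i j (1 : K) ∈ W → Matrix.single k j (1 : K) ∈ W := by
      intro i j k hij hkj hE
      by_cases hki : k = i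
      · subst hki; exact hE
      have e1 := h1 k i hki _ hE
      rw [Matrix.single_mul_single_same, Matrix.single_mul_single_of_ne _ _ _ _ (Ne.symm hkj), sub_zero, one_mul] at e1
      exact e1
    have hall : ∀ k l : ι, k ≠ l → Matrix.single k l (1 : K) ∈ W := by
      intro k l hkl
      by_cases hlj : l = j
      · subst hlj; exact hmv i l k hij hkl hE
      · exact hmv j l k (Ne.symm hlj) hkl (hsw l j hlj (hmv i j l hij hlj hE))
    have hdiag : ∀ k l : ι, Matrix.single k k (1 : K) - Matrix.single l l 1 ∈ W := by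
      intro k l
      by_cases hkl : k = l
      · subst hkl; rw [sub_self]; exact W.zero_mem
      · have e1 := h1 k l hkl _ (hall l k (Ne.symm hkl))
        rw [Matrix.single_mul_single_same, Matrix.single_mul_single_same, one_mul] at e1
        exact e1
    intro w hw
    have e1 : w = ∑ a, ∑ b, (Matrix.single a b (w a b) - if a = b then w a a • Matrix.single i i (1 : K) else 0) := by
      simp_rw [Finset.sum_sub_distrib]
      rw [← Matrix.matrix_eq_sum_single]
      simp only [Finset.sum_ite_eq, Finset.mem_univ, if_true]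
      rw [← Finset.sum_smul]
      have : ∑ a, w a a = 0 := hw
      rw [this, zero_smul, sub_zero]
    rw [e1]
    refine W.sum_mem fun a _ => W.sum_mem fun b _ => ?_
    by_cases hab : a = b
    · subst hab
      rw [if_pos rfl]
      have := W.smul_mem (w a a) (hdiag a i)
      rw [smul_sub, Matrix.smul_single, smul_eq_mul, mul_one] at this
      exact this
    · rw [if_neg hab, sub_zero]
      have := W.smul_mem (w a b) (hall a b hab)
      rw [Matrix.smul_single, smul_eq_mul, mul_one] at this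
      exact this
  · left
    have hoff : ∀ w ∈ W, ∀ i j, i ≠ j → w i j = 0 := by
      intro w hw i j hij
      by_contra hne
      exact hS ⟨j, i, hij.symm, h3 j i hij.symm w hw hne⟩
    intro w hw
    obtain ⟨i0⟩ := hne
    refine ⟨w i0 i0, ?_⟩
    ext a b
    by_cases hab : a = b
    · subst hab
      rw [Matrix.smul_apply, Matrix.one_apply_eq, smul_eq_mul, mul_one]
      by_cases ha : a = i0
      · rw [ha]
      · have e1 := hoff _ (h1 a i0 ha w hw) a i0 ha
        rw [Matrix.sub_apply, Matrix.single_mul_apply_same, Matrix.mul_single_apply_same, one_mul, mul_one,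
          sub_eq_zero] at e1
        exact e1.symm
    · rw [hoff w hw a b hab, Matrix.smul_apply, Matrix.one_apply_ne hab, smul_zero]

end alg

lemma toU_apply' (n q : ℕ) [Fact q.Prime] (y : SLn n ℤ_[q]) (k l : Fin n) :
    (toU n q y : Mn n ℚ_[q]) k l = (((y : Matrix (Fin n) (Fin n) ℤ_[q]) k l : ℤ_[q]) : ℚ_[q]) := rfl

/-- congruent matrices are close -/
lemma close {n q : ℕ} [Fact q.Prime] {y z : SLn n ℤ_[q]} {s : ℕ}
    (h : Matrix.SpecialLinearGroup.map (n := Fin n) (PadicInt.toZModPow (p := q) s) y =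
      Matrix.SpecialLinearGroup.map (n := Fin n) (PadicInt.toZModPow (p := q) s) z) (k l : Fin n) :
    ‖(toU n q y : Mn n ℚ_[q]) k l - (toU n q z : Mn n ℚ_[q]) k l‖ ≤ (q : ℝ) ^ (-(s : ℤ)) := by
  rw [toU_apply', toU_apply', ← PadicInt.coe_sub, PadicInt.padic_norm_e_of_padicInt,
    PadicInt.norm_le_pow_iff_mem_span_pow, ← PadicInt.ker_toZModPow, RingHom.mem_ker, map_sub, sub_eq_zero]
  have := congrFun (congrFun (congrArg (fun g : SLn n (ZMod (q ^ s)) =>
    (g : Matrix (Fin n) (Fin n) (ZMod (q ^ s)))) h) k) l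
  simpa using this

lemma tend {n q : ℕ} [Fact q.Prime] (y : ℕ → SLn n ℤ_[q]) (z : SLn n ℤ_[q])
    (h : ∀ s, Matrix.SpecialLinearGroup.map (n := Fin n) (PadicInt.toZModPow (p := q) s) (y s) =
      Matrix.SpecialLinearGroup.map (n := Fin n) (PadicInt.toZModPow (p := q) s) z) :
    Filter.Tendsto (fun s => (toU n q (y s) : Mn n ℚ_[q])) Filter.atTop (nhds (toU n q z : Mn n ℚ_[q])) := by
  refine tendsto_pi_nhds.2 fun k => tendsto_pi_nhds.2 fun l => ?_
  rw [tendsto_iff_norm_sub_tendsto_zero]
  refine squeeze_zero (fun _ => norm_nonneg _) (fun s => close (h s) k l) ?_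
  have hq : 1 < (q : ℝ) := by exact_mod_cast (Fact.out : q.Prime).one_lt
  simp_rw [_root_.zpow_neg, _root_.zpow_natCast]
  simp_rw [← inv_pow]
  exact tendsto_pow_atTop_nhds_zero_of_lt_one (by positivity) (inv_lt_one_of_one_lt₀ hq)

lemma inv_eq {n q : ℕ} [Fact q.Prime] (z : SLn n ℤ_[q]) :
    (((toU n q z)⁻¹ : (Mn n ℚ_[q])ˣ) : Mn n ℚ_[q]) = (toU n q z⁻¹ : Mn n ℚ_[q]) := by
  rw [map_inv]

theorem dense {n q : ℕ} [Fact q.Prime] {Λ : Type} [Group Λ] (ρ : Λ →* SLn n ℤ_[q]) (hρ : Dn ρ)
    (W : Submodule ℚ_[q] (Mn n ℚ_[q]))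
    (hW : ∀ t, ∀ w ∈ W, (toU n q (ρ t) : Mn n ℚ_[q]) * w *
      (((toU n q (ρ t))⁻¹ : (Mn n ℚ_[q])ˣ) : Mn n ℚ_[q]) ∈ W) (z : SLn n ℤ_[q]) :
    ∀ w ∈ W, (toU n q z : Mn n ℚ_[q]) * w * (toU n q z⁻¹ : Mn n ℚ_[q]) ∈ W := by
  intro w hw
  choose l hl using fun s => hρ s (Matrix.SpecialLinearGroup.map (n := Fin n) (PadicInt.toZModPow (p := q) s) z)
  have hc : IsClosed (W : Set (Mn n ℚ_[q])) := W.closed_of_finiteDimensional
  have t1 := tend (fun s => ρ (l s)) z (fun s => hl s)
  have t2 := tend (fun s => (ρ (l s))⁻¹) z⁻¹ (fun s => by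
    rw [map_inv, map_inv]; exact congrArg _ (hl s))
  have t3 : Filter.Tendsto (fun s => (toU n q (ρ (l s)) : Mn n ℚ_[q]) * w * (toU n q (ρ (l s))⁻¹ : Mn n ℚ_[q]))
      Filter.atTop (nhds ((toU n q z : Mn n ℚ_[q]) * w * (toU n q z⁻¹ : Mn n ℚ_[q]))) :=
    (t1.mul tendsto_const_nhds).mul t2
  refine hc.mem_of_tendsto t3 (Filter.Eventually.of_forall fun s => ?_)
  have := hW (l s) w hw
  rw [inv_eq] at this
  exact this

end Pool.Agent.T2h61.PR.IRRx

namespace Pool.Agent.T2h61.PR

open Matrix

theorem irr : S_IRR := by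
  intro n q _ hn Λ _ ρ hρ W hW
  have hd := IRRx.dense ρ hρ W hW
  -- transvections
  have htr : ∀ (i j : Fin n) (hij : i ≠ j) (t : ℤ_[q]), ∀ w ∈ W,
      (1 + Matrix.single i j (t : ℚ_[q])) * w * (1 - Matrix.single i j (t : ℚ_[q])) ∈ W := by
    intro i j hij t w hw
    set z : SLn n ℤ_[q] := ⟨Matrix.transvection i j t, Matrix.det_transvection_of_ne i j hij t⟩ with hz
    set z' : SLn n ℤ_[q] := ⟨Matrix.transvection i j (-t), Matrix.det_transvection_of_ne i j hij (-t)⟩ with hz'
    have e : z * z' = 1 := by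
      apply Subtype.ext
      show Matrix.transvection i j t * Matrix.transvection i j (-t) = 1
      rw [Matrix.transvection_mul_transvection_same i j hij, add_neg_cancel, Matrix.transvection_zero]
    have e' : z⁻¹ = z' := inv_eq_of_mul_eq_one_right e
    have := hd z w hw
    rw [e'] at this
    have c1 : (toU n q z : Mn n ℚ_[q]) = 1 + Matrix.single i j (t : ℚ_[q]) := by
      ext a b
      rw [IRRx.toU_apply', hz]
      show (((1 + Matrix.single i j t : Matrix (Fin n) (Fin n) ℤ_[q]) a b : ℤ_[q]) : ℚ_[q]) = _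
      rw [Matrix.add_apply, Matrix.add_apply, Matrix.one_apply, Matrix.one_apply, Matrix.single_apply,
        Matrix.single_apply]
      split_ifs <;> simp
    have c2 : (toU n q z' : Mn n ℚ_[q]) = 1 - Matrix.single i j (t : ℚ_[q]) := by
      ext a b
      rw [IRRx.toU_apply', hz']
      show (((1 + Matrix.single i j (-t) : Matrix (Fin n) (Fin n) ℤ_[q]) a b : ℤ_[q]) : ℚ_[q]) = _
      rw [Matrix.add_apply, Matrix.sub_apply, Matrix.one_apply, Matrix.one_apply, Matrix.single_apply,
        Matrix.single_apply]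
      split_ifs <;> simp <;> ring
    rw [c1, c2] at this
    exact this
  have hboth : ∀ (i j : Fin n), i ≠ j → ∀ w ∈ W,
      (Matrix.single i j 1 * w - w * Matrix.single i j 1 ∈ W) ∧
      (Matrix.single i j 1 * w * Matrix.single i j 1 ∈ W) := by
    intro i j hij w hw
    have a1 := htr i j hij 1 w hw
    have a2 := htr i j hij (-1) w hw
    rw [PadicInt.coe_one] at a1
    rw [PadicInt.coe_neg, PadicInt.coe_one, ← Matrix.single_neg] at a2
    set E : Mn n ℚ_[q] := Matrix.single i j 1
    have b1 : (1 + E) * w * (1 - E) = w + (E * w - w * E) - E * w * E := by noncomm_ring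
    have b2 : (1 + -E) * w * (1 - -E) = w - (E * w - w * E) - E * w * E := by noncomm_ring
    rw [b1] at a1
    rw [b2] at a2
    have c1 : (1 / 2 : ℚ_[q]) • ((w + (E * w - w * E) - E * w * E) - (w - (E * w - w * E) - E * w * E)) =
        E * w - w * E := by
      have : (w + (E * w - w * E) - E * w * E) - (w - (E * w - w * E) - E * w * E) =
        (2 : ℚ_[q]) • (E * w - w * E) := by rw [two_smul]; abel
      rw [this, smul_smul]; norm_num
    have c2 : w - (1 / 2 : ℚ_[q]) • ((w + (E * w - w * E) - E * w * E) + (w - (E * w - w * E) - E * w * E)) =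
        E * w * E := by
      have : (w + (E * w - w * E) - E * w * E) + (w - (E * w - w * E) - E * w * E) =
        (2 : ℚ_[q]) • (w - E * w * E) := by rw [two_smul]; abel
      rw [this, smul_smul]; norm_num
    refine ⟨?_, ?_⟩
    · rw [← c1]; exact W.smul_mem _ (W.sub_mem a1 a2)
    · rw [← c2]; exact W.sub_mem hw (W.smul_mem _ (W.add_mem a1 a2))
  exact IRRx.alg W ⟨⟨0, by omega⟩⟩ (fun i j hij w hw => (hboth i j hij w hw).1)
    (fun i j hij w hw => (hboth i j hij w hw).2)

end Pool.Agent.T2h61.PR
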