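import Mathlib
import Pool.Agent.Helper58.K2.Defs

/-!
# Profinite rigidity of `SL (n, ℤ)` among quotients of Steinberg groups: statements
-/

set_option autoImplicit false

namespace Pool.Agent.T2h61.PR

open Matrix Pool.Agent.Helper58.K2

/-- `SL (n, A)`. -/
abbrev SLn (n : ℕ) (A : Type) [CommRing A] : Type := Matrix.SpecialLinearGroup (Fin n) A

/-- `n × n` matrices. -/
abbrev Mn (n : ℕ) (K : Type) : Type := Matrix (Fin n) (Fin n) K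

/-- The same finite quotients. -/
def SameFQ (Λ Γ : Type) [Group Λ] [Group Γ] : Prop :=
  ∀ (Q : Type) [Group Q] [Finite Q],
    (∃ f : Λ →* Q, Function.Surjective f) ↔ (∃ f : Γ →* Q, Function.Surjective f)

/-- `ρ` maps onto `SL (n, ℤ / q ^ s)` for all `s`. -/
def Dn {n q : ℕ} [Fact q.Prime] {Λ : Type} [Group Λ] (ρ : Λ →* SLn n ℤ_[q]) : Prop :=
  ∀ s : ℕ, Function.Surjective
    ((Matrix.SpecialLinearGroup.map (n := Fin n) (PadicInt.toZModPow (p := q) s)).comp ρ)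

/-- `SL (n, ℤ_q) → GL (n, ℚ_q)`. -/
noncomputable def toU (n q : ℕ) [Fact q.Prime] : SLn n ℤ_[q] →* (Mn n ℚ_[q])ˣ :=
  (Matrix.GeneralLinearGroup.map (n := Fin n) (PadicInt.Coe.ringHom (p := q))).comp
    (Matrix.SpecialLinearGroup.toGL (n := Fin n) (R := ℤ_[q]))

/-- Irreducibility of the conjugation action on `sl_n`. -/
def Irr {n : ℕ} {K T : Type} [Field K] (X : T → (Mn n K)ˣ) : Prop :=
  ∀ W : Submodule K (Mn n K),
    (∀ t, ∀ w ∈ W, (X t : Mn n K) * w * (((X t)⁻¹ : (Mn n K)ˣ) : Mn n K) ∈ W) →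
    (∀ w ∈ W, ∃ c : K, w = c • (1 : Mn n K)) ∨ (∀ w : Mn n K, w.trace = 0 → w ∈ W)

/-- (PAD) `p`-adic representations. -/
def S_PAD : Prop := ∀ (n : ℕ), 2 ≤ n → ∀ (Λ : Type) [Group Λ], Group.FG Λ → SameFQ Λ (SLn n ℤ) →
  ∀ (q : ℕ) [Fact q.Prime], ∃ ρ : Λ →* SLn n ℤ_[q], Dn ρ

/-- (IRR) -/
def S_IRR : Prop := ∀ (n q : ℕ) [Fact q.Prime], 2 ≤ n → ∀ (Λ : Type) [Group Λ]
  (ρ : Λ →* SLn n ℤ_[q]), Dn ρ → Irr (fun l => toU n q (ρ l))

/-- (INF) -/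
def S_INF : Prop := ∀ (n q : ℕ) [Fact q.Prime], 2 ≤ n → ∀ (Λ : Type) [Group Λ]
  (ρ : Λ →* SLn n ℤ_[q]), Dn ρ → ((toU n q).comp ρ).range.carrier.Infinite

/-- (UNI) eigenvalues of a central commutator. -/
def S_UNI : Prop := ∀ (n : ℕ) (K : Type) [Field K] (g h u : (Mn n K)ˣ),
  g * h * g⁻¹ * h⁻¹ = u → u * g = g * u → u * h = h * u →
  ((u : Mn n K) ^ (n.factorial) - 1) ^ n = 0

/-- (AB) commuting matrices of bounded order. -/
def S_AB : Prop := ∀ (n : ℕ) (K : Type) [Field K] [CharZero K] (M : ℕ), 0 < M →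
  ∀ T : Set (Mn n K)ˣ, (∀ a ∈ T, ∀ b ∈ T, a * b = b * a) → (∀ a ∈ T, a ^ M = 1) → T.Finite

/-- (FIN) Steinberg groups of finite rings are finite. -/
def S_FIN : Prop := ∀ (m : ℕ), 3 ≤ m → ∀ (A : Type) [Ring A] [Finite A], Finite (St (Fin m) A)

/-- (BETA) -/
def S_BETA : Prop := ∀ (m n : ℕ), 3 ≤ m → ∀ (K : Type) [Field K] [CharZero K] (R : Type) [Ring R]
  (X : Fin m → Fin m → R → (Mn n K)ˣ), SR X → ∀ M : ℕ, 0 < M → (∀ i j a, X i j a ^ M = 1) →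
  (Subgroup.closure {g | ∃ i j a, g = X i j a}).carrier.Finite

/-- `u` is unipotent. -/
def Unip {n : ℕ} {K : Type} [Field K] (u : Mn n K) : Prop := IsNilpotent (u - 1)

/-- (LOG) a logarithm for unipotent matrices. -/
def S_LOG : Prop := ∀ (n : ℕ) (K : Type) [Field K] [CharZero K], ∃ lg : Mn n K → Mn n K,
  (∀ u v, Unip u → Unip v → u * v = v * u → lg (u * v) = lg u + lg v) ∧
  (∀ (g : (Mn n K)ˣ) u, lg ((g : Mn n K) * u * ((g⁻¹ : (Mn n K)ˣ) : Mn n K)) =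
    (g : Mn n K) * lg u * ((g⁻¹ : (Mn n K)ˣ) : Mn n K)) ∧
  (∀ u v w, Unip u → Unip v → Unip w → u * v = w * v * u → w * u = u * w → w * v = v * w →
    lg u * lg v - lg v * lg u = lg w) ∧
  (∀ u, Unip u → lg u = 0 → u = 1)

/-- Lie algebra version of the Steinberg relations. -/
structure LR {m n : ℕ} {R K : Type} [Ring R] [Field K] (N : Fin m → Fin m → R → Mn n K) :
    Prop where
  add : ∀ i j a b, i ≠ j → N i j (a + b) = N i j a + N i j b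
  comm : ∀ i j k, i ≠ j → j ≠ k → i ≠ k → ∀ a b,
    N i j a * N j k b - N j k b * N i j a = N i k (a * b)
  commute : ∀ i j k l, i ≠ j → k ≠ l → j ≠ k → i ≠ l → ∀ a b,
    N i j a * N k l b = N k l b * N i j a

/-- The span of the `N i j a` and the `[N i j a, N j i b]`. -/
def Lsp {m n : ℕ} {R K : Type} [Ring R] [Field K] (N : Fin m → Fin m → R → Mn n K) :
    Submodule K (Mn n K) :=
  Submodule.span K ({w | ∃ i j a, i ≠ j ∧ w = N i j a} ∪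
    {w | ∃ i j a b, i ≠ j ∧ w = N i j a * N j i b - N j i b * N i j a})

/-- The numerical or commutativity hypothesis. -/
def Hyp (n m : ℕ) (R : Type) [Ring R] : Prop :=
  (∀ k, 2 ≤ k → n ≠ m * k) ∨ (∀ a b : R, a * b = b * a)

/-- (P) the elements `P i` (up to a scalar the projections). -/
def S_P : Prop := ∀ (m n : ℕ), 3 ≤ m → ∀ (K : Type) [Field K] [CharZero K] (R : Type) [Ring R]
  (N : Fin m → Fin m → R → Mn n K), LR N → ∃ P : Fin m → Mn n K,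
    (∀ i j a, i ≠ j → P i * N i j a - N i j a * P i = N i j a) ∧
    (∀ i j a, i ≠ j → P j * N i j a - N i j a * P j = - N i j a) ∧
    (∀ i j k a, i ≠ j → k ≠ i → k ≠ j → P k * N i j a = N i j a * P k) ∧
    (∀ i j, P i * P j = P j * P i)

/-- (IDE) from `P i` to idempotents. -/
def S_IDE : Prop := ∀ (m n : ℕ), 3 ≤ m → 2 ≤ n → ∀ (K : Type) [Field K] [CharZero K]
  (R : Type) [Ring R] (N : Fin m → Fin m → R → Mn n K), LR N →
  (∀ w : Mn n K, w.trace = 0 → w ∈ Lsp N) →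
  ∃ e : Fin m → Mn n K, (∀ i, e i * e i = e i) ∧ (∀ i, e i ≠ 0) ∧ (∀ i j, i ≠ j → e i * e j = 0) ∧
    (∑ i, e i = 1) ∧
    ((∀ i j a, i ≠ j → N i j a = e i * N i j a * e j) ∨
      (∀ i j a, i ≠ j → N i j a = e j * N i j a * e i))

/-- (STR) structure of the Lie algebra version. -/
def S_STR : Prop := ∀ (m n : ℕ), 3 ≤ m → 2 ≤ n → ∀ (K : Type) [Field K] [CharZero K]
  (R : Type) [Ring R] (N : Fin m → Fin m → R → Mn n K), LR N →
  (∀ w : Mn n K, w.trace = 0 → w ∈ Lsp N) → Hyp n m R →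
  ∃ (e : Fin m ≃ Fin n) (g : (Mn n K)ˣ) (φ : R →+* K),
    (∀ i j a, i ≠ j → N i j a =
      (g : Mn n K) * Matrix.single (e i) (e j) (φ a) * ((g⁻¹ : (Mn n K)ˣ) : Mn n K)) ∨
    (∀ i j a, i ≠ j → N i j a =
      -((g : Mn n K) * Matrix.single (e j) (e i) (φ a) * ((g⁻¹ : (Mn n K)ˣ) : Mn n K)))

/-- How the group elements `X i j a` act on the Lie algebra elements. -/
structure XN {m n : ℕ} {R K : Type} [Ring R] [Field K] (X : Fin m → Fin m → R → (Mn n K)ˣ)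
    (N : Fin m → Fin m → R → Mn n K) : Prop where
  left : ∀ i j k, i ≠ j → j ≠ k → i ≠ k → ∀ a b,
    (X i j a : Mn n K) * N j k b * (((X i j a)⁻¹ : (Mn n K)ˣ) : Mn n K) = N j k b + N i k (a * b)
  right : ∀ i j k, i ≠ j → k ≠ i → k ≠ j → ∀ a b,
    (X i j a : Mn n K) * N k i b * (((X i j a)⁻¹ : (Mn n K)ˣ) : Mn n K) = N k i b - N k j (b * a)
  fix : ∀ i j k l, i ≠ j → k ≠ l → j ≠ k → i ≠ l → ∀ a b,
    (X i j a : Mn n K) * N k l b * (((X i j a)⁻¹ : (Mn n K)ˣ) : Mn n K) = N k l b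

/-- (INV) `Lsp N` is invariant. -/
def S_INV : Prop := ∀ (m n : ℕ), 3 ≤ m → ∀ (K : Type) [Field K] [CharZero K] (R : Type) [Ring R]
  (X : Fin m → Fin m → R → (Mn n K)ˣ) (N : Fin m → Fin m → R → Mn n K), LR N → XN X N →
  ∀ i j a, i ≠ j → ∀ w ∈ Lsp N,
    (X i j a : Mn n K) * w * (((X i j a)⁻¹ : (Mn n K)ˣ) : Mn n K) ∈ Lsp N

/-- The standard form of a representation. -/
def Std {m n : ℕ} {R K : Type} [Ring R] [Field K] (X : Fin m → Fin m → R → (Mn n K)ˣ) : Prop :=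
  ∃ (e : Fin m ≃ Fin n) (g : (Mn n K)ˣ) (φ : R →+* K),
    (∀ i j a, i ≠ j → (X i j a : Mn n K) =
      (g : Mn n K) * (1 + Matrix.single (e i) (e j) (φ a)) * ((g⁻¹ : (Mn n K)ˣ) : Mn n K)) ∨
    (∀ i j a, i ≠ j → (X i j a : Mn n K) =
      (g : Mn n K) * (1 - Matrix.single (e j) (e i) (φ a)) * ((g⁻¹ : (Mn n K)ˣ) : Mn n K))

/-- (CONJ) from the Lie algebra back to the group. -/
def S_CONJ : Prop := ∀ (m n : ℕ), 3 ≤ m → ∀ (K : Type) [Field K] [CharZero K] (R : Type) [Ring R]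
  (X : Fin m → Fin m → R → (Mn n K)ˣ) (N : Fin m → Fin m → R → Mn n K), SR X → XN X N →
  (∃ (e : Fin m ≃ Fin n) (g : (Mn n K)ˣ) (φ : R →+* K),
    (∀ i j a, i ≠ j → N i j a =
      (g : Mn n K) * Matrix.single (e i) (e j) (φ a) * ((g⁻¹ : (Mn n K)ˣ) : Mn n K)) ∨
    (∀ i j a, i ≠ j → N i j a =
      -((g : Mn n K) * Matrix.single (e j) (e i) (φ a) * ((g⁻¹ : (Mn n K)ˣ) : Mn n K)))) →
  Std X

/-- (ST) the structure theorem. -/
def S_ST : Prop := ∀ (m n : ℕ), 3 ≤ m → 2 ≤ n → ∀ (K : Type) [Field K] [CharZero K]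
  (R : Type) [Ring R] (X : Fin m → Fin m → R → (Mn n K)ˣ), SR X →
  Irr (fun t : Fin m × Fin m × R => X t.1 t.2.1 t.2.2) →
  (Subgroup.closure {g | ∃ i j a, g = X i j a}).carrier.Infinite → Hyp n m R → Std X

/-- (INTEG) integrality. -/
def S_INTEG : Prop := ∀ (n q : ℕ) [Fact q.Prime] (R : Type) [Ring R] (x : R → SLn n ℤ_[q])
  (g : (Mn n ℚ_[q])ˣ) (φ : R →+* ℚ_[q]) (i j : Fin n) (ε : ℚ_[q]), ε ≠ 0 →
  (∀ a, (toU n q (x a) : Mn n ℚ_[q]) =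
    (g : Mn n ℚ_[q]) * (1 + Matrix.single i j (ε * φ a)) * ((g⁻¹ : (Mn n ℚ_[q])ˣ) : Mn n ℚ_[q])) →
  ∀ a, ‖φ a‖ ≤ 1

/-- (FF) quotients of `SL (n, ℤ)` over finite rings of large characteristic. -/
def S_FF : Prop := ∀ (n : ℕ), 3 ≤ n → ∃ B : ℕ, ∀ (p : ℕ), p.Prime → B < p →
  ∀ (S : Type) [CommRing S] [Finite S] [CharP S p] (F : Type) [Field F] (ψ₁ ψ₂ : S →+* F),
  (∀ s, ψ₁ s = 0 → ψ₂ s = 0 → s = 0) → ∀ f : SLn n ℤ →* SLn n S,
  (∀ (i j : Fin n) (h : i ≠ j) (s : S), ∃ y, f y =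
    ⟨Matrix.transvection i j s, Matrix.det_transvection_of_ne i j h s⟩) →
  ∀ s : S, ∃ k : ℕ, s = k

/-- (CA) commutative algebra. -/
def S_CA : Prop := ∀ (C : Type) [CommRing C], Algebra.FiniteType ℤ C → ∀ (B : ℕ),
  (∀ (F : Type) [Field F] [Finite F] (ψ₁ ψ₂ : C →+* F), B < ringChar F → ψ₁ = ψ₂) →
  ∀ (K K' : Type) [Field K] [CharZero K] [Field K'] [CharZero K'] (φ : C →+* K) (φ' : C →+* K')
    (r : C), ∃ t : ℚ, φ r = t ∧ φ' r = t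

/-- (HOM) standard integral representations, for every prime. -/
def S_HOM : Prop := ∀ n m : ℕ, 3 ≤ n → 3 ≤ m → ∀ (R : Type) [Ring R], Hyp n m R →
  ∀ (Λ : Type) [Group Λ], Group.FG Λ → SameFQ Λ (SLn n ℤ) →
  ∀ (x : Fin m → Fin m → R → Λ), SR x → Subgroup.closure {g | ∃ i j a, g = x i j a} = ⊤ →
  ∀ (q : ℕ) [Fact q.Prime], ∃ (e : Fin m ≃ Fin n) (φ : R →+* ℤ_[q]) (θ : Λ →* SLn n ℤ_[q]),
    ∀ (i j : Fin m) (h : i ≠ j) (a : R), θ (x i j a) =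
      ⟨Matrix.transvection (e i) (e j) (φ a),
        Matrix.det_transvection_of_ne _ _ (e.injective.ne h) _⟩

/-- (TOP) the theorem. -/
def S_TOP : Prop := ∀ n m : ℕ, 3 ≤ n → 3 ≤ m → ∀ (R : Type) [Ring R], Hyp n m R →
  ∀ (Λ : Type) [Group Λ], Group.FG Λ →
  (∀ g : Λ, g ≠ 1 → ∃ H : Subgroup Λ, H.index ≠ 0 ∧ g ∉ H) → SameFQ Λ (SLn n ℤ) →
  ∀ (x : Fin m → Fin m → R → Λ), SR x → Subgroup.closure {g | ∃ i j a, g = x i j a} = ⊤ →
  m = n ∧ Nonempty (Λ ≃* SLn n ℤ)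

end Pool.Agent.T2h61.PR
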