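import Mathlib
import Pool.Agent.T2h61.PR.Stm

/-!
# Standard integral representations (helper55 for helper61)
-/

set_option autoImplicit false

namespace Pool.Agent.T2h61.PR

open Matrix Pool.Agent.Helper58.K2

namespace HomAux

theorem sr_map {ι A G H : Type} [NonUnitalRing A] [Group G] [Group H] (f : G →* H)
    {X : ι → ι → A → G} (h : SR X) : SR (fun i j a => f (X i j a)) where
  diag i a := by simp [h.diag]
  add i j a b := by simp [h.add]
  comm i j k hij hjk hik a b := by
    rw [← h.comm i j k hij hjk hik]; simp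
  commute i j k l hjk hil a b := by
    rw [← map_mul, h.commute i j k l hjk hil, map_mul]

/-- induction over a group generated by Steinberg generators. -/
theorem gen_ind {ι A G : Type} [NonUnitalRing A] [Group G] {x : ι → ι → A → G} (h : SR x)
    (hc : Subgroup.closure {g | ∃ i j a, g = x i j a} = ⊤) {p : G → Prop} (h1 : p 1)
    (hx : ∀ i j a g, p g → p (x i j a * g)) (g : G) : p g := by
  have hg : g ∈ Subgroup.closure {g | ∃ i j a, g = x i j a} := by
    rw [hc]; trivial
  induction hg using Subgroup.closure_induction_left with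
  | one => exact h1
  | mul_left y hy z hz ih => obtain ⟨i, j, a, rfl⟩ := hy; exact hx i j a z ih
  | inv_mul_cancel y hy z hz ih =>
    obtain ⟨i, j, a, rfl⟩ := hy
    rw [← h.neg]
    exact hx i j (-a) z ih

theorem toU_val (n q : ℕ) [Fact q.Prime] (A : SLn n ℤ_[q]) :
    ((toU n q A : (Mn n ℚ_[q])ˣ) : Mn n ℚ_[q]) =
      (A : Mn n ℤ_[q]).map (fun z => (z : ℚ_[q])) := by
  rfl

theorem toU_inj (n q : ℕ) [Fact q.Prime] : Function.Injective (toU n q) := by
  intro A B h
  have h' := congrArg (fun u : (Mn n ℚ_[q])ˣ => (u : Mn n ℚ_[q])) h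
  simp only [toU_val] at h'
  ext i j
  have := congrFun (congrFun h' i) j
  exact Subtype.ext this

/-- lifting a representation through the injection `toU`. -/
theorem lift_rep {m n q : ℕ} [Fact q.Prime] {R Λ : Type} [Ring R] [Group Λ]
    (ρ : Λ →* SLn n ℤ_[q]) (x : Fin m → Fin m → R → Λ) (h : SR x)
    (hc : Subgroup.closure {g | ∃ i j a, g = x i j a} = ⊤) (g : (Mn n ℚ_[q])ˣ)
    (y : Fin m → Fin m → R → SLn n ℤ_[q])
    (hy : ∀ i j a, i ≠ j → toU n q (ρ (x i j a)) = g * toU n q (y i j a) * g⁻¹) :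
    ∃ θ : Λ →* SLn n ℤ_[q], ∀ i j a, i ≠ j → θ (x i j a) = y i j a := by
  let θ' : Λ →* (Mn n ℚ_[q])ˣ := (MulAut.conj g⁻¹).toMonoidHom.comp ((toU n q).comp ρ)
  have hθ' : ∀ l, θ' l = g⁻¹ * toU n q (ρ l) * g := by
    intro l
    simp [θ']
  have hgen : ∀ i j a, i ≠ j → θ' (x i j a) = toU n q (y i j a) := by
    intro i j a hij
    rw [hθ', hy i j a hij]
    group
  have hr : ∀ l, θ' l ∈ (toU n q).range := by
    intro l
    induction l using gen_ind h hc with
    | h1 => rw [map_one]; exact one_mem _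
    | hx i j a l ih =>
      rw [map_mul]
      refine mul_mem ?_ ih
      by_cases hij : i = j
      · subst hij
        rw [h.diag, map_one]
        exact one_mem _
      · rw [hgen i j a hij]
        exact ⟨_, rfl⟩
  let E := MonoidHom.ofInjective (toU_inj n q)
  refine ⟨E.symm.toMonoidHom.comp (θ'.codRestrict (toU n q).range hr), ?_⟩
  intro i j a hij
  apply toU_inj n q
  have : ∀ z : (toU n q).range, toU n q (E.symm z) = z := by
    intro z
    have := E.apply_symm_apply z
    exact congrArg Subtype.val this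
  simp only [MonoidHom.comp_apply, MulEquiv.coe_toMonoidHom, this]
  rw [MonoidHom.codRestrict_apply]
  exact hgen i j a hij

/-- inverse transpose on `SL`. -/
def invT (n : ℕ) (A : Type) [CommRing A] : SLn n A →* SLn n A :=
  MonoidHom.mk' (fun B => (B⁻¹).transpose) (fun B C => by
    apply Subtype.ext
    rw [_root_.mul_inv_rev]
    show (((C⁻¹ : SLn n A) : Matrix (Fin n) (Fin n) A) * ((B⁻¹ : SLn n A) : Matrix (Fin n) (Fin n) A)).transpose = _
    rw [Matrix.transpose_mul]
    rfl)

/-- total family of transvections -/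
def tt {n : ℕ} {A : Type} [CommRing A] (i j : Fin n) (s : A) : SLn n A :=
  if h : i ≠ j then ⟨Matrix.transvection i j s, Matrix.det_transvection_of_ne i j h s⟩ else 1

theorem tt_pos {n : ℕ} {A : Type} [CommRing A] (i j : Fin n) (s : A) (h : i ≠ j) :
    tt i j s = ⟨Matrix.transvection i j s, Matrix.det_transvection_of_ne i j h s⟩ := by
  exact dif_pos h

theorem tt_val {n : ℕ} {A : Type} [CommRing A] (i j : Fin n) (s : A) (h : i ≠ j) :
    (tt i j s : Matrix (Fin n) (Fin n) A) = 1 + Matrix.single i j s := by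
  rw [tt_pos i j s h]
  rfl

theorem toU_tt {n q : ℕ} [Fact q.Prime] (i j : Fin n) (s : ℤ_[q]) (h : i ≠ j) :
    ((toU n q (tt i j s) : (Mn n ℚ_[q])ˣ) : Mn n ℚ_[q]) = 1 + Matrix.single i j (s : ℚ_[q]) := by
  rw [toU_val, tt_val i j s h]
  ext k l
  rw [Matrix.map_apply, Matrix.add_apply, Matrix.add_apply, PadicInt.coe_add]
  congr 1
  · rw [Matrix.one_apply, Matrix.one_apply]
    split_ifs <;> simp
  · rw [Matrix.single_apply, Matrix.single_apply]
    split_ifs <;> simp

end HomAux

open HomAux

theorem hom : S_PAD → S_IRR → S_INF → S_ST → S_INTEG → S_HOM := by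
  intro PAD IRR INF ST INTEG n m hn hm R _ hyp Λ _ hFG hS x hx hc q _
  obtain ⟨ρ, hD⟩ := PAD n (by omega) Λ hFG hS q
  have hirr := IRR n q (by omega) Λ ρ hD
  have hinf := INF n q (by omega) Λ ρ hD
  let X : Fin m → Fin m → R → (Mn n ℚ_[q])ˣ := fun i j a => toU n q (ρ (x i j a))
  have hX : SR X := sr_map ((toU n q).comp ρ) hx
  have hirr' : Irr (fun t : Fin m × Fin m × R => X t.1 t.2.1 t.2.2) := by
    intro W hW
    refine hirr W ?_
    intro l
    induction l using gen_ind hx hc with
    | h1 => intro w hw; simpa using hw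
    | hx i j a l ih =>
      intro w hw
      have := hW (i, j, a) _ (ih w hw)
      simpa [X, mul_assoc] using this
  have hinf' : (Subgroup.closure {g | ∃ i j a, g = X i j a}).carrier.Infinite := by
    have : Subgroup.closure {g | ∃ i j a, g = X i j a} = ((toU n q).comp ρ).range := by
      rw [MonoidHom.range_eq_map, ← hc, MonoidHom.map_closure]
      congr 1
      ext g
      constructor
      · rintro ⟨i, j, a, rfl⟩
        exact ⟨x i j a, ⟨i, j, a, rfl⟩, rfl⟩
      · rintro ⟨_, ⟨i, j, a, rfl⟩, rfl⟩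
        exact ⟨i, j, a, rfl⟩
    rw [this]
    exact hinf
  obtain ⟨e, g, φ, hS | hDu⟩ := ST m n hm (by omega) ℚ_[q] R X hX hirr' hinf' hyp
  · have h01 : (⟨0, by omega⟩ : Fin m) ≠ ⟨1, by omega⟩ := by simp
    have hint : ∀ a, ‖φ a‖ ≤ 1 := by
      refine INTEG n q R (fun a => ρ (x ⟨0, by omega⟩ ⟨1, by omega⟩ a)) g φ
        (e ⟨0, by omega⟩) (e ⟨1, by omega⟩) 1 one_ne_zero ?_
      intro a
      rw [one_mul]
      exact hS _ _ a h01
    let φ' : R →+* ℤ_[q] :=
      { toFun := fun a => ⟨φ a, hint a⟩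
        map_one' := Subtype.ext (by simp)
        map_mul' := fun a b => Subtype.ext (map_mul φ a b)
        map_zero' := Subtype.ext (by simp)
        map_add' := fun a b => Subtype.ext (map_add φ a b) }
    have hφ' : ∀ a, ((φ' a : ℤ_[q]) : ℚ_[q]) = φ a := fun a => rfl
    obtain ⟨θ, hθ⟩ := lift_rep ρ x hx hc g (fun i j a => tt (e i) (e j) (φ' a)) (by
      intro i j a hij
      apply Units.ext
      have h1 := hS i j a hij
      rw [Units.val_mul, Units.val_mul, toU_tt _ _ _ (e.injective.ne hij), hφ']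
      exact h1)
    refine ⟨e, φ', θ, ?_⟩
    intro i j hij a
    rw [hθ i j a hij, tt_pos _ _ _ (e.injective.ne hij)]
  · have h01 : (⟨0, by omega⟩ : Fin m) ≠ ⟨1, by omega⟩ := by simp
    have hint : ∀ a, ‖φ a‖ ≤ 1 := by
      refine INTEG n q R (fun a => ρ (x ⟨0, by omega⟩ ⟨1, by omega⟩ a)) g φ
        (e ⟨1, by omega⟩) (e ⟨0, by omega⟩) (-1) (by simp) ?_
      intro a
      have h1 := hDu _ _ a h01
      refine h1.trans ?_
      congr 2
      rw [neg_one_mul, ← Matrix.single_neg]
      abel
    let φ' : R →+* ℤ_[q] :=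
      { toFun := fun a => ⟨φ a, hint a⟩
        map_one' := Subtype.ext (by simp)
        map_mul' := fun a b => Subtype.ext (map_mul φ a b)
        map_zero' := Subtype.ext (by simp)
        map_add' := fun a b => Subtype.ext (map_add φ a b) }
    have hφ' : ∀ a, ((φ' a : ℤ_[q]) : ℚ_[q]) = φ a := fun a => rfl
    obtain ⟨θ, hθ⟩ := lift_rep ρ x hx hc g (fun i j a => tt (e j) (e i) (-(φ' a))) (by
      intro i j a hij
      apply Units.ext
      have h1 := hDu i j a hij
      rw [Units.val_mul, Units.val_mul, toU_tt _ _ _ (e.injective.ne hij.symm), PadicInt.coe_neg,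
        hφ']
      refine h1.trans ?_
      congr 2
      rw [← Matrix.single_neg, sub_eq_add_neg])
    refine ⟨e, φ', (invT n ℤ_[q]).comp θ, ?_⟩
    intro i j hij a
    have hne := e.injective.ne hij
    rw [MonoidHom.comp_apply, hθ i j a hij]
    have hinv : (tt (e j) (e i) (-(φ' a)) : SLn n ℤ_[q])⁻¹ = tt (e j) (e i) (φ' a) := by
      rw [inv_eq_iff_mul_eq_one]
      rw [tt_pos _ _ _ hne.symm, tt_pos _ _ _ hne.symm]
      apply Subtype.ext
      show Matrix.transvection (e j) (e i) (-(φ' a)) * Matrix.transvection (e j) (e i) (φ' a) = 1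
      rw [Matrix.transvection_mul_transvection_same (e j) (e i) hne.symm]
      simp
    show ((tt (e j) (e i) (-(φ' a)) : SLn n ℤ_[q])⁻¹).transpose = _
    rw [hinv, tt_pos _ _ _ hne.symm]
    apply Subtype.ext
    show (Matrix.transvection (e j) (e i) (φ' a)).transpose = Matrix.transvection (e i) (e j) (φ' a)
    simp [Matrix.transvection, Matrix.transpose_add]

end Pool.Agent.T2h61.PR
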