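import Pool.Agent.T2h61.PR.T_ST2
import Pool.Agent.T2h61.PR.T_HOM

set_option autoImplicit false

namespace Pool.Agent.T2h61.PR

open Matrix Pool.Agent.Helper58.K2 HomAux

/-- block matrix units over `ℤ_p`, generating a group onto `SL (n, F_p)`. -/
lemma mz_aux {m n p : ℕ} [Fact p.Prime] (hm : 3 ≤ m) (hn : 2 ≤ n) {R' : Type} [Ring R']
    {Λ : Type} [Group Λ] (ρ : Λ →* SLn n ℤ_[p]) (hD : Dn ρ)
    (N : Fin m → Fin m → R' → Mn n ℤ_[p]) {e : Fin m → Mn n ℚ_[p]}
    (hBD : BD (fun i j a => (N i j a).map (PadicInt.Coe.ringHom (p := p))) e)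
    (hgen : ∀ (f : ℤ_[p] →+* ZMod p) (S : Subring (Mn n (ZMod p))),
      (∀ i j a, i ≠ j → 1 + (N i j a).map f ∈ S) → ∀ l : Λ, ((ρ l).1.map f) ∈ S) :
    ∃ k : ℕ, n = m * k ∧
      ∃ f : R' →+* Matrix (Fin k) (Fin k) (ZMod p), Function.Surjective f := by
  obtain ⟨e', h1⟩ := BD.reflect (N := N) hm (PadicInt.Coe.ringHom (p := p))
    (fun a b h => Subtype.ext h) hBD
  let c : ZMod (p ^ 1) ≃+* ZMod p := ZMod.ringEquivCongr (pow_one p)
  let f : ℤ_[p] →+* ZMod p := c.toRingHom.comp (PadicInt.toZModPow (p := p) 1)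
  have h2 := h1.map f
  refine mat_field hm hn h2 ?_
  intro S hS i j hij t
  have h3 := hgen f S hS
  obtain ⟨l, hl⟩ := hD 1 ⟨Matrix.transvection i j (c.symm t),
    Matrix.det_transvection_of_ne i j hij _⟩
  have h4 := congrArg (fun y : SLn n (ZMod (p ^ 1)) => y.1.map c) hl
  have h5 : (ρ l).1.map f = Matrix.transvection i j t := by
    have e1 : (ρ l).1.map f = ((((Matrix.SpecialLinearGroup.map (n := Fin n)
        (PadicInt.toZModPow (p := p) 1)).comp ρ) l).1).map c := by
      ext a b; rfl
    rw [e1]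
    refine h4.trans ?_
    ext a b
    simp [Matrix.transvection, Matrix.single_apply, Matrix.one_apply]
    split_ifs <;> simp
  rw [← h5]
  exact h3 l

/-- **The rank of a Steinberg group and the residue rings.** -/
theorem mz (PAD : S_PAD) (IRR : S_IRR) (INF : S_INF) (hUNI : S_UNI) (hBETA : S_BETA)
    (hLOG : S_LOG) (hINV : S_INV) (hIDE : S_IDE) (n m : ℕ) (hn : 3 ≤ n) (hm : 3 ≤ m)
    (R : Type) [Ring R] (Λ : Type) [Group Λ] (hFG : Group.FG Λ) (hS : SameFQ Λ (SLn n ℤ))
    (x : Fin m → Fin m → R → Λ) (hx : SR x)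
    (hc : Subgroup.closure {g | ∃ i j a, g = x i j a} = ⊤) (p : ℕ) [Fact p.Prime] :
    ∃ k : ℕ, n = m * k ∧
      ∃ f : R →+* Matrix (Fin k) (Fin k) (ZMod p), Function.Surjective f := by
  obtain ⟨ρ, hD⟩ := PAD n (by omega) Λ hFG hS p
  have hirr := IRR n p (by omega) Λ ρ hD
  have hinf := INF n p (by omega) Λ ρ hD
  let X : Fin m → Fin m → R → (Mn n ℚ_[p])ˣ := fun i j a => toU n p (ρ (x i j a))
  have hX : SR X := sr_map ((toU n p).comp ρ) hx
  have hirr' : Irr (fun t : Fin m × Fin m × R => X t.1 t.2.1 t.2.2) := by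
    intro W hW
    refine hirr W ?_
    intro l
    induction l using gen_ind hx hc with
    | h1 => intro w hw; simpa using hw
    | hx i j a l ih =>
      intro w hw
      have := hW (i, j, a) _ (ih w hw)
      simpa [X, mul_assoc] using this
  have hinf' : (Subgroup.closure {g | ∃ i j a, g = X i j a}).carrier.Infinite := by
    have : Subgroup.closure {g | ∃ i j a, g = X i j a} = ((toU n p).comp ρ).range := by
      rw [MonoidHom.range_eq_map, ← hc, MonoidHom.map_closure]
      congr 1
      ext g
      constructor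
      · rintro ⟨i, j, a, rfl⟩
        exact ⟨x i j a, ⟨i, j, a, rfl⟩, rfl⟩
      · rintro ⟨_, ⟨i, j, a, rfl⟩, rfl⟩
        exact ⟨i, j, a, rfl⟩
    rw [this]
    exact hinf
  have hmapone : ∀ (B : Type) [CommRing B] (f : ℤ_[p] →+* B), (1 : Mn n ℤ_[p]).map f = 1 :=
    fun B _ f => Matrix.map_one _ (map_zero f) (map_one f)
  have hXv : ∀ i j a, (X i j a : Mn n ℚ_[p]) - 1 =
      (((ρ (x i j a)).1 - 1 : Mn n ℤ_[p])).map (PadicInt.Coe.ringHom (p := p)) := by
    intro i j a
    rw [Matrix.map_sub _ (map_sub (PadicInt.Coe.ringHom (p := p))), hmapone]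
    rfl
  obtain ⟨e, hB | hB⟩ := st2 hUNI hBETA hLOG hINV hIDE m n hm (by omega) ℚ_[p] R X hX hirr' hinf'
  · simp only [hXv] at hB
    refine mz_aux hm (by omega) ρ hD (fun i j a => (ρ (x i j a)).1 - 1) hB ?_
    intro f S hS' l
    induction l using gen_ind hx hc with
    | h1 =>
      rw [map_one]
      have : ((1 : SLn n ℤ_[p]).1.map f : Mn n (ZMod p)) = 1 := hmapone _ f
      rw [this]
      exact S.one_mem
    | hx i j a l ih =>
      have e1 : (ρ (x i j a * l)).1.map f = ((ρ (x i j a)).1.map f) * ((ρ l).1.map f) := by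
        rw [map_mul]
        exact Matrix.map_mul
      rw [e1]
      refine S.mul_mem ?_ ih
      by_cases hij : i = j
      · subst hij
        rw [hx.diag, map_one]
        have : ((1 : SLn n ℤ_[p]).1.map f : Mn n (ZMod p)) = 1 := hmapone _ f
        rw [this]
        exact S.one_mem
      · have h6 := hS' i j a hij
        have e2 : (((ρ (x i j a)).1 - 1 : Mn n ℤ_[p])).map f = (ρ (x i j a)).1.map f - 1 := by
          rw [Matrix.map_sub _ (map_sub f), hmapone]
        rw [e2] at h6
        simpa using h6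
  · simp only [hXv] at hB
    have hB' : BD (fun i j (a : Rᵐᵒᵖ) =>
        ((-((ρ (x j i a.unop)).1 - 1) : Mn n ℤ_[p])).map (PadicInt.Coe.ringHom (p := p))) e := by
      have e3 : (fun i j (a : Rᵐᵒᵖ) =>
        ((-((ρ (x j i a.unop)).1 - 1) : Mn n ℤ_[p])).map (PadicInt.Coe.ringHom (p := p))) =
        (fun i j (a : Rᵐᵒᵖ) =>
        -((((ρ (x j i a.unop)).1 - 1 : Mn n ℤ_[p])).map (PadicInt.Coe.ringHom (p := p)))) := by
        funext i j a
        ext k l
        simp
      rw [e3]
      exact hB
    obtain ⟨k, hk, F, hF⟩ := mz_aux hm (by omega) ρ hD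
      (fun i j (a : Rᵐᵒᵖ) => -((ρ (x j i a.unop)).1 - 1)) hB' (by
        intro f S hS' l
        induction l using gen_ind hx hc with
        | h1 =>
          rw [map_one]
          have : ((1 : SLn n ℤ_[p]).1.map f : Mn n (ZMod p)) = 1 := hmapone _ f
          rw [this]
          exact S.one_mem
        | hx i j a l ih =>
          have e1 : (ρ (x i j a * l)).1.map f = ((ρ (x i j a)).1.map f) * ((ρ l).1.map f) := by
            rw [map_mul]
            exact Matrix.map_mul
          rw [e1]
          refine S.mul_mem ?_ ih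
          by_cases hij : i = j
          · subst hij
            rw [hx.diag, map_one]
            have : ((1 : SLn n ℤ_[p]).1.map f : Mn n (ZMod p)) = 1 := hmapone _ f
            rw [this]
            exact S.one_mem
          · have h6 := hS' j i (MulOpposite.op a) (Ne.symm hij)
            have e2 : ((-((ρ (x i j a)).1 - 1) : Mn n ℤ_[p])).map f =
                -((ρ (x i j a)).1.map f - 1) := by
              have e4 : ((-((ρ (x i j a)).1 - 1) : Mn n ℤ_[p])).map f =
                -((((ρ (x i j a)).1 - 1 : Mn n ℤ_[p])).map f) := by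
                ext k l
                simp
              rw [e4, Matrix.map_sub _ (map_sub f), hmapone]
            simp only [MulOpposite.unop_op] at h6
            rw [e2] at h6
            have h7 := S.sub_mem (S.add_mem S.one_mem S.one_mem) h6
            have e5 : (1 : Mn n (ZMod p)) + 1 - (1 + -((ρ (x i j a)).1.map f - 1)) =
                (ρ (x i j a)).1.map f := by abel
            rw [e5] at h7
            exact h7)
    refine ⟨k, hk, ?_⟩
    let T : R →+* Matrix (Fin k) (Fin k) (ZMod p) :=
      { toFun := fun a => (F (MulOpposite.op a)).transpose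
        map_one' := by simp
        map_mul' := by
          intro a b
          rw [MulOpposite.op_mul, map_mul, Matrix.transpose_mul]
        map_zero' := by simp
        map_add' := by
          intro a b
          rw [MulOpposite.op_add, map_add, Matrix.transpose_add] }
    refine ⟨T, ?_⟩
    intro M
    obtain ⟨a, ha⟩ := hF M.transpose
    refine ⟨a.unop, ?_⟩
    show (F (MulOpposite.op a.unop)).transpose = M
    rw [MulOpposite.op_unop, ha, Matrix.transpose_transpose]

end Pool.Agent.T2h61.PR
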