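import Pool.Agent.T2h61.PR.Stm

/-!
# The weights (task P, helper25)
-/

set_option autoImplicit false

namespace Pool.Agent.T2h61.PR.PT

open Finset

attribute [local instance 100] LieRing.ofAssociativeRing

section
variable {m n : ℕ} {R K : Type} [Ring R] [Field K] {N : Fin m → Fin m → R → Mn n K}

theorem br (h : LR N) {i j k : Fin m} (h1 : i ≠ j) (h2 : j ≠ k) (h3 : i ≠ k) (a b : R) :
    ⁅N i j a, N j k b⁆ = N i k (a * b) := by
  rw [Ring.lie_def]; exact h.comm i j k h1 h2 h3 a b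

theorem br' (h : LR N) {i j k : Fin m} (h1 : i ≠ j) (h2 : j ≠ k) (h3 : i ≠ k) (a b : R) :
    ⁅N j k b, N i j a⁆ = - N i k (a * b) := by
  rw [← lie_skew, br h h1 h2 h3]

theorem br0 (h : LR N) {i j k l : Fin m} (h1 : i ≠ j) (h2 : k ≠ l) (h3 : j ≠ k) (h4 : i ≠ l)
    (a b : R) : ⁅N i j a, N k l b⁆ = 0 := by
  rw [Ring.lie_def, h.commute i j k l h1 h2 h3 h4, sub_self]

theorem D1 (h : LR N) {i j k : Fin m} (h1 : i ≠ j) (h2 : j ≠ k) (h3 : i ≠ k) (a : R) :
    ⁅⁅N i k 1, N k i 1⁆, N i j a⁆ = N i j a := by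
  rw [lie_lie, br h h3.symm h1 h2.symm, one_mul, br h h3 h2.symm h1, one_mul,
    br0 h h3 h1 h3.symm h1, lie_zero, sub_zero]

theorem D2 (h : LR N) {i j l : Fin m} (h1 : i ≠ j) (h2 : j ≠ l) (h3 : i ≠ l) (a : R) :
    ⁅⁅N i j 1, N j i 1⁆, N l j a⁆ = N l j a := by
  rw [lie_lie, br' h h2.symm h1.symm h3.symm, mul_one, lie_neg, br' h h3.symm h1 h2.symm, mul_one,
    neg_neg, br0 h h1 h2.symm h2 h1, lie_zero, sub_zero]

theorem D3 (h : LR N) {i j l : Fin m} (h1 : i ≠ j) (h2 : j ≠ l) (h3 : i ≠ l) (a : R) :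
    ⁅⁅N i j 1, N j i 1⁆, N i j a⁆ = N i j a + N i j a := by
  have e : N i j a = ⁅N i l 1, N l j a⁆ := by rw [br h h3 h2.symm h1, one_mul]
  calc ⁅⁅N i j 1, N j i 1⁆, N i j a⁆ = ⁅⁅N i j 1, N j i 1⁆, ⁅N i l 1, N l j a⁆⁆ := by rw [← e]
    _ = N i j a + N i j a := by
      rw [leibniz_lie, D1 h h3 h2.symm h1, D2 h h1 h2 h3, ← e]

theorem neg_br {x y z w : Mn n K} (h : ⁅⁅x, y⁆, z⁆ = w) : ⁅⁅y, x⁆, z⁆ = -w := by
  rw [← lie_skew y x, neg_lie, h]

/-- the weights -/
def wt (K : Type) [Field K] {m : ℕ} (p l i j : Fin m) : K :=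
  (if p = i then 1 else 0) - (if p = j then 1 else 0) - (if l = i then 1 else 0) +
    (if l = j then 1 else 0)

theorem third (hm : 3 ≤ m) (i j : Fin m) : ∃ l, j ≠ l ∧ i ≠ l := by
  have h1 : ({i, j} : Finset (Fin m)).card < (univ : Finset (Fin m)).card := by
    rw [card_univ, Fintype.card_fin]
    exact lt_of_le_of_lt (card_le_two) (by omega)
  obtain ⟨l, -, hl⟩ := exists_mem_notMem_of_card_lt_card h1
  simp only [mem_insert, mem_singleton, not_or] at hl
  exact ⟨l, fun h => hl.2 h.symm, fun h => hl.1 h.symm⟩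

theorem wt_br (hm : 3 ≤ m) (h : LR N) {i j : Fin m} (hij : i ≠ j) (p l : Fin m) (a : R) :
    ⁅⁅N p l 1, N l p 1⁆, N i j a⁆ = wt K p l i j • N i j a := by
  unfold wt
  by_cases hpl : p = l
  · subst hpl
    rw [lie_self, zero_lie]
    simp
  by_cases hpi : p = i
  · subst hpi
    by_cases hlj : l = j
    · subst hlj
      obtain ⟨q, hq1, hq2⟩ := third hm p l
      rw [D3 h hpl hq1 hq2, if_pos rfl, if_neg hpl, if_neg (Ne.symm hpl), if_pos rfl]
      norm_num
      rw [two_smul]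
    · rw [D1 h hij (Ne.symm hlj) hpl, if_pos rfl, if_neg hij, if_neg (Ne.symm hpl), if_neg hlj]
      simp
  by_cases hpj : p = j
  · subst hpj
    by_cases hli : l = i
    · subst hli
      obtain ⟨q, hq1, hq2⟩ := third hm l p
      rw [neg_br (D3 h hij hq1 hq2 a), if_neg hpi, if_pos rfl, if_pos rfl, if_neg hij]
      norm_num
      rw [two_smul]; abel
    · rw [neg_br (D2 h (Ne.symm hpl) hpi hli a), if_neg hpi, if_pos rfl,
        if_neg hli, if_neg (Ne.symm hpl)]
      simp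
  rw [if_neg hpi, if_neg hpj]
  by_cases hli : l = i
  · subst hli
    rw [neg_br (D1 h hij (Ne.symm hpj) (Ne.symm hpl) a), if_pos rfl, if_neg hij]
    simp
  by_cases hlj : l = j
  · subst hlj
    rw [D2 h hpj hli hpi a, if_neg hli, if_pos rfl]
    simp
  · rw [lie_lie, br0 h (Ne.symm hpl) hij hpi hlj, lie_zero, br0 h hpl hij hli hpj, lie_zero,
      if_neg hli, if_neg hlj]
    simp

/-- the elements `h p` -/
noncomputable def hh (N : Fin m → Fin m → R → Mn n K) (p : Fin m) : Mn n K :=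
  ∑ l, ⁅N p l 1, N l p 1⁆

theorem hh_br (hm : 3 ≤ m) (h : LR N) {i j : Fin m} (hij : i ≠ j) (p : Fin m) (a : R) :
    ⁅hh N p, N i j a⁆ = ((m : K) * ((if p = i then 1 else 0) - (if p = j then 1 else 0))) •
      N i j a := by
  unfold hh
  rw [sum_lie, sum_congr rfl fun l _ => wt_br hm h hij p l a, ← sum_smul]
  congr 1
  unfold wt
  simp only [sum_add_distrib, sum_sub_distrib, sum_const, card_univ, Fintype.card_fin,
    nsmul_eq_mul, sum_ite_eq', mem_univ, if_true]
  ring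

theorem hh_comm (hm : 3 ≤ m) (h : LR N) (p q : Fin m) : ⁅hh N p, hh N q⁆ = 0 := by
  nth_rewrite 2 [hh]
  rw [lie_sum]
  refine sum_eq_zero fun l _ => ?_
  by_cases hql : q = l
  · subst hql
    rw [lie_self, lie_zero]
  · rw [leibniz_lie, hh_br hm h hql, hh_br hm h (Ne.symm hql)]
    rw [Ring.lie_def, Ring.lie_def]
    simp only [smul_mul_assoc, mul_smul_comm]
    rw [← smul_sub, ← smul_sub, ← add_smul]
    have e : (m : K) * ((if p = q then 1 else 0) - (if p = l then 1 else 0)) +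
        (m : K) * ((if p = l then 1 else 0) - (if p = q then 1 else 0)) = 0 := by ring
    rw [e, zero_smul]

end

end Pool.Agent.T2h61.PR.PT

namespace Pool.Agent.T2h61.PR

theorem p : S_P := by
  intro m n hm K _ _ R _ N h
  have hm0 : (m : K) ≠ 0 := Nat.cast_ne_zero.2 (by omega)
  have key : ∀ (p i j : Fin m) (a : R), i ≠ j → ((m : K)⁻¹ • PT.hh N p) * N i j a -
      N i j a * ((m : K)⁻¹ • PT.hh N p) =
      (((if p = i then 1 else 0) - (if p = j then 1 else 0)) : K) • N i j a := by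
    intro p i j a hij
    rw [smul_mul_assoc, mul_smul_comm, ← smul_sub, ← Ring.lie_def, PT.hh_br hm h hij, smul_smul,
      inv_mul_cancel_left₀ hm0]
  refine ⟨fun p => (m : K)⁻¹ • PT.hh N p, fun i j a hij => ?_, fun i j a hij => ?_,
    fun i j k a hij hki hkj => ?_, fun i j => ?_⟩
  · rw [key i i j a hij, if_pos rfl, if_neg hij, sub_zero, one_smul]
  · rw [key j i j a hij, if_pos rfl, if_neg (Ne.symm hij), zero_sub, neg_one_smul]
  · have := key k i j a hij
    rw [if_neg hki, if_neg hkj, sub_zero, zero_smul] at this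
    exact sub_eq_zero.1 this
  · have := PT.hh_comm hm h i j
    rw [Ring.lie_def, sub_eq_zero] at this
    simp only [smul_mul_assoc, mul_smul_comm]
    rw [this]

end Pool.Agent.T2h61.PR
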