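import Pool.Agent.T2h61.PR.Stm
import Pool.Agent.T2h77N.Gen

/-!
# `p`-adic representations from finite quotients (helper4), tasks PAD and INF
-/

set_option autoImplicit false
set_option linter.all false

namespace Pool.Agent.T2h61.PR

open Matrix Filter Topology

namespace Pad

variable {n q : ℕ} [hq : Fact q.Prime]

instance (s : ℕ) : NeZero (q ^ s) := ⟨pow_ne_zero _ hq.out.ne_zero⟩

/-- reduction from level `t` to level `s` (trivial if `t < s`) -/
noncomputable def redm (n q : ℕ) [Fact q.Prime] {s t : ℕ} (h : s ≤ t) :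
    SLn n (ZMod (q ^ t)) →* SLn n (ZMod (q ^ s)) :=
  SpecialLinearGroup.map (ZMod.castHom (pow_dvd_pow q h) (ZMod (q ^ s)))

theorem redm_surj {s t : ℕ} (h : s ≤ t) : Function.Surjective (redm n q h) := by
  intro x
  obtain ⟨y, hy⟩ := Pool.Agent.T2h77.N.surj n (q ^ s) x
  refine ⟨SpecialLinearGroup.map (Int.castRingHom _) y, ?_⟩
  rw [← hy]
  apply Subtype.ext
  ext i j
  show (ZMod.castHom (pow_dvd_pow q h) (ZMod (q ^ s))) ((y.1 i j : ℤ) : ZMod (q ^ t)) =
    ((y.1 i j : ℤ) : ZMod (q ^ s))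
  rw [map_intCast]

/-- a lift of residues -/
noncomputable def lft (s : ℕ) (x : ZMod (q ^ s)) : ℤ_[q] := ((x.val : ℕ) : ℤ_[q])

theorem lft_spec (s : ℕ) (x : ZMod (q ^ s)) : PadicInt.toZModPow s (lft s x) = x := by
  unfold lft
  rw [map_natCast, ZMod.natCast_zmod_val]

/-- residue classes are open -/
theorem nhds_class (s : ℕ) (x : ℤ_[q]) :
    {y : ℤ_[q] | PadicInt.toZModPow s y = PadicInt.toZModPow s x} ∈ 𝓝 x := by
  have h : Metric.ball x ((q : ℝ) ^ (-(s : ℤ) + 1)) ⊆
      {y : ℤ_[q] | PadicInt.toZModPow s y = PadicInt.toZModPow s x} := by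
    intro y hy
    rw [Metric.mem_ball, dist_eq_norm] at hy
    have h1 : ‖y - x‖ ≤ (q : ℝ) ^ (-(s : ℤ)) := by
      rw [PadicInt.norm_le_pow_iff_norm_lt_pow_add_one]
      exact hy
    rw [PadicInt.norm_le_pow_iff_mem_span_pow, ← PadicInt.ker_toZModPow, RingHom.mem_ker,
      map_sub, sub_eq_zero] at h1
    exact h1
  refine Filter.mem_of_superset (Metric.ball_mem_nhds x ?_) h
  have : (0 : ℝ) < q := by exact_mod_cast hq.out.pos
  positivity

section lim

variable {Λ : Type} [Group Λ] (f : ∀ s : ℕ, Λ →* SLn n (ZMod (q ^ s)))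

/-- the limit matrix -/
noncomputable def F (l : Λ) : Matrix (Fin n) (Fin n) ℤ_[q] := fun i j =>
  (Ultrafilter.map (fun s => lft s ((f s l).1 i j)) (hyperfilter ℕ)).lim

theorem ev_entry (l : Λ) (s : ℕ) (i j : Fin n) : ∀ᶠ t in (hyperfilter ℕ : Filter ℕ),
    PadicInt.toZModPow s (lft t ((f t l).1 i j)) = PadicInt.toZModPow s (F f l i j) := by
  have h := Ultrafilter.le_nhds_lim
    (Ultrafilter.map (fun s => lft s ((f s l).1 i j)) (hyperfilter ℕ))
  have h2 := h (nhds_class s (F f l i j))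
  exact h2

theorem ev_ge (s : ℕ) : ∀ᶠ t in (hyperfilter ℕ : Filter ℕ), s ≤ t := by
  have h : (hyperfilter ℕ : Filter ℕ) ≤ atTop := by
    rw [← Nat.cofinite_eq_atTop]
    exact hyperfilter_le_cofinite
  exact h (eventually_ge_atTop s)

theorem ev_mat (l : Λ) (s : ℕ) : ∀ᶠ t in (hyperfilter ℕ : Filter ℕ), ∃ h : s ≤ t,
    (F f l).map (PadicInt.toZModPow s) = (redm n q h (f t l)).1 := by
  have h1 : ∀ᶠ t in (hyperfilter ℕ : Filter ℕ), ∀ i j : Fin n,
      PadicInt.toZModPow s (lft t ((f t l).1 i j)) = PadicInt.toZModPow s (F f l i j) := by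
    rw [eventually_all]
    intro i
    rw [eventually_all]
    intro j
    exact ev_entry f l s i j
  filter_upwards [h1, ev_ge s] with t ht hst
  refine ⟨hst, ?_⟩
  ext i j
  rw [Matrix.map_apply, ← ht i j]
  show _ = (ZMod.castHom (pow_dvd_pow q hst) (ZMod (q ^ s))) ((f t l).1 i j)
  conv_rhs => rw [← lft_spec t ((f t l).1 i j)]
  rw [← PadicInt.zmod_cast_comp_toZModPow s t hst]
  rfl

theorem F_mul (l l' : Λ) : F f (l * l') = F f l * F f l' := by
  ext i j
  rw [← PadicInt.ext_of_toZModPow]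
  intro s
  obtain ⟨t, ⟨h1, e1⟩, ⟨h2, e2⟩, ⟨h3, e3⟩⟩ :=
    ((ev_mat f (l * l') s).and ((ev_mat f l s).and (ev_mat f l' s))).exists
  have h : (F f (l * l')).map (PadicInt.toZModPow s) =
      (F f l * F f l').map (PadicInt.toZModPow s) := by
    rw [Matrix.map_mul, e1, e2, e3, map_mul, map_mul]
    rfl
  exact congrFun (congrFun h i) j

theorem F_det (l : Λ) : (F f l).det = 1 := by
  rw [← PadicInt.ext_of_toZModPow]
  intro s
  obtain ⟨t, h1, e1⟩ := (ev_mat f l s).exists
  rw [map_one, RingHom.map_det]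
  have : (PadicInt.toZModPow s).mapMatrix (F f l) = (F f l).map (PadicInt.toZModPow s) := rfl
  rw [this, e1]
  exact (redm n q h1 (f t l)).2

/-- the limit homomorphism -/
noncomputable def rho : Λ →* SLn n ℤ_[q] :=
  MonoidHom.mk' (fun l => ⟨F f l, F_det f l⟩) (by
    intro a b
    apply Subtype.ext
    exact F_mul f a b)

theorem rho_surj (hfg : Group.FG Λ) (hf : ∀ s, Function.Surjective (f s)) : Dn (rho f) := by
  intro s
  obtain ⟨S, hS⟩ := Group.fg_iff.1 hfg
  obtain ⟨hS1, hS2⟩ := hS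
  have hev : ∀ᶠ t in (hyperfilter ℕ : Filter ℕ), ∀ l ∈ S, ∃ h : s ≤ t,
      (F f l).map (PadicInt.toZModPow s) = (redm n q h (f t l)).1 := by
    rw [hS2.eventually_all]
    intro l _
    exact ev_mat f l s
  obtain ⟨t, ht, hst⟩ := (hev.and (ev_ge s)).exists
  have heq : (Matrix.SpecialLinearGroup.map (n := Fin n) (PadicInt.toZModPow (p := q) s)).comp
      (rho f) = (redm n q hst).comp (f t) := by
    apply MonoidHom.eq_of_eqOn_dense hS1
    intro l hl
    obtain ⟨h, e⟩ := ht l hl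
    apply Subtype.ext
    exact e
  rw [heq]
  exact (redm_surj hst).comp (hf t)

end lim

end Pad

theorem pad : S_PAD := by
  intro n hn Λ _ hfg hΛ q hq
  have h : ∀ s : ℕ, ∃ f : Λ →* SLn n (ZMod (q ^ s)), Function.Surjective f := by
    intro s
    have : Finite (SLn n (ZMod (q ^ s))) := by
      have : Finite (Matrix (Fin n) (Fin n) (ZMod (q ^ s))) := inferInstance
      exact Subtype.finite
    exact (hΛ _).2 ⟨_, Pool.Agent.T2h77.N.surj n (q ^ s)⟩
  choose f hf using h
  exact ⟨Pad.rho f, Pad.rho_surj f hfg hf⟩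

end Pool.Agent.T2h61.PR
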