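import Pool.Agent.T2h61.PR.Stm

/-!
# (BETA)
-/

set_option autoImplicit false

namespace Pool.Agent.T2h61.PR.BETA

open Matrix Pool.Agent.Helper58.K2

section
variable {m : ℕ} {R G : Type} [Ring R] [Group G] {X : Fin m → Fin m → R → G}

theorem third (hm : 3 ≤ m) (i j : Fin m) : ∃ k : Fin m, k ≠ i ∧ k ≠ j := by
  by_contra hcon
  push Not at hcon
  have h1 : (Finset.univ : Finset (Fin m)) ⊆ {i, j} := by
    intro k _
    by_cases hk : k = i
    · simp [hk]
    · simp [hcon k hk]
  have h2 := Finset.card_le_card h1
  have h3 : ({i, j} : Finset (Fin m)).card ≤ 2 := Finset.card_le_two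
  rw [Finset.card_univ, Fintype.card_fin] at h2
  omega

theorem ruleR (h : SR X) (a : R) {i j k : Fin m} (hij : i ≠ j) (hjk : j ≠ k) (hik : i ≠ k)
    (h1 : X i j a = 1) : X i k a = 1 := by
  have := h.comm i j k hij hjk hik a 1
  rw [mul_one, h1] at this
  rw [← this]; group

theorem ruleL (h : SR X) (a : R) {i j k : Fin m} (hij : i ≠ j) (hki : k ≠ i) (hkj : k ≠ j)
    (h1 : X i j a = 1) : X k j a = 1 := by
  have := h.comm k i j hki hij hkj 1 a
  rw [one_mul, h1] at this
  rw [← this]; group

theorem all_one (hm : 3 ≤ m) (h : SR X) (a : R) {p q : Fin m} (hpq : p ≠ q) (h1 : X p q a = 1)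
    (i j : Fin m) : X i j a = 1 := by
  have hA : ∀ k, k ≠ p → X p k a = 1 := by
    intro k hk
    by_cases hkq : k = q
    · rw [hkq]; exact h1
    · exact ruleR h a hpq (Ne.symm hkq) (Ne.symm hk) h1
  have hB : ∀ i j, i ≠ j → j ≠ p → X i j a = 1 := by
    intro i j hij hjp
    by_cases hip : i = p
    · rw [hip]; exact hA j hjp
    · exact ruleL h a (Ne.symm hjp) hip hij (hA j hjp)
  by_cases hij : i = j
  · rw [hij]; exact h.diag j a
  by_cases hjp : j = p
  · obtain ⟨k, hk1, hk2⟩ := third hm i p
    have := hB i k (Ne.symm hk1) hk2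
    rw [hjp]
    exact ruleR h a (Ne.symm hk1) hk2 (fun hh => hij (hh.trans hjp.symm)) this
  · exact hB i j hij hjp

/-- The congruence of elements acting in the same way. -/
def con (hm : 3 ≤ m) (h : SR X) : RingCon R where
  r a b := ∀ i j, X i j a = X i j b
  iseqv := ⟨fun _ _ _ => rfl, fun h i j => (h i j).symm, fun h1 h2 i j => (h1 i j).trans (h2 i j)⟩
  add' := by
    intro a b c d h1 h2 i j
    rw [h.add, h.add, h1, h2]
  mul' := by
    intro a b c d h1 h2 i j
    by_cases hij : i = j
    · rw [hij, h.diag, h.diag]
    · obtain ⟨k, hk1, hk2⟩ := third hm i j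
      rw [← h.comm i k j (Ne.symm hk1) hk2 hij, ← h.comm i k j (Ne.symm hk1) hk2 hij, h1, h2]

end

end Pool.Agent.T2h61.PR.BETA

namespace Pool.Agent.T2h61.PR

open Matrix Pool.Agent.Helper58.K2

theorem beta (hAB : S_AB) (hFIN : S_FIN) : S_BETA := by
  intro m n hm K _ _ R _ X hX M hM hXM
  classical
  let p : Fin m := ⟨0, by omega⟩
  let q : Fin m := ⟨1, by omega⟩
  have hpq : p ≠ q := by
    intro h
    have := congrArg Fin.val h
    simp [p, q] at this
  have hTfin : (Set.range (X p q)).Finite := by
    apply hAB n K M hM
    · rintro _ ⟨a, rfl⟩ _ ⟨b, rfl⟩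
      exact hX.comm' p q a b
    · rintro _ ⟨a, rfl⟩
      exact hXM p q a
  let c := BETA.con hm hX
  let A := c.Quotient
  let Y : Fin m → Fin m → A → (Mn n K)ˣ := fun i j => Quotient.lift (X i j) (fun a b hab => hab i j)
  have hAfin : Finite A := by
    have : Finite (Set.range (X p q)) := hTfin.to_subtype
    let F : A → Set.range (X p q) := fun a => ⟨Y p q a, by
      induction a using Quotient.inductionOn with
      | h a => exact ⟨a, rfl⟩⟩
    apply Finite.of_injective F
    intro a b hab
    induction a using Quotient.inductionOn with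
    | h a =>
    induction b using Quotient.inductionOn with
    | h b =>
    have h1 : X p q a = X p q b := congrArg Subtype.val hab
    apply Quotient.sound
    have h2 : X p q (a - b) = 1 := by
      rw [sub_eq_add_neg, hX.add, hX.neg, h1, mul_inv_cancel]
    intro i j
    have h3 := BETA.all_one hm hX (a - b) hpq h2 i j
    rw [sub_eq_add_neg, hX.add, hX.neg, mul_inv_eq_one] at h3
    exact h3
  have hY : SR Y := by
    constructor
    · intro i a
      induction a using Quotient.inductionOn with
      | h a => exact hX.diag i a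
    · intro i j a b
      induction a using Quotient.inductionOn with
      | h a =>
      induction b using Quotient.inductionOn with
      | h b => exact hX.add i j a b
    · intro i j k hij hjk hik a b
      induction a using Quotient.inductionOn with
      | h a =>
      induction b using Quotient.inductionOn with
      | h b => exact hX.comm i j k hij hjk hik a b
    · intro i j k l hjk hil a b
      induction a using Quotient.inductionOn with
      | h a =>
      induction b using Quotient.inductionOn with
      | h b => exact hX.commute i j k l hjk hil a b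
  have hSt : Finite (St (Fin m) A) := hFIN m hm A
  have hrange : Finite (lift hY).range := (Set.finite_range (lift hY)).to_subtype
  have hle : Subgroup.closure {g | ∃ i j a, g = X i j a} ≤ (lift hY).range := by
    rw [Subgroup.closure_le]
    rintro _ ⟨i, j, a, rfl⟩
    exact ⟨x i j (a : A), by rw [lift_x]; rfl⟩
  have : ((lift hY).range : Set (Mn n K)ˣ).Finite := Set.toFinite _
  exact this.subset hle

end Pool.Agent.T2h61.PR
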