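import Pool.Agent.T2h61.PR.Stm

/-!
# Invariance of the span (task INV, helper25)
-/

set_option autoImplicit false

namespace Pool.Agent.T2h61.PR.InvT

open Finset

attribute [local instance 100] LieRing.ofAssociativeRing

section
variable {m n : ℕ} {R K : Type} [Ring R] [Field K] {N : Fin m → Fin m → R → Mn n K}

theorem N0 (h : LR N) {i j : Fin m} (hij : i ≠ j) : N i j 0 = 0 := by
  have := h.add i j 0 0 hij
  rw [add_zero] at this
  exact left_eq_add.1 this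

theorem Nneg (h : LR N) {i j : Fin m} (hij : i ≠ j) (a : R) : N i j (-a) = - N i j a := by
  have := h.add i j (-a) a hij
  rw [neg_add_cancel, N0 h hij] at this
  exact eq_neg_of_add_eq_zero_left this.symm

theorem third (hm : 3 ≤ m) (i j : Fin m) : ∃ l, j ≠ l ∧ i ≠ l := by
  have h1 : ({i, j} : Finset (Fin m)).card < (univ : Finset (Fin m)).card := by
    rw [card_univ, Fintype.card_fin]
    exact lt_of_le_of_lt (card_le_two) (by omega)
  obtain ⟨l, -, hl⟩ := exists_mem_notMem_of_card_lt_card h1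
  simp only [mem_insert, mem_singleton, not_or] at hl
  exact ⟨l, fun h => hl.2 h.symm, fun h => hl.1 h.symm⟩

/-- brackets of elements which are not opposite -/
theorem bra (h : LR N) {i j k l : Fin m} (hij : i ≠ j) (hkl : k ≠ l) (hno : ¬ (j = k ∧ i = l))
    (a b : R) : ∃ i' j' c, i' ≠ j' ∧ ⁅N i j a, N k l b⁆ = N i' j' c := by
  by_cases hjk : j = k
  · subst hjk
    have hil : i ≠ l := fun h => hno ⟨rfl, h⟩
    exact ⟨i, l, a * b, hil, by rw [Ring.lie_def]; exact h.comm i j l hij hkl hil a b⟩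
  by_cases hil : i = l
  · subst hil
    refine ⟨k, j, -(b * a), fun h => hjk h.symm, ?_⟩
    rw [Nneg h (fun h => hjk h.symm), ← h.comm k i j hkl hij (fun h => hjk h.symm) b a,
      Ring.lie_def, neg_sub]
  · refine ⟨i, j, 0, hij, ?_⟩
    rw [Ring.lie_def, h.commute i j k l hij hkl hjk hil, sub_self, N0 h hij]

theorem N_mem {i j : Fin m} (hij : i ≠ j) (a : R) : N i j a ∈ Lsp N :=
  Submodule.subset_span (Or.inl ⟨i, j, a, hij, rfl⟩)

theorem D_mem {i j : Fin m} (hij : i ≠ j) (a b : R) : ⁅N i j a, N j i b⁆ ∈ Lsp N :=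
  Submodule.subset_span (Or.inr ⟨i, j, a, b, hij, rfl⟩)

theorem NN_mem (h : LR N) {i j k l : Fin m} (hij : i ≠ j) (hkl : k ≠ l) (a b : R) :
    ⁅N i j a, N k l b⁆ ∈ Lsp N := by
  by_cases hno : j = k ∧ i = l
  · obtain ⟨rfl, rfl⟩ := hno
    exact D_mem hij a b
  · obtain ⟨i', j', c, h1, h2⟩ := bra h hij hkl hno a b
    rw [h2]
    exact N_mem h1 c

theorem br (h : LR N) {i j k : Fin m} (h1 : i ≠ j) (h2 : j ≠ k) (h3 : i ≠ k) (a b : R) :
    ⁅N i j a, N j k b⁆ = N i k (a * b) := by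
  rw [Ring.lie_def]; exact h.comm i j k h1 h2 h3 a b

theorem br' (h : LR N) {i j k : Fin m} (h1 : i ≠ j) (h2 : j ≠ k) (h3 : i ≠ k) (a b : R) :
    ⁅N j k b, N i j a⁆ = - N i k (a * b) := by
  rw [← lie_skew, br h h1 h2 h3]

theorem br0 (h : LR N) {i j k l : Fin m} (h1 : i ≠ j) (h2 : k ≠ l) (h3 : j ≠ k) (h4 : i ≠ l)
    (a b : R) : ⁅N i j a, N k l b⁆ = 0 := by
  rw [Ring.lie_def, h.commute i j k l h1 h2 h3 h4, sub_self]

theorem E_mem (hm : 3 ≤ m) (h : LR N) {i j : Fin m} (hij : i ≠ j) (b c a : R) :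
    ⁅⁅N i j b, N j i c⁆, N i j a⁆ ∈ Lsp N := by
  obtain ⟨p, hjp, hip⟩ := third hm i j
  have e : N i j a = ⁅N i p 1, N p j a⁆ := by rw [br h hip hjp.symm hij, one_mul]
  have e1 : ⁅⁅N i j b, N j i c⁆, N i p 1⁆ = N i p (b * (c * 1)) := by
    rw [lie_lie, br h hij.symm hip hjp, br h hij hjp hip, br0 h hij hip hij.symm hip, lie_zero,
      sub_zero]
  have e2 : ⁅⁅N i j b, N j i c⁆, N p j a⁆ = N p j (a * c * b) := by
    rw [lie_lie, br' h hjp.symm hij.symm hip.symm, lie_neg, br' h hip.symm hij hjp.symm,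
      neg_neg, br0 h hij hjp.symm hjp hij, lie_zero, sub_zero]
  rw [e, leibniz_lie, e1, e2]
  exact Submodule.add_mem _ (NN_mem h hip hjp.symm _ _) (NN_mem h hip hjp.symm _ _)

theorem DN_mem (hm : 3 ≤ m) (h : LR N) {i j k l : Fin m} (hkl : k ≠ l) (hij : i ≠ j) (b c a : R) :
    ⁅⁅N k l b, N l k c⁆, N i j a⁆ ∈ Lsp N := by
  by_cases h1 : k = i ∧ l = j
  · obtain ⟨rfl, rfl⟩ := h1
    exact E_mem hm h hkl b c a
  by_cases h2 : l = i ∧ k = j
  · obtain ⟨rfl, rfl⟩ := h2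
    rw [← lie_skew (N k l b) (N l k c), neg_lie]
    exact Submodule.neg_mem _ (E_mem hm h hij c b a)
  obtain ⟨i1, j1, a1, k1, e1⟩ := bra h (Ne.symm hkl) hij h1 c a
  obtain ⟨i2, j2, a2, k2, e2⟩ := bra h hkl hij h2 b a
  rw [lie_lie, e1, e2]
  exact Submodule.sub_mem _ (NN_mem h hkl k1 _ _) (NN_mem h (Ne.symm hkl) k2 _ _)

theorem LN_mem (hm : 3 ≤ m) (h : LR N) {w : Mn n K} (hw : w ∈ Lsp N) {i j : Fin m} (hij : i ≠ j)
    (a : R) : ⁅w, N i j a⁆ ∈ Lsp N := by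
  refine Submodule.span_induction (p := fun w _ => ⁅w, N i j a⁆ ∈ Lsp N) ?_ ?_ ?_ ?_ hw
  · rintro w (⟨k, l, b, hkl, rfl⟩ | ⟨k, l, b, c, hkl, rfl⟩)
    · exact NN_mem h hkl hij b a
    · exact DN_mem hm h hkl hij b c a
  · rw [zero_lie]; exact Submodule.zero_mem _
  · intro x y _ _ hx hy
    rw [add_lie]; exact Submodule.add_mem _ hx hy
  · intro t x _ hx
    have : ⁅t • x, N i j a⁆ = t • ⁅x, N i j a⁆ := by
      rw [Ring.lie_def, Ring.lie_def, smul_mul_assoc, mul_smul_comm, smul_sub]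
    rw [this]; exact Submodule.smul_mem _ _ hx

theorem LL_mem (hm : 3 ≤ m) (h : LR N) {w v : Mn n K} (hw : w ∈ Lsp N) (hv : v ∈ Lsp N) :
    ⁅w, v⁆ ∈ Lsp N := by
  refine Submodule.span_induction (p := fun v _ => ⁅w, v⁆ ∈ Lsp N) ?_ ?_ ?_ ?_ hv
  · rintro v (⟨k, l, b, hkl, rfl⟩ | ⟨k, l, b, c, hkl, rfl⟩)
    · exact LN_mem hm h hw hkl b
    · have e : ⁅w, N k l b * N l k c - N l k c * N k l b⁆ =
          ⁅⁅w, N k l b⁆, N l k c⁆ - ⁅⁅w, N l k c⁆, N k l b⁆ := by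
        rw [← Ring.lie_def (N k l b), leibniz_lie, ← lie_skew (N k l b) ⁅w, N l k c⁆]
        abel
      change ⁅w, N k l b * N l k c - N l k c * N k l b⁆ ∈ Lsp N
      rw [e]
      exact Submodule.sub_mem _ (LN_mem hm h (LN_mem hm h hw hkl b) hkl.symm c)
        (LN_mem hm h (LN_mem hm h hw hkl.symm c) hkl b)
  · rw [lie_zero]; exact Submodule.zero_mem _
  · intro x y _ _ hx hy
    rw [lie_add]; exact Submodule.add_mem _ hx hy
  · intro t x _ hx
    have : ⁅w, t • x⁆ = t • ⁅w, x⁆ := by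
      rw [Ring.lie_def, Ring.lie_def, smul_mul_assoc, mul_smul_comm, smul_sub]
    rw [this]; exact Submodule.smul_mem _ _ hx

/-- conjugation -/
def cj (g : (Mn n K)ˣ) (w : Mn n K) : Mn n K := (g : Mn n K) * w * ((g⁻¹ : (Mn n K)ˣ) : Mn n K)

theorem cj_lie (g : (Mn n K)ˣ) (v w : Mn n K) : cj g ⁅v, w⁆ = ⁅cj g v, cj g w⁆ := by
  unfold cj
  rw [Ring.lie_def, Ring.lie_def]
  have e : ∀ v w : Mn n K, (g : Mn n K) * v * ((g⁻¹ : (Mn n K)ˣ) : Mn n K) *
      ((g : Mn n K) * w * ((g⁻¹ : (Mn n K)ˣ) : Mn n K)) =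
      (g : Mn n K) * (v * w) * ((g⁻¹ : (Mn n K)ˣ) : Mn n K) := by
    intro v w
    simp only [mul_assoc, Units.inv_mul_cancel_left]
  rw [e, e, mul_sub, sub_mul]

theorem cjN (hm : 3 ≤ m) (h : LR N) {X : Fin m → Fin m → R → (Mn n K)ˣ} (hX : XN X N)
    {i j k l : Fin m} (hij : i ≠ j) (hkl : k ≠ l) (a b : R) : cj (X i j a) (N k l b) ∈ Lsp N := by
  by_cases h1 : j = k
  · subst h1
    by_cases h2 : i = l
    · subst h2
      obtain ⟨p, hjp, hip⟩ := third hm i j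
      have e : N j i b = ⁅N j p b, N p i 1⁆ := by rw [br h hjp hip.symm hkl, mul_one]
      rw [e, cj_lie]
      refine LL_mem hm h ?_ ?_
      · unfold cj
        rw [hX.left i j p hij hjp hip]
        exact Submodule.add_mem _ (N_mem hjp _) (N_mem hip _)
      · unfold cj
        rw [hX.right i j p hij hip.symm hjp.symm]
        exact Submodule.sub_mem _ (N_mem hip.symm _) (N_mem hjp.symm _)
    · unfold cj
      rw [hX.left i j l hij hkl h2]
      exact Submodule.add_mem _ (N_mem hkl _) (N_mem h2 _)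
  · by_cases h2 : i = l
    · subst h2
      unfold cj
      rw [hX.right i j k hij hkl (Ne.symm h1)]
      exact Submodule.sub_mem _ (N_mem hkl _) (N_mem (Ne.symm h1) _)
    · unfold cj
      rw [hX.fix i j k l hij hkl h1 h2]
      exact N_mem hkl _

end

end Pool.Agent.T2h61.PR.InvT

namespace Pool.Agent.T2h61.PR

attribute [local instance 100] LieRing.ofAssociativeRing

theorem inv : S_INV := by
  intro m n hm K _ _ R _ X N h hX i j a hij w hw
  change InvT.cj (X i j a) w ∈ Lsp N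
  refine Submodule.span_induction (p := fun w _ => InvT.cj (X i j a) w ∈ Lsp N) ?_ ?_ ?_ ?_ hw
  · rintro w (⟨k, l, b, hkl, rfl⟩ | ⟨k, l, b, c, hkl, rfl⟩)
    · exact InvT.cjN hm h hX hij hkl a b
    · change InvT.cj (X i j a) ⁅N k l b, N l k c⁆ ∈ Lsp N
      rw [InvT.cj_lie]
      exact InvT.LL_mem hm h (InvT.cjN hm h hX hij hkl a b) (InvT.cjN hm h hX hij hkl.symm a c)
  · unfold InvT.cj
    rw [mul_zero, zero_mul]; exact Submodule.zero_mem _
  · intro x y _ _ hx hy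
    unfold InvT.cj at hx hy ⊢
    rw [mul_add, add_mul]; exact Submodule.add_mem _ hx hy
  · intro t x _ hx
    unfold InvT.cj at hx ⊢
    rw [mul_smul_comm, smul_mul_assoc]; exact Submodule.smul_mem _ _ hx

end Pool.Agent.T2h61.PR
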