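import Pool.Agent.T2h61.PR.Stm

/-!
# The logarithm of unipotent matrices (task LOG, helper25)
-/

set_option autoImplicit false

namespace Pool.Agent.T2h61.PR.LogT

open Finset Polynomial

section gen
variable {K A : Type*} [Field K] [CharZero K] [Ring A] [Algebra K A]

/-- the truncated logarithm of `1 + x` -/
noncomputable def LL (K : Type*) {A : Type*} [Field K] [Ring A] [Algebra K A] (N : ℕ) (x : A) : A :=
  ∑ k ∈ range N, ((-1 : K) ^ k / ((k : K) + 1)) • x ^ (k + 1)

/-- the geometric series -/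
theorem geom (N : ℕ) (x : A) (hx : x ^ N = 0) : (∑ k ∈ range N, (-x) ^ k) * (1 + x) = 1 := by
  have h := geom_sum_mul_neg (-x) N
  rw [sub_neg_eq_add, neg_pow, hx, mul_zero, sub_zero] at h
  exact h

omit [CharZero K] in
theorem LL_stable {N M : ℕ} (hNM : N ≤ M) (x : A) (hx : x ^ N = 0) : LL K M x = LL K N x := by
  unfold LL
  symm
  refine sum_subset (range_mono hNM) fun k _ hk => ?_
  rw [mem_range, not_lt] at hk
  have : x ^ (k + 1) = 0 := pow_eq_zero_of_le (by omega) hx
  rw [this, smul_zero]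

end gen

section comm
variable {K B : Type*} [Field K] [CharZero K] [CommRing B] [Algebra K B]

theorem deriv_LL (N : ℕ) (z : B[X]) : derivative (LL K N z) =
    (∑ k ∈ range N, (-z) ^ k) * derivative z := by
  unfold LL
  rw [derivative_sum, sum_mul]
  refine sum_congr rfl fun k _ => ?_
  rw [derivative_smul, derivative_pow]
  have hk : ((k : K) + 1) ≠ 0 := Nat.cast_add_one_ne_zero k
  rw [Nat.add_sub_cancel, ← smul_mul_assoc]
  congr 1
  have e : (C (((k + 1 : ℕ) : B)) : B[X]) = algebraMap K B[X] ((k : K) + 1) := by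
    push_cast
    simp
  rw [e, ← Algebra.smul_def, smul_smul, div_mul_cancel₀ _ hk, neg_pow z, Algebra.smul_def]
  simp

/-- The logarithm of a product, in commutative rings. -/
theorem LL_mul (x y : B) (hx : IsNilpotent x) (hy : IsNilpotent y) : ∃ M₀ : ℕ, ∀ M, M₀ ≤ M →
    LL K M (x + y + x * y) = LL K M x + LL K M y := by
  have hx' : IsNilpotent (X * C x : B[X]) := by
    obtain ⟨n, hn⟩ := hx
    exact ⟨n, by rw [mul_pow, ← C_pow, hn, C_0, mul_zero]⟩
  have hy' : IsNilpotent (X * C y : B[X]) := by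
    obtain ⟨n, hn⟩ := hy
    exact ⟨n, by rw [mul_pow, ← C_pow, hn, C_0, mul_zero]⟩
  obtain ⟨z, hz⟩ : ∃ z : B[X], z = X * C x + X * C y + X * C x * (X * C y) := ⟨_, rfl⟩
  have hzn : IsNilpotent z := by
    rw [hz]
    exact Commute.isNilpotent_add (Commute.all _ _)
      (Commute.isNilpotent_add (Commute.all _ _) hx' hy') (Commute.isNilpotent_mul_right
        (Commute.all _ _) hx')
  obtain ⟨n1, h1⟩ := hx'
  obtain ⟨n2, h2⟩ := hy'
  obtain ⟨n3, h3⟩ := hzn
  refine ⟨n1 + n2 + n3, fun M hM => ?_⟩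
  have k1 : (X * C x : B[X]) ^ M = 0 := pow_eq_zero_of_le (by omega) h1
  have k2 : (X * C y : B[X]) ^ M = 0 := pow_eq_zero_of_le (by omega) h2
  have k3 : z ^ M = 0 := pow_eq_zero_of_le (by omega) h3
  obtain ⟨f, hf⟩ : ∃ f : B[X], f = LL K M z - LL K M (X * C x) - LL K M (X * C y) := ⟨_, rfl⟩
  have g1 := geom M _ k1
  have g2 := geom M _ k2
  have g3 := geom M _ k3
  have hu : IsUnit (1 + z) := IsUnit.of_mul_eq_one _ (by rw [mul_comm]; exact g3)
  have hdf : derivative f = 0 := by
    have hd : (1 + z) * derivative f = 0 := by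
      rw [hf, derivative_sub, derivative_sub, deriv_LL, deriv_LL, deriv_LL]
      have d1 : derivative (X * C x : B[X]) = C x := by simp
      have d2 : derivative (X * C y : B[X]) = C y := by simp
      have d3 : derivative z = C x * (1 + X * C y) + C y * (1 + X * C x) := by
        rw [hz, derivative_add, derivative_add, derivative_mul (f := X * C x) (g := X * C y), d1, d2]
        ring
      have hz' : 1 + z = (1 + X * C x) * (1 + X * C y) := by rw [hz]; ring
      rw [d1, d2, d3]
      have : (1 + z) * ((∑ k ∈ range M, (-z) ^ k) * (C x * (1 + X * C y) + C y * (1 + X * C x)) -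
          (∑ k ∈ range M, (-(X * C x)) ^ k) * C x - (∑ k ∈ range M, (-(X * C y)) ^ k) * C y) =
          ((∑ k ∈ range M, (-z) ^ k) * (1 + z)) * (C x * (1 + X * C y) + C y * (1 + X * C x)) -
          ((∑ k ∈ range M, (-(X * C x)) ^ k) * (1 + X * C x)) * ((1 + X * C y) * C x) -
          ((∑ k ∈ range M, (-(X * C y)) ^ k) * (1 + X * C y)) * ((1 + X * C x) * C y) := by
        rw [hz']; ring
      rw [this, g1, g2, g3]
      ring
    exact (hu.mul_right_eq_zero).1 hd
  have hinst : IsAddTorsionFree B := by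
    have := Module.IsTorsionFree.trans_faithfulSMul ℤ K B
    exact IsAddTorsionFree.of_isTorsionFree ℤ B
  have hc := eq_C_of_derivative_eq_zero hdf
  have hev : ∀ t : B, eval t f = LL K M (eval t z) - LL K M (t * x) - LL K M (t * y) := by
    intro t
    rw [hf]
    unfold LL
    simp only [eval_sub, eval_finsetSum, eval_smul, eval_pow, eval_mul, eval_X, eval_C]
  have e0 : eval 0 f = 0 := by
    rw [hev, hz]
    unfold LL
    simp
  have e1 : eval 1 f = 0 := by
    rw [hc, eval_C] at e0 ⊢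
    exact e0
  rw [hev, hz] at e1
  simp only [eval_add, eval_mul, eval_X, eval_C, one_mul] at e1
  rw [sub_sub, sub_eq_zero] at e1
  exact e1

end comm

section noncomm
variable {K A : Type*} [Field K] [CharZero K] [Ring A] [Algebra K A]

omit [CharZero K] in
theorem map_LL {B : Type*} [Ring B] [Algebra K B] (f : A →ₐ[K] B) (N : ℕ) (x : A) :
    f (LL K N x) = LL K N (f x) := by
  unfold LL
  rw [map_sum]
  refine sum_congr rfl fun k _ => ?_
  rw [map_smul, map_pow]

open scoped IsMulCommutative in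
/-- The logarithm of a product of commuting elements. -/
theorem LL_mul' (x y : A) (hxy : x * y = y * x) (hx : IsNilpotent x) (hy : IsNilpotent y) :
    ∃ M₀ : ℕ, ∀ M, M₀ ≤ M → LL K M (x + y + x * y) = LL K M x + LL K M y := by
  have hc : ∀ a ∈ ({x, y} : Set A), ∀ b ∈ ({x, y} : Set A), a * b = b * a := by
    intro a ha b hb
    simp only [Set.mem_insert_iff, Set.mem_singleton_iff] at ha hb
    rcases ha with rfl | rfl <;> rcases hb with rfl | rfl
    · rfl
    · exact hxy
    · exact hxy.symm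
    · rfl
  have := Algebra.isMulCommutative_adjoin K hc
  obtain ⟨x', hx'⟩ : ∃ x' : Algebra.adjoin K ({x, y} : Set A), (x' : A) = x :=
    ⟨⟨x, Algebra.subset_adjoin (by simp)⟩, rfl⟩
  obtain ⟨y', hy'⟩ : ∃ x' : Algebra.adjoin K ({x, y} : Set A), (x' : A) = y :=
    ⟨⟨y, Algebra.subset_adjoin (by simp)⟩, rfl⟩
  have nx : IsNilpotent x' := by
    obtain ⟨n, hn⟩ := hx
    refine ⟨n, Subtype.ext ?_⟩
    rw [SubmonoidClass.coe_pow, hx', hn]; rfl
  have ny : IsNilpotent y' := by
    obtain ⟨n, hn⟩ := hy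
    refine ⟨n, Subtype.ext ?_⟩
    rw [SubmonoidClass.coe_pow, hy', hn]; rfl
  obtain ⟨M₀, h⟩ := LL_mul (K := K) x' y' nx ny
  refine ⟨M₀, fun M hM => ?_⟩
  have h1 := congrArg (Algebra.adjoin K ({x, y} : Set A)).val (h M hM)
  rw [map_add] at h1
  have h2 := map_LL (Algebra.adjoin K ({x, y} : Set A)).val M (x' + y' + x' * y')
  have h3 := map_LL (Algebra.adjoin K ({x, y} : Set A)).val M x'
  have h4 := map_LL (Algebra.adjoin K ({x, y} : Set A)).val M y'
  rw [map_add, map_add, map_mul] at h2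
  change _ = LL K M ((x' : A) + y' + x' * y') at h2
  change _ = LL K M (x' : A) at h3
  change _ = LL K M (y' : A) at h4
  rw [hx', hy'] at h2
  rw [hx'] at h3
  rw [hy'] at h4
  rw [← h2, ← h3, ← h4]
  exact h1

omit [CharZero K] in
theorem LL_conj (g : Aˣ) (N : ℕ) (x : A) :
    LL K N ((g : A) * x * ((g⁻¹ : Aˣ) : A)) = (g : A) * LL K N x * ((g⁻¹ : Aˣ) : A) := by
  unfold LL
  rw [mul_sum, sum_mul]
  refine sum_congr rfl fun k _ => ?_
  rw [Units.conj_pow, mul_smul_comm, smul_mul_assoc]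

omit [CharZero K] in
theorem LL_comm (N : ℕ) (x y : A) (h : x * y = y * x) : LL K N x * y = y * LL K N x := by
  unfold LL
  rw [mul_sum, sum_mul]
  refine sum_congr rfl fun k _ => ?_
  rw [smul_mul_assoc, mul_smul_comm, (Commute.pow_left (show Commute x y from h) (k + 1)).eq]

/-- The bracket with the logarithm. -/
theorem LL_bracket (N : ℕ) (x V W : A) (hx : x ^ N = 0) (h : (1 + x) * V - V * (1 + x) = W * (1 + x))
    (hW : x * W = W * x) : LL K N x * V - V * LL K N x = W := by
  have hD : x * V - V * x = W * (1 + x) := by rw [← h]; noncomm_ring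
  have hk : ∀ k : ℕ, x ^ (k + 1) * V - V * x ^ (k + 1) = ((k : K) + 1) • (W * (x ^ k * (1 + x))) := by
    intro k
    induction k with
    | zero => simp only [zero_add, pow_one, pow_zero, one_mul, Nat.cast_zero, one_smul]; exact hD
    | succ k ih =>
      have e1 : x ^ (k + 1 + 1) * V - V * x ^ (k + 1 + 1) =
          x * (x ^ (k + 1) * V - V * x ^ (k + 1)) + (x * V - V * x) * x ^ (k + 1) := by
        rw [pow_succ' x (k + 1)]; noncomm_ring
      have c1 : (1 + x) * x ^ (k + 1) = x ^ (k + 1) * (1 + x) := by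
        rw [add_mul, mul_add, one_mul, mul_one, ← pow_succ, ← pow_succ']
      rw [e1, ih, hD, mul_smul_comm, mul_assoc W (1 + x), c1, ← mul_assoc x W, hW, mul_assoc W x,
        ← mul_assoc x (x ^ k), ← pow_succ']
      push_cast
      rw [add_smul ((k : K) + 1) 1, one_smul]
  unfold LL
  rw [sum_mul, mul_sum, ← sum_sub_distrib]
  have e : ∀ k ∈ range N, ((-1 : K) ^ k / ((k : K) + 1)) • x ^ (k + 1) * V -
      V * (((-1 : K) ^ k / ((k : K) + 1)) • x ^ (k + 1)) = W * ((-x) ^ k * (1 + x)) := by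
    intro k _
    have hk0 : ((k : K) + 1) ≠ 0 := Nat.cast_add_one_ne_zero k
    rw [smul_mul_assoc, mul_smul_comm, ← smul_sub, hk, smul_smul, div_mul_cancel₀ _ hk0,
      neg_pow x, mul_assoc, Algebra.smul_def, map_pow, map_neg, map_one]
    have e2 : (-1 : A) ^ k * W = W * (-1 : A) ^ k := ((Commute.neg_one_left W).pow_left k).eq
    rw [← mul_assoc, e2, mul_assoc]
  rw [sum_congr rfl e, ← mul_sum, ← sum_mul, geom N x hx, mul_one]

theorem LL_zero (N : ℕ) (x : A) (hN : 0 < N) (hx : IsNilpotent x) (h : LL K N x = 0) : x = 0 := by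
  obtain ⟨q, hq, hc⟩ : ∃ q : A, LL K N x = x * (1 + x * q) ∧ x * q = q * x := by
    obtain ⟨m, rfl⟩ : ∃ m, N = m + 1 := ⟨N - 1, by omega⟩
    refine ⟨∑ k ∈ range m, ((-1 : K) ^ (k + 1) / (((k + 1 : ℕ) : K) + 1)) • x ^ k, ?_, ?_⟩
    · unfold LL
      rw [sum_range_succ', mul_add, mul_sum, mul_sum, add_comm]
      congr 1
      · simp
      · refine sum_congr rfl fun k _ => ?_
        rw [mul_smul_comm, mul_smul_comm, ← pow_succ', ← pow_succ']
    · rw [mul_sum, sum_mul]
      refine sum_congr rfl fun k _ => ?_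
      rw [mul_smul_comm, smul_mul_assoc, ← pow_succ, ← pow_succ']
  rw [hq] at h
  have hu : IsUnit (1 + x * q) :=
    (Commute.isNilpotent_mul_right (show Commute x q from hc) hx).isUnit_one_add
  exact (hu.mul_left_eq_zero).1 h

end noncomm

section mat
variable {n : ℕ} {K : Type} [Field K] [CharZero K]

omit [CharZero K] in
/-- a nilpotent matrix has `n`-th power zero -/
theorem pow_n (x : Mn n K) (h : IsNilpotent x) : x ^ n = 0 := by
  have h1 : IsNilpotent (Matrix.toLin' x) := by
    obtain ⟨k, hk⟩ := h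
    exact ⟨k, by rw [← Matrix.toLin'_pow, hk, map_zero]⟩
  have h2 := (LinearMap.isNilpotent_iff_charpoly _).1 h1
  have h3 := LinearMap.aeval_self_charpoly (Matrix.toLin' x)
  rw [h2, map_pow, aeval_X, Module.finrank_fin_fun, ← Matrix.toLin'_pow] at h3
  exact (Matrix.toLin'.map_eq_zero_iff).1 h3

/-- the logarithm -/
noncomputable def lg (u : Mn n K) : Mn n K := LL K n (u - 1)

omit [CharZero K] in
theorem lg_eq (u : Mn n K) (hu : Unip u) {M : ℕ} (hM : n ≤ M) : lg u = LL K M (u - 1) :=
  (LL_stable hM _ (pow_n _ hu)).symm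

omit [CharZero K] in
theorem comm_one {a b : Mn n K} (h : a * b = b * a) : Commute (a - 1) (b - 1) :=
  ((show Commute a b from h).sub_left (Commute.one_left b)).sub_right (Commute.one_right _)

omit [CharZero K] in
theorem unip_mul {u v : Mn n K} (hu : Unip u) (hv : Unip v) (h : u * v = v * u) :
    Unip (u * v) := by
  have e : u * v - 1 = (u - 1) * v + (v - 1) := by noncomm_ring
  unfold Unip
  rw [e]
  have c1 : Commute (u - 1) v := (show Commute u v from h).sub_left (Commute.one_left v)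
  have c2 : Commute ((u - 1) * v) (v - 1) :=
    (comm_one h).mul_left ((Commute.refl v).sub_right (Commute.one_right v))
  exact Commute.isNilpotent_add c2 (Commute.isNilpotent_mul_right c1 hu) hv

theorem lg_mul {u v : Mn n K} (hu : Unip u) (hv : Unip v) (h : u * v = v * u) :
    lg (u * v) = lg u + lg v := by
  have c : (u - 1) * (v - 1) = (v - 1) * (u - 1) := (comm_one h).eq
  obtain ⟨M₀, h1⟩ := LL_mul' (K := K) (u - 1) (v - 1) c hu hv
  have h2 := h1 (M₀ + n) (by omega)
  have e : (u - 1) + (v - 1) + (u - 1) * (v - 1) = u * v - 1 := by noncomm_ring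
  rw [e] at h2
  rw [lg_eq (u * v) (unip_mul hu hv h) (M := M₀ + n) (by omega),
    lg_eq u hu (M := M₀ + n) (by omega), lg_eq v hv (M := M₀ + n) (by omega)]
  exact h2

omit [CharZero K] in
theorem lg_conj (g : (Mn n K)ˣ) (u : Mn n K) :
    lg ((g : Mn n K) * u * ((g⁻¹ : (Mn n K)ˣ) : Mn n K)) =
      (g : Mn n K) * lg u * ((g⁻¹ : (Mn n K)ˣ) : Mn n K) := by
  unfold lg
  rw [← LL_conj]
  congr 1
  rw [mul_sub, sub_mul, mul_one, Units.mul_inv]

theorem lg_bracket {u v w : Mn n K} (hu : Unip u) (hv : Unip v) (hw : Unip w)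
    (h : u * v = w * v * u) (h1 : w * u = u * w) (h2 : w * v = v * w) :
    lg u * lg v - lg v * lg u = lg w := by
  have hun : IsUnit u := by
    have := IsNilpotent.isUnit_one_add hu
    rwa [add_sub_cancel] at this
  obtain ⟨g, hg⟩ := hun
  have e1 : (g : Mn n K) * v * ((g⁻¹ : (Mn n K)ˣ) : Mn n K) = w * v := by
    rw [hg, h, ← hg, mul_assoc, Units.mul_inv, mul_one]
  have e2 : (g : Mn n K) * lg v * ((g⁻¹ : (Mn n K)ˣ) : Mn n K) = lg w + lg v := by
    rw [← lg_conj, e1, lg_mul hw hv h2]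
  have e3 : u * lg v = lg w * u + lg v * u := by
    have := congrArg (fun x => x * (g : Mn n K)) e2
    simp only [mul_assoc, Units.inv_mul, mul_one] at this
    rw [hg] at this
    rw [this, add_mul]
  have hc : (u - 1) * lg w = lg w * (u - 1) := by
    have := LL_comm (K := K) n (w - 1) (u - 1) (comm_one h1).eq
    exact this.symm
  refine LL_bracket n (u - 1) (lg v) (lg w) (pow_n _ hu) ?_ hc
  rw [add_sub_cancel, e3]
  abel

theorem lg_zero {u : Mn n K} (hu : Unip u) (h : lg u = 0) : u = 1 := by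
  rcases Nat.eq_zero_or_pos n with rfl | hn
  · exact Subsingleton.elim _ _
  · exact sub_eq_zero.1 (LL_zero n (u - 1) hn hu h)

end mat

end Pool.Agent.T2h61.PR.LogT

namespace Pool.Agent.T2h61.PR

theorem log : S_LOG := fun _ _ _ _ => ⟨LogT.lg, fun _ _ hu hv h => LogT.lg_mul hu hv h,
  fun g u => LogT.lg_conj g u, fun _ _ _ hu hv hw h h1 h2 => LogT.lg_bracket hu hv hw h h1 h2,
  fun _ hu h => LogT.lg_zero hu h⟩

end Pool.Agent.T2h61.PR
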