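import Pool.Agent.T2h61.PR.T_STR

set_option autoImplicit false

namespace Pool.Agent.T2h61.PR

open Matrix

/-- matrix units with coefficients in a ring `R`, over a commutative ring. -/
structure BD {m n : ℕ} {A R : Type} [CommRing A] [Ring R]
    (N : Fin m → Fin m → R → Matrix (Fin n) (Fin n) A) (e : Fin m → Matrix (Fin n) (Fin n) A) :
    Prop where
  idem : ∀ i, e i * e i = e i
  orth : ∀ i j, i ≠ j → e i * e j = 0
  sum : ∑ i, e i = 1
  add : ∀ i j a b, i ≠ j → N i j (a + b) = N i j a + N i j b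
  blk : ∀ i j a, i ≠ j → N i j a = e i * N i j a * e j
  mul : ∀ i j k, i ≠ j → j ≠ k → i ≠ k → ∀ a b, N i j a * N j k b = N i k (a * b)
  inv : ∀ i j, i ≠ j → N i j 1 * N j i 1 = e i

section bd
variable {m n : ℕ} {A B R : Type} [CommRing A] [CommRing B] [Ring R]
  {N : Fin m → Fin m → R → Matrix (Fin n) (Fin n) A} {e : Fin m → Matrix (Fin n) (Fin n) A}

lemma BD.map (h : BD N e) (f : A →+* B) :
    BD (fun i j a => (N i j a).map f) (fun i => (e i).map f) where
  idem i := by rw [← Matrix.map_mul, h.idem]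
  orth i j hij := by rw [← Matrix.map_mul, h.orth i j hij, Matrix.map_zero _ (map_zero f)]
  sum := by
    have h1 := congrArg (RingHom.mapMatrix (m := Fin n) f) h.sum
    rw [map_sum, map_one] at h1
    exact h1
  add i j a b hij := by
    rw [h.add i j a b hij]
    exact Matrix.map_add _ (map_add f) _ _
  blk i j a hij := by
    rw [← Matrix.map_mul, ← Matrix.map_mul, ← h.blk i j a hij]
  mul i j k hij hjk hik a b := by rw [← Matrix.map_mul, h.mul i j k hij hjk hik]
  inv i j hij := by rw [← Matrix.map_mul, h.inv i j hij]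

lemma map_inj {n : ℕ} {f : A →+* B} (hf : Function.Injective f)
    {X Y : Matrix (Fin n) (Fin n) A} (h : X.map f = Y.map f) : X = Y := by
  ext i j
  have := congrFun (congrFun h i) j
  exact hf this

lemma BD.reflect (hm : 3 ≤ m) (f : A →+* B) (hf : Function.Injective f)
    {e' : Fin m → Matrix (Fin n) (Fin n) B} (h : BD (fun i j a => (N i j a).map f) e') :
    ∃ e : Fin m → Matrix (Fin n) (Fin n) A, BD N e := by
  have hj : ∀ i : Fin m, ∃ j, j ≠ i := fun i => (third hm i i).imp fun _ h => h.1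
  choose j hj using hj
  have he : ∀ i, (N i (j i) 1 * N (j i) i 1).map f = e' i := by
    intro i
    rw [Matrix.map_mul, h.inv i (j i) (hj i).symm]
  refine ⟨fun i => N i (j i) 1 * N (j i) i 1, ?_, ?_, ?_, ?_, ?_, ?_, ?_⟩
  · intro i
    apply map_inj hf
    rw [Matrix.map_mul, he, h.idem]
  · intro i k hik
    apply map_inj hf
    rw [Matrix.map_mul, he, he, h.orth i k hik, Matrix.map_zero _ (map_zero f)]
  · have h1 : (RingHom.mapMatrix (m := Fin n) f) (∑ i, N i (j i) 1 * N (j i) i 1) =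
        (RingHom.mapMatrix (m := Fin n) f) 1 := by
      rw [map_sum, map_one, ← h.sum]
      exact Finset.sum_congr rfl fun i _ => he i
    exact map_inj hf h1
  · intro i k a b hik
    apply map_inj hf
    rw [h.add i k a b hik]
    exact (Matrix.map_add _ (map_add f) _ _).symm
  · intro i k a hik
    apply map_inj hf
    rw [Matrix.map_mul, Matrix.map_mul, he, he]
    exact h.blk i k a hik
  · intro i k l hik hkl hil a b
    apply map_inj hf
    rw [Matrix.map_mul]
    exact h.mul i k l hik hkl hil a b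
  · intro i k hik
    apply map_inj hf
    rw [he, Matrix.map_mul]
    exact h.inv i k hik

lemma BD.left (h : BD N e) {i j : Fin m} (hij : i ≠ j) (a : R) : e i * N i j a = N i j a := by
  rw [h.blk i j a hij, ← mul_assoc, ← mul_assoc, h.idem]

lemma BD.right (h : BD N e) {i j : Fin m} (hij : i ≠ j) (a : R) : N i j a * e j = N i j a := by
  rw [h.blk i j a hij, mul_assoc, h.idem]

lemma BD.left0 (h : BD N e) {i j k : Fin m} (hij : i ≠ j) (hk : k ≠ i) (a : R) :
    e k * N i j a = 0 := by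
  rw [h.blk i j a hij, ← mul_assoc, ← mul_assoc, h.orth k i hk]; simp

lemma BD.right0 (h : BD N e) {i j k : Fin m} (hij : i ≠ j) (hk : k ≠ j) (a : R) :
    N i j a * e k = 0 := by
  rw [h.blk i j a hij, mul_assoc, h.orth j k hk.symm]; simp

lemma BD.zero (h : BD N e) {i j : Fin m} (hij : i ≠ j) : N i j 0 = 0 := by
  have := h.add i j 0 0 hij
  rw [add_zero] at this
  exact left_eq_add.1 this

end bd

section field
variable {m n : ℕ} {F R : Type} [Field F] [Ring R]
  {N : Fin m → Fin m → R → Mn n F} {e : Fin m → Mn n F}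

/-- The ring homomorphism into the corner. -/
def BD.ph (N : Fin m → Fin m → R → Mn n F) (i0 i1 : Fin m) (a : R) : Mn n F :=
  N i0 i1 a * N i1 i0 1

lemma BD.ph_eq (h : BD N e) {i0 i1 : Fin m} (h01 : i1 ≠ i0) {l : Fin m} (hl : l ≠ i0) (a : R) :
    N i0 l a * N l i0 1 = BD.ph N i0 i1 a := by
  unfold BD.ph
  by_cases hl1 : l = i1
  · rw [hl1]
  · rw [← mul_one a, ← h.mul i0 i1 l h01.symm (Ne.symm hl1) hl.symm, mul_assoc,
      h.mul i1 l i0 (Ne.symm hl1) hl h01, one_mul, mul_one]

lemma BD.ph_eq' (hm : 3 ≤ m) (h : BD N e) {i0 i1 : Fin m} (h01 : i1 ≠ i0) {l : Fin m}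
    (hl : l ≠ i0) (a : R) : N i0 l 1 * N l i0 a = BD.ph N i0 i1 a := by
  obtain ⟨k, hk0, hkl⟩ := third hm i0 l
  rw [← mul_one a, ← h.mul l k i0 hkl.symm hk0 hl, ← mul_assoc,
    h.mul i0 l k hl.symm hkl.symm hk0.symm, one_mul, h.ph_eq h01 hk0, mul_one]

lemma BD.ph_mul (hm : 3 ≤ m) (h : BD N e) {i0 i1 : Fin m} (h01 : i1 ≠ i0) (a b : R) :
    BD.ph N i0 i1 a * BD.ph N i0 i1 b = BD.ph N i0 i1 (a * b) := by
  obtain ⟨k, hk0, hkl⟩ := third hm i0 i1
  rw [← h.ph_eq h01 hk0 b]
  unfold BD.ph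
  rw [← mul_assoc, mul_assoc (N i0 i1 a), h.mul i1 i0 k h01 hk0.symm hkl.symm, one_mul,
    h.mul i0 i1 k h01.symm hkl.symm hk0.symm, h.ph_eq h01 hk0]
  rfl

lemma BD.ph_add (h : BD N e) {i0 i1 : Fin m} (h01 : i1 ≠ i0) (a b : R) :
    BD.ph N i0 i1 (a + b) = BD.ph N i0 i1 a + BD.ph N i0 i1 b := by
  unfold BD.ph
  rw [h.add _ _ _ _ h01.symm, add_mul]

lemma BD.ph_one (h : BD N e) {i0 i1 : Fin m} (h01 : i1 ≠ i0) : BD.ph N i0 i1 1 = e i0 :=
  h.inv i0 i1 h01.symm

lemma BD.ph_zero (h : BD N e) {i0 i1 : Fin m} (h01 : i1 ≠ i0) : BD.ph N i0 i1 0 = 0 := by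
  unfold BD.ph
  rw [h.zero h01.symm, zero_mul]

/-- row and column transport -/
def BD.u (N : Fin m → Fin m → R → Mn n F) (e : Fin m → Mn n F) (i0 i : Fin m) : Mn n F :=
  if i = i0 then e i0 else N i0 i 1

def BD.w (N : Fin m → Fin m → R → Mn n F) (e : Fin m → Mn n F) (i0 i : Fin m) : Mn n F :=
  if i = i0 then e i0 else N i i0 1

lemma BD.wu (h : BD N e) (i0 i : Fin m) : BD.w N e i0 i * BD.u N e i0 i = e i := by
  unfold BD.w BD.u
  by_cases hi : i = i0
  · rw [if_pos hi, if_pos hi, h.idem, hi]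
  · rw [if_neg hi, if_neg hi, h.inv i i0 hi]

lemma BD.uw (h : BD N e) (i0 i : Fin m) : BD.u N e i0 i * BD.w N e i0 i = e i0 := by
  unfold BD.w BD.u
  by_cases hi : i = i0
  · rw [if_pos hi, if_pos hi, h.idem]
  · rw [if_neg hi, if_neg hi, h.inv i0 i (Ne.symm hi)]

lemma BD.ue (h : BD N e) (i0 i : Fin m) : BD.u N e i0 i * e i = BD.u N e i0 i := by
  unfold BD.u
  by_cases hi : i = i0
  · rw [if_pos hi, hi, h.idem]
  · rw [if_neg hi, h.right (Ne.symm hi)]

lemma BD.ew (h : BD N e) (i0 i : Fin m) : e i * BD.w N e i0 i = BD.w N e i0 i := by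
  unfold BD.w
  by_cases hi : i = i0
  · rw [if_pos hi, hi, h.idem]
  · rw [if_neg hi, h.left hi]

lemma BD.eu (h : BD N e) (i0 i : Fin m) : e i0 * BD.u N e i0 i = BD.u N e i0 i := by
  unfold BD.u
  by_cases hi : i = i0
  · rw [if_pos hi, h.idem]
  · rw [if_neg hi, h.left (Ne.symm hi)]

lemma BD.we (h : BD N e) (i0 i : Fin m) : BD.w N e i0 i * e i0 = BD.w N e i0 i := by
  unfold BD.w
  by_cases hi : i = i0
  · rw [if_pos hi, h.idem]
  · rw [if_neg hi, h.right hi]

/-- the matrices all of whose block entries are in the image of `R`. -/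
def BD.blkRing (hm : 3 ≤ m) (h : BD N e) {i0 i1 : Fin m} (h01 : i1 ≠ i0) :
    Subring (Mn n F) where
  carrier := {M | ∀ i j, ∃ a : R, BD.u N e i0 i * M * BD.w N e i0 j = BD.ph N i0 i1 a}
  mul_mem' := by
    intro M M' hM hM' i j
    choose f hf using fun l => hM i l
    choose f' hf' using fun l => hM' l j
    refine ⟨∑ l, f l * f' l, ?_⟩
    have h1 : BD.u N e i0 i * (M * M') * BD.w N e i0 j =
        ∑ l, (BD.u N e i0 i * M * BD.w N e i0 l) * (BD.u N e i0 l * M' * BD.w N e i0 j) := by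
      have h2 : M * M' = ∑ l, M * e l * M' := by
        rw [← Finset.sum_mul, ← Finset.mul_sum, h.sum, mul_one]
      rw [h2, Finset.mul_sum, Finset.sum_mul]
      refine Finset.sum_congr rfl fun l _ => ?_
      rw [← h.wu i0 l]
      noncomm_ring
    rw [h1]
    have h3 : ∀ s : Finset (Fin m), BD.ph N i0 i1 (∑ l ∈ s, f l * f' l) =
        ∑ l ∈ s, BD.ph N i0 i1 (f l * f' l) := by
      classical
      intro s
      induction s using Finset.induction_on with
      | empty => rw [Finset.sum_empty, Finset.sum_empty, h.ph_zero h01]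
      | insert a s ha ih => rw [Finset.sum_insert ha, Finset.sum_insert ha, h.ph_add h01, ih]
    rw [h3]
    exact Finset.sum_congr rfl fun l _ => by rw [hf, hf', h.ph_mul hm h01]
  one_mem' := by
    intro i j
    by_cases hij : i = j
    · subst hij
      exact ⟨1, by rw [mul_one, h.uw, h.ph_one h01]⟩
    · refine ⟨0, ?_⟩
      rw [mul_one, ← h.ue, ← h.ew, h.ph_zero h01]
      calc BD.u N e i0 i * e i * (e j * BD.w N e i0 j)
          = BD.u N e i0 i * (e i * e j) * BD.w N e i0 j := by noncomm_ring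
        _ = 0 := by rw [h.orth i j hij]; simp
  add_mem' := by
    intro M M' hM hM' i j
    obtain ⟨a, ha⟩ := hM i j
    obtain ⟨b, hb⟩ := hM' i j
    exact ⟨a + b, by rw [mul_add, add_mul, ha, hb, h.ph_add h01]⟩
  zero_mem' := by
    intro i j
    exact ⟨0, by rw [mul_zero, zero_mul, h.ph_zero h01]⟩
  neg_mem' := by
    intro M hM i j
    obtain ⟨a, ha⟩ := hM i j
    refine ⟨-a, ?_⟩
    have h1 := h.ph_add h01 a (-a)
    rw [add_neg_cancel, h.ph_zero h01] at h1
    rw [mul_neg, neg_mul, ha]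
    exact (eq_neg_of_add_eq_zero_right h1.symm).symm

lemma BD.N_mem (hm : 3 ≤ m) (h : BD N e) {i0 i1 : Fin m} (h01 : i1 ≠ i0) {k l : Fin m}
    (hkl : k ≠ l) (a : R) : N k l a ∈ h.blkRing hm h01 := by
  intro i j
  by_cases hi : i = k
  · by_cases hj : j = l
    · subst hi hj
      refine ⟨a, ?_⟩
      unfold BD.u BD.w
      by_cases hi0 : i = i0
      · subst hi0
        rw [if_pos rfl, if_neg (Ne.symm hkl), h.left hkl, h.ph_eq h01 (Ne.symm hkl)]
      · by_cases hj0 : j = i0
        · subst hj0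
          rw [if_neg hi0, if_pos rfl, mul_assoc, h.right hkl, h.ph_eq' hm h01 hi0]
        · rw [if_neg hi0, if_neg hj0, h.mul i0 i j (Ne.symm hi0) hkl (Ne.symm hj0), one_mul,
            h.ph_eq h01 hj0]
    · refine ⟨0, ?_⟩
      rw [mul_assoc, ← h.ew i0 j, ← mul_assoc (N k l a), h.right0 hkl hj, h.ph_zero h01]
      simp
  · refine ⟨0, ?_⟩
    rw [← h.ue i0 i, mul_assoc (BD.u N e i0 i), h.left0 hkl hi, h.ph_zero h01]
    simp

/-- a subring of the matrix ring containing all transvections is everything. -/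
lemma subring_top (hn : 2 ≤ n) (S : Subring (Mn n F))
    (h : ∀ (i j : Fin n), i ≠ j → ∀ c : F, Matrix.transvection i j c ∈ S) (M : Mn n F) : M ∈ S := by
  have h1 : ∀ (i j : Fin n), i ≠ j → ∀ c : F, Matrix.single i j c ∈ S := by
    intro i j hij c
    have : Matrix.single i j c = Matrix.transvection i j c - 1 := by
      rw [Matrix.transvection]; simp
    rw [this]
    exact S.sub_mem (h i j hij c) S.one_mem
  have h2 : ∀ (i j : Fin n) (c : F), Matrix.single i j c ∈ S := by
    intro i j c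
    by_cases hij : i = j
    · subst hij
      obtain ⟨k, hk⟩ : ∃ k : Fin n, k ≠ i := by
        by_cases hi : i = ⟨0, by omega⟩
        · exact ⟨⟨1, by omega⟩, by rw [hi]; simp⟩
        · exact ⟨⟨0, by omega⟩, Ne.symm hi⟩
      have : Matrix.single i i c = Matrix.single i k c * Matrix.single k i 1 := by simp
      rw [this]
      exact S.mul_mem (h1 i k hk.symm c) (h1 k i hk 1)
    · exact h1 i j hij c
  rw [Matrix.matrix_eq_sum_single M]
  exact S.sum_mem fun i _ => S.sum_mem fun j _ => h2 i j _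

theorem mat_field (hm : 3 ≤ m) (hn : 2 ≤ n) (h : BD N e)
    (hgen : ∀ S : Subring (Mn n F), (∀ i j a, i ≠ j → 1 + N i j a ∈ S) →
      ∀ (i j : Fin n), i ≠ j → ∀ c : F, Matrix.transvection i j c ∈ S) :
    ∃ k : ℕ, n = m * k ∧ ∃ f : R →+* Matrix (Fin k) (Fin k) F, Function.Surjective f := by
  classical
  set i0 : Fin m := ⟨0, by omega⟩ with hi0
  obtain ⟨i1, h01, -⟩ := third hm i0 i0
  have htop : ∀ M : Mn n F, M ∈ h.blkRing hm h01 :=
    subring_top hn _ (hgen _ fun i j a hij =>
      (h.blkRing hm h01).add_mem (h.blkRing hm h01).one_mem (h.N_mem hm h01 hij a))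
  -- the corner
  let W : Submodule F (Fin n → F) := LinearMap.range (Matrix.toLin' (e i0))
  let k := Module.finrank F W
  let b : Module.Basis (Fin k) F W := Module.finBasis F W
  have hW : ∀ v : Fin n → F, v ∈ W ↔ e i0 *ᵥ v = v := by
    intro v
    constructor
    · rintro ⟨y, rfl⟩
      rw [Matrix.toLin'_apply, Matrix.mulVec_mulVec, h.idem]
    · intro hv
      exact ⟨v, by rw [Matrix.toLin'_apply, hv]⟩
  -- restriction to W
  have hstab : ∀ M : Mn n F, e i0 * M = M → ∀ v : W, Matrix.toLin' M v ∈ W := by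
    intro M hM v
    rw [hW, Matrix.toLin'_apply, Matrix.mulVec_mulVec, hM]
  have hph : ∀ a, e i0 * BD.ph N i0 i1 a = BD.ph N i0 i1 a := by
    intro a
    unfold BD.ph
    rw [← mul_assoc, h.left h01.symm]
  let res : R → Module.End F W := fun a =>
    ((Matrix.toLin' (BD.ph N i0 i1 a)).comp W.subtype).codRestrict W (hstab _ (hph a))
  have hres : ∀ a (v : W), ((res a v : W) : Fin n → F) = BD.ph N i0 i1 a *ᵥ (v : Fin n → F) :=
    fun a v => rfl
  let Φ : R →+* Module.End F W :=
    { toFun := res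
      map_one' := by
        ext v : 2
        rw [hres, h.ph_one h01, (hW _).1 v.2]; rfl
      map_mul' := by
        intro a c
        ext v : 2
        rw [hres, ← h.ph_mul hm h01, ← Matrix.mulVec_mulVec]; rfl
      map_zero' := by
        ext v : 2
        rw [hres, h.ph_zero h01, Matrix.zero_mulVec]; rfl
      map_add' := by
        intro a c
        ext v : 2
        rw [hres, h.ph_add h01, Matrix.add_mulVec]; rfl }
  have hsurj : Function.Surjective Φ := by
    intro T
    -- extend T to the whole space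
    let P : (Fin n → F) →ₗ[F] W := (Matrix.toLin' (e i0)).codRestrict W
      (fun v => LinearMap.mem_range_self _ v)
    let M : Mn n F := LinearMap.toMatrix' (W.subtype.comp (T.comp P))
    obtain ⟨a, ha⟩ := htop M i0 i0
    refine ⟨a, ?_⟩
    ext v : 2
    show ((res a v : W) : Fin n → F) = _
    rw [hres, ← ha]
    have hu : BD.u N e i0 i0 = e i0 := by simp [BD.u]
    have hw : BD.w N e i0 i0 = e i0 := by simp [BD.w]
    rw [hu, hw, ← Matrix.mulVec_mulVec, ← Matrix.mulVec_mulVec, (hW _).1 v.2]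
    have hM : M *ᵥ (v : Fin n → F) = (T v : Fin n → F) := by
      have h1 : M *ᵥ (v : Fin n → F) = W.subtype (T (P v)) := by
        rw [← Matrix.toLin'_apply, Matrix.toLin'_toMatrix']
        rfl
      have h2 : P v = v := Subtype.ext ((hW _).1 v.2)
      rw [h1, h2]
      rfl
    rw [hM, (hW _).1 (T v).2]
  -- dimension
  have hdim : n = m * k := by
    -- the map (Fin m → W) → F^n
    let L : (Fin m → W) →ₗ[F] (Fin n → F) :=
      ∑ i, (Matrix.toLin' (BD.w N e i0 i)).comp (W.subtype.comp (LinearMap.proj i))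
    have hL : ∀ y, L y = ∑ i, BD.w N e i0 i *ᵥ (y i : Fin n → F) := by
      intro y
      simp [L, LinearMap.sum_apply]
    have huw : ∀ i j, i ≠ j → BD.u N e i0 i * BD.w N e i0 j = 0 := by
      intro i j hij
      rw [← h.ue, ← h.ew]
      calc BD.u N e i0 i * e i * (e j * BD.w N e i0 j)
          = BD.u N e i0 i * (e i * e j) * BD.w N e i0 j := by noncomm_ring
        _ = 0 := by rw [h.orth i j hij]; simp
    have hLu : ∀ y j, BD.u N e i0 j *ᵥ L y = y j := by
      intro y j
      rw [hL, Matrix.mulVec_sum, Finset.sum_eq_single j]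
      · rw [Matrix.mulVec_mulVec, h.uw, (hW _).1 (y j).2]
      · intro i _ hi
        rw [Matrix.mulVec_mulVec, huw j i hi.symm, Matrix.zero_mulVec]
      · intro h'
        exact absurd (Finset.mem_univ j) h'
    have hinj : Function.Injective L := by
      intro y y' hy
      funext j
      apply Subtype.ext
      rw [← hLu y j, ← hLu y' j, hy]
    have hsur : Function.Surjective L := by
      intro v
      refine ⟨fun i => ⟨BD.u N e i0 i *ᵥ v, (hW _).2 (by rw [Matrix.mulVec_mulVec, h.eu])⟩, ?_⟩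
      rw [hL]
      simp only [Matrix.mulVec_mulVec, h.wu]
      rw [← Matrix.sum_mulVec, h.sum, Matrix.one_mulVec]
    have h1 := LinearEquiv.finrank_eq (LinearEquiv.ofBijective L ⟨hinj, hsur⟩)
    rw [Module.finrank_pi_fintype, Finset.sum_const, Finset.card_univ, Fintype.card_fin,
      Module.finrank_fin_fun, smul_eq_mul] at h1
    exact h1.symm
  refine ⟨k, hdim, (LinearMap.toMatrixAlgEquiv b).toRingEquiv.toRingHom.comp Φ, ?_⟩
  exact (LinearMap.toMatrixAlgEquiv b).surjective.comp hsurj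

end field

end Pool.Agent.T2h61.PR
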