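import Pool.Agent.T2h61.PR.Stm

/-!
# (UNI) eigenvalues of a central commutator
-/

set_option autoImplicit false

namespace Pool.Agent.T2h61.PR.UNI

open Matrix

theorem eig (L : Type) [Field L] (V : Type) [AddCommGroup V] [Module L V] [FiniteDimensional L V]
    (G H U : Module.End L V) (hG : Function.Injective G) (hH : Function.Injective H)
    (hGH : G * H = U * H * G) (hUG : U * G = G * U) (hUH : U * H = H * U) (l : L)
    (hl : U.HasEigenvalue l) : l ^ (Module.finrank L V).factorial = 1 := by
  let W := U.eigenspace l
  have hGW : ∀ x ∈ W, G x ∈ W := by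
    intro x hx
    rw [Module.End.mem_eigenspace_iff] at hx ⊢
    have := congrArg (fun f : Module.End L V => f x) hUG
    simp only [Module.End.mul_apply] at this
    rw [this, hx, map_smul]
  have hHW : ∀ x ∈ W, H x ∈ W := by
    intro x hx
    rw [Module.End.mem_eigenspace_iff] at hx ⊢
    have := congrArg (fun f : Module.End L V => f x) hUH
    simp only [Module.End.mul_apply] at this
    rw [this, hx, map_smul]
  let G' : Module.End L W := G.restrict hGW
  let H' : Module.End L W := H.restrict hHW
  have hG' : Function.Injective G' := by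
    intro x y hxy
    apply Subtype.ext
    apply hG
    exact congrArg Subtype.val hxy
  have hH' : Function.Injective H' := by
    intro x y hxy
    apply Subtype.ext
    apply hH
    exact congrArg Subtype.val hxy
  have hrel : G' * H' = l • (H' * G') := by
    ext x
    have h1 := congrArg (fun f : Module.End L V => f x.1) hGH
    simp only [Module.End.mul_apply] at h1
    have h2 : H (G x.1) ∈ W := hHW _ (hGW _ x.2)
    rw [Module.End.mem_eigenspace_iff] at h2
    rw [h2] at h1
    exact h1
  have hdet := congrArg LinearMap.det hrel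
  rw [map_mul, LinearMap.det_smul, map_mul] at hdet
  have hdG : LinearMap.det G' ≠ 0 := by
    intro h0
    have h3 : G'.ker = ⊥ := LinearMap.ker_eq_bot.mpr hG'
    exact (LinearMap.bot_lt_ker_of_det_eq_zero h0).ne' h3
  have hdH : LinearMap.det H' ≠ 0 := by
    intro h0
    have h3 : H'.ker = ⊥ := LinearMap.ker_eq_bot.mpr hH'
    exact (LinearMap.bot_lt_ker_of_det_eq_zero h0).ne' h3
  have hld : l ^ (Module.finrank L W) = 1 := by
    have h4 : LinearMap.det H' * LinearMap.det G' ≠ 0 := mul_ne_zero hdH hdG
    apply mul_right_cancel₀ h4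
    rw [one_mul, ← hdet, mul_comm]
  have hpos : 0 < Module.finrank L W := by
    have hne : W ≠ ⊥ := hl
    have : Nontrivial W := Submodule.nontrivial_iff_ne_bot.mpr hne
    exact Module.finrank_pos
  have hle : Module.finrank L W ≤ Module.finrank L V := Submodule.finrank_le W
  obtain ⟨c, hc⟩ := Nat.dvd_factorial hpos hle
  rw [hc, pow_mul, hld, one_pow]

end Pool.Agent.T2h61.PR.UNI

namespace Pool.Agent.T2h61.PR

theorem uni : S_UNI := by
  intro n K _ g h u hu hug huh
  classical
  let L := AlgebraicClosure K
  let ι : K →+* L := algebraMap K L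
  let m : Mn n K →+* Mn n L := ι.mapMatrix
  have hinj : Function.Injective m := by
    intro a b hab
    ext i j
    exact ι.injective (congrFun (congrFun hab i) j)
  apply hinj
  rw [map_zero, map_pow, map_sub, map_pow, map_one]
  set U : Mn n L := m u with hU
  set G : Mn n L := m g with hG
  set H : Mn n L := m h with hH
  have hGu : IsUnit G := g.isUnit.map m
  have hHu : IsUnit H := h.isUnit.map m
  have hGH : G * H = U * H * G := by
    rw [hU, hG, hH, ← map_mul, ← map_mul, ← map_mul]
    congr 1
    have h1 : g * h = u * h * g := by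
      rw [← hu]; group
    exact congrArg (fun x : (Mn n K)ˣ => (x : Mn n K)) h1
  have hUG : U * G = G * U := by
    rw [hU, hG, ← map_mul, ← map_mul]
    congr 1
    exact congrArg (fun x : (Mn n K)ˣ => (x : Mn n K)) hug
  have hUH : U * H = H * U := by
    rw [hU, hH, ← map_mul, ← map_mul]
    congr 1
    exact congrArg (fun x : (Mn n K)ˣ => (x : Mn n K)) huh
  have hroot : ∀ l : L, U.charpoly.IsRoot l → l ^ n.factorial = 1 := by
    intro l hl
    have hev : Module.End.HasEigenvalue (Matrix.toLin' U) l := by
      rw [Module.End.hasEigenvalue_iff_isRoot_charpoly]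
      rw [Matrix.charpoly_toLin']
      exact hl
    have hmul : ∀ A B : Mn n L, Matrix.toLin' A * Matrix.toLin' B = Matrix.toLin' (A * B) :=
      fun A B => (Matrix.toLin'_mul A B).symm
    have hinj2 : ∀ A : Mn n L, IsUnit A → Function.Injective (Matrix.toLin' A) := by
      intro A hA x y hxy
      apply Matrix.mulVec_injective_of_isUnit hA
      simpa [Matrix.toLin'_apply] using hxy
    have := UNI.eig L (Fin n → L) (Matrix.toLin' G) (Matrix.toLin' H) (Matrix.toLin' U)
      (hinj2 G hGu) (hinj2 H hHu)
      (by rw [hmul, hmul, hmul, hGH])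
      (by rw [hmul, hmul, hUG])
      (by rw [hmul, hmul, hUH]) l hev
    rwa [Module.finrank_fin_fun] at this
  have hsplit : U.charpoly.Splits := IsAlgClosed.splits _
  have hmonic : U.charpoly.Monic := U.charpoly_monic
  have hdvd : U.charpoly ∣ (Polynomial.X ^ n.factorial - 1 : Polynomial L) ^ n := by
    have h1 := hsplit.eq_prod_roots
    rw [hmonic.leadingCoeff, map_one, one_mul] at h1
    have hcard : Multiset.card U.charpoly.roots = n := by
      rw [← hsplit.natDegree_eq_card_roots, U.charpoly_natDegree_eq_dim, Fintype.card_fin]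
    rw [h1]
    have h2 : ∀ s : Multiset L, (∀ a ∈ s, a ^ n.factorial = 1) →
        (s.map (fun a => Polynomial.X - Polynomial.C a)).prod ∣
          (Polynomial.X ^ n.factorial - 1 : Polynomial L) ^ (Multiset.card s) := by
      intro s
      induction s using Multiset.induction_on with
      | empty => intro _; simp
      | cons a s ih =>
        intro ha
        rw [Multiset.map_cons, Multiset.prod_cons, Multiset.card_cons, pow_succ']
        apply mul_dvd_mul
        · rw [Polynomial.dvd_iff_isRoot]
          simp [Polynomial.IsRoot.def, ha a (Multiset.mem_cons_self a s)]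
        · exact ih (fun b hb => ha b (Multiset.mem_cons_of_mem hb))
    have h3 := h2 U.charpoly.roots (fun a ha => hroot a (Polynomial.isRoot_of_mem_roots ha))
    rw [hcard] at h3
    exact h3
  obtain ⟨q, hq⟩ := hdvd
  have hCH := congrArg (Polynomial.aeval U) hq
  rw [map_mul, Matrix.aeval_self_charpoly, zero_mul] at hCH
  simpa using hCH

end Pool.Agent.T2h61.PR
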