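import Pool.Agent.T2h61.PR.T_ST
import Pool.Agent.T2h61.PR.T_MAT
import Pool.Agent.T2h61.PR.T_UNI
import Pool.Agent.T2h61.PR.T_BETA
import Pool.Agent.T2h61.PR.T_LOG
import Pool.Agent.T2h61.PR.T_INV

/-!
The structure theorem without a hypothesis on the ring: first part copied from `T_ST` (helper31).
-/

set_option autoImplicit false

namespace Pool.Agent.T2h61.PR

open Matrix Pool.Agent.Helper58.K2

open Pool.Agent.T2h61.PR.ST in
/-- The Lie algebra attached to an irreducible representation. -/
theorem core (hUNI : S_UNI) (hBETA : S_BETA) (hLOG : S_LOG) (hINV : S_INV) (m n : ℕ) (hm : 3 ≤ m)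
    (hn : 2 ≤ n) (K : Type) [Field K] [CharZero K] (R : Type) [Ring R]
    (X : Fin m → Fin m → R → (Mn n K)ˣ) (hX : SR X)
    (hIrr : Irr (fun t : Fin m × Fin m × R => X t.1 t.2.1 t.2.2))
    (hInf : (Subgroup.closure {g | ∃ i j a, g = X i j a}).carrier.Infinite) :
    ∃ N : Fin m → Fin m → R → Mn n K, LR N ∧ XN X N ∧
      ∀ w : Mn n K, w.trace = 0 → w ∈ Lsp N := by
  obtain ⟨lg, hadd, hconj, hbr, hinj⟩ := hLOG n K
  set M : ℕ := n.factorial with hM
  have hM0 : 0 < M := Nat.factorial_pos n
  have hMK : (M : K) ≠ 0 := Nat.cast_ne_zero.mpr hM0.ne'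
  -- unipotence
  have hU : ∀ i j a, i ≠ j → Unip (X i j ((M : R) * a) : Mn n K) := by
    intro i j a hij
    obtain ⟨k, hki, hkj⟩ := third hm i j
    have h := hUNI n K (X i k a) (X k j 1) (X i j a)
      (by rw [hX.comm i k j hki.symm hkj hij, mul_one])
      (hX.commute i j i k hij.symm hki.symm _ _) (hX.commute i j k j hkj.symm hij _ _)
    rw [pow_eq hX, Units.val_pow_eq_pow_val]
    exact ⟨n, h⟩
  have hlg1 : lg 1 = 0 := lg_one hadd
  -- multiplication by M
  have hMM : ∀ i j a, i ≠ j → lg (X i j ((M : R) * ((M : R) * a)) : Mn n K) =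
      (M : K) • lg (X i j ((M : R) * a) : Mn n K) := by
    intro i j a hij
    rw [pow_eq hX i j ((M : R) * a), Units.val_pow_eq_pow_val]
    exact (lg_pow hadd (hU i j a hij) M).2
  -- the Lie algebra elements
  set N : Fin m → Fin m → R → Mn n K :=
    fun i j a => (M : K)⁻¹ • lg (X i j ((M : R) * a) : Mn n K) with hN
  have hNdef : ∀ i j a, N i j a = (M : K)⁻¹ • lg (X i j ((M : R) * a) : Mn n K) :=
    fun _ _ _ => rfl
  have hNadd : ∀ i j a b, i ≠ j → N i j (a + b) = N i j a + N i j b := by
    intro i j a b hij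
    rw [hNdef, hNdef, hNdef, mul_add, hX.add, Units.val_mul, ← smul_add]
    congr 1
    apply hadd _ _ (hU i j a hij) (hU i j b hij)
    rw [← Units.val_mul, ← Units.val_mul, hX.comm']
  have hN0 : ∀ i j, N i j 0 = 0 := by
    intro i j
    rw [hNdef, mul_zero, hX.zero, Units.val_one, hlg1, smul_zero]
  have hNneg : ∀ i j a, i ≠ j → N i j (-a) = - N i j a := by
    intro i j a hij
    rw [eq_neg_iff_add_eq_zero, ← hNadd _ _ _ _ hij, neg_add_cancel, hN0]
  have hcast : ∀ a b : R, (M : R) * a * ((M : R) * b) = (M : R) * ((M : R) * (a * b)) := by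
    intro a b
    have := (Nat.cast_commute M a).eq
    rw [mul_assoc, ← mul_assoc a, ← this, mul_assoc]
  have hLR : LR N := by
    refine ⟨hNadd, ?_, ?_⟩
    · intro i j k hij hjk hik a b
      have h := hbr (X i j ((M : R) * a)) (X j k ((M : R) * b))
        (X i k ((M : R) * ((M : R) * (a * b))))
        (hU i j a hij) (hU j k b hjk) (hU i k _ hik) ?_ ?_ ?_
      · rw [hMM i k _ hik] at h
        rw [hNdef, hNdef, hNdef, smul_mul_smul_comm, smul_mul_smul_comm, ← smul_sub, h, smul_smul]
        congr 1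
        field_simp
      · rw [← Units.val_mul, ← Units.val_mul, ← Units.val_mul, ← hcast,
          ← hX.comm i j k hij hjk hik]
        congr 1
        group
      · rw [← Units.val_mul, ← Units.val_mul, hX.commute i k i j hik.symm hij]
      · rw [← Units.val_mul, ← Units.val_mul, hX.commute i k j k hjk.symm hik]
    · intro i j k l hij hkl hjk hil a b
      have h := hbr (X i j ((M : R) * a)) (X k l ((M : R) * b)) 1
        (hU i j a hij) (hU k l b hkl) unip_one ?_ (by rw [one_mul, mul_one])
        (by rw [one_mul, mul_one])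
      · rw [hlg1, sub_eq_zero] at h
        rw [hNdef, hNdef, smul_mul_smul_comm, smul_mul_smul_comm, h]
      · rw [one_mul, ← Units.val_mul, ← Units.val_mul, hX.commute i j k l hjk hil]
  -- conjugation
  have hcj : ∀ (g : (Mn n K)ˣ) i j a, (g : Mn n K) * N i j a * ((g⁻¹ : (Mn n K)ˣ) : Mn n K) =
      (M : K)⁻¹ • lg ((g * X i j ((M : R) * a) * g⁻¹ : (Mn n K)ˣ) : Mn n K) := by
    intro g i j a
    rw [hNdef, mul_smul_comm, smul_mul_assoc, ← hconj, Units.val_mul, Units.val_mul]
  have hcomM : ∀ a b : R, a * ((M : R) * b) = (M : R) * (a * b) := by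
    intro a b
    rw [← mul_assoc, ← (Nat.cast_commute M a).eq, mul_assoc]
  have hXN : XN X N := by
    refine ⟨?_, ?_, ?_⟩
    · intro i j k hij hjk hik a b
      rw [hcj, hX.conjL i j k hij hjk hik, hcomM, Units.val_mul,
        hadd _ _ (hU i k _ hik) (hU j k b hjk), smul_add, add_comm]
      rw [← Units.val_mul, ← Units.val_mul, hX.commute i k j k hjk.symm hik]
    · intro i j k hij hki hkj a b
      have e : -((M : R) * b * a) = (M : R) * (-(b * a)) := by
        rw [mul_neg, mul_assoc]
      rw [hcj, hX.conjR i j k hij hki hkj, e, Units.val_mul,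
        hadd _ _ (hU k j _ hkj) (hU k i b hki), smul_add, sub_eq_neg_add, ← hNneg _ _ _ hkj]
      rw [← Units.val_mul, ← Units.val_mul, hX.commute k j k i hkj.symm hki]
    · intro i j k l hij hkl hjk hil a b
      rw [hcj, hX.conjC i j k l hjk hil]
  -- irreducibility
  rcases hIrr (Lsp N) (by
    rintro ⟨i, j, a⟩ w hw
    by_cases hij : i = j
    · subst hij
      simp only [hX.diag, Units.val_one, inv_one, one_mul, mul_one]
      exact hw
    · exact hINV m n hm K R X N hLR hXN i j a hij w hw) with hsc | htr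
  · exfalso
    have hz : ∀ i j a, i ≠ j → N i j a = 0 := by
      intro i j a hij
      obtain ⟨k, hki, hkj⟩ := third hm i j
      have h := hLR.comm i k j hki.symm hkj hij a 1
      rw [mul_one] at h
      rw [← h]
      obtain ⟨c, hc⟩ := hsc (N i k a) (Submodule.subset_span (Or.inl ⟨i, k, a, hki.symm, rfl⟩))
      rw [hc, smul_mul_assoc c (1 : Mn n K) (N k j 1), one_mul,
        mul_smul_comm c (N k j 1) (1 : Mn n K), mul_one, sub_self]
    apply hInf
    apply hBETA m n hm K R X hX M hM0
    intro i j a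
    by_cases hij : i = j
    · subst hij
      rw [hX.diag, one_pow]
    · have h0 := hz i j a hij
      rw [hNdef, smul_eq_zero] at h0
      have h1 : lg (X i j ((M : R) * a) : Mn n K) = 0 :=
        h0.resolve_left (inv_ne_zero hMK)
      have h2 := hinj _ (hU i j a hij) h1
      rw [← pow_eq hX]
      exact Units.ext h2
  · exact ⟨N, hLR, hXN, htr⟩

end Pool.Agent.T2h61.PR
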