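import Pool.Agent.T2h61.PR.Stm

set_option autoImplicit false

namespace Pool.Agent.T2h61.PR

open Matrix

section gen
variable {n : ℕ} {K : Type} [Field K]

/-- A linear map killing the traceless matrices and `1` is zero. -/
lemma all_of_sl [CharZero K] (hn : 2 ≤ n) (W : Submodule K (Mn n K))
    (h : ∀ w : Mn n K, w.trace = 0 → w ∈ W) (h1 : (1 : Mn n K) ∈ W) (X : Mn n K) : X ∈ W := by
  have hn0 : (n : K) ≠ 0 := by
    have : n ≠ 0 := by omega
    exact_mod_cast this
  have e : X = (X - (X.trace / n) • (1 : Mn n K)) + (X.trace / n) • (1 : Mn n K) := by simp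
  rw [e]
  refine W.add_mem (h _ ?_) (W.smul_mem _ h1)
  rw [trace_sub, trace_smul, trace_one, Fintype.card_fin, smul_eq_mul]
  field_simp
  simp

/-- primeness of the matrix ring. -/
lemma prime_M {A B : Mn n K} (h : ∀ X : Mn n K, A * X * B = 0) : A = 0 ∨ B = 0 := by
  by_contra hc
  push Not at hc
  obtain ⟨hA, hB⟩ := hc
  have hA' : ∃ c a, A c a ≠ 0 := by
    by_contra h'
    push Not at h'
    exact hA (by ext c a; exact h' c a)
  have hB' : ∃ b d, B b d ≠ 0 := by
    by_contra h'
    push Not at h'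
    exact hB (by ext c a; exact h' c a)
  obtain ⟨c, a, hca⟩ := hA'
  obtain ⟨b, d, hbd⟩ := hB'
  have h1 := congrFun (congrFun (h (Matrix.single a b 1)) c) d
  rw [Matrix.mul_assoc, Matrix.mul_apply] at h1
  simp only [Matrix.single_mul_apply_of_ne, Matrix.zero_apply] at h1
  rw [Finset.sum_eq_single a] at h1
  · rw [Matrix.single_mul_apply_same, one_mul] at h1
    exact mul_ne_zero hca hbd h1
  · intro x _ hx
    rw [Matrix.single_mul_apply_of_ne _ _ _ _ _ hx, mul_zero]
  · intro hx
    exact absurd (Finset.mem_univ a) hx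

/-- a matrix commuting with everything is a scalar. -/
lemma scalar_of_comm {A : Mn n K} (h : ∀ X : Mn n K, A * X = X * A) : ∃ c : K, A = c • 1 := by
  obtain ⟨c, hc⟩ := (Matrix.mem_range_scalar_iff_commute_single' (M := A)).2
    (fun i j => (h (Matrix.single i j 1)).symm)
  exact ⟨c, by rw [← hc]; ext i j; simp [Matrix.scalar_apply, Matrix.diagonal_apply, Matrix.one_apply]⟩

/-- The key quadratic relation. -/
lemma quad [CharZero K] {P : Mn n K}
    (h : ∀ X : Mn n K, P * (P * (P * X - X * P) - (P * X - X * P) * P) -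
      (P * (P * X - X * P) - (P * X - X * P) * P) * P = P * X - X * P)
    (hP : ∀ c : K, P ≠ c • (1 : Mn n K)) :
    ∃ l : K, (P - l • (1 : Mn n K)) * (P - l • 1) = P - l • 1 := by
  have hmem : P ∉ Submodule.span K {(1 : Mn n K)} := by
    intro hm
    obtain ⟨c, hc⟩ := Submodule.mem_span_singleton.1 hm
    exact hP c hc.symm
  obtain ⟨f, hf1, hf2⟩ := Submodule.exists_dual_map_eq_bot_of_notMem hmem inferInstance
  have hf1' : f 1 = 0 := by
    have : f 1 ∈ Submodule.map f (Submodule.span K {(1 : Mn n K)}) :=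
      Submodule.mem_map_of_mem (Submodule.mem_span_singleton_self 1)
    rw [hf2] at this
    simpa using this
  set u := f P with hu
  -- entries
  have hent : ∀ i a : Fin n, (P * P * P) i a • (1 : Mn n K) - (3 * (P * P) i a) • P +
      (3 * P i a) • (P * P) - ((1 : Mn n K) i a) • (P * P * P) =
      (P i a) • (1 : Mn n K) - ((1 : Mn n K) i a) • P := by
    intro i a
    ext b j
    have h1 := congrFun (congrFun (h (Matrix.single a b 1)) i) j
    have h2 : P * (P * (P * Matrix.single a b 1 - Matrix.single a b 1 * P) -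
        (P * Matrix.single a b 1 - Matrix.single a b 1 * P) * P) -
      (P * (P * Matrix.single a b 1 - Matrix.single a b 1 * P) -
        (P * Matrix.single a b 1 - Matrix.single a b 1 * P) * P) * P =
      P * P * P * Matrix.single a b 1 * 1 - (3 : K) • (P * P * Matrix.single a b 1 * P) +
        (3 : K) • (P * Matrix.single a b 1 * (P * P)) -
        1 * Matrix.single a b 1 * (P * P * P) := by
      have h3 : ∀ Y : Mn n K, (3 : K) • Y = Y + Y + Y := by
        intro Y
        rw [show (3 : K) = 1 + 1 + 1 by norm_num, add_smul, add_smul, one_smul]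
      rw [h3, h3]
      noncomm_ring
    have h4 : ∀ (A B : Mn n K), (A * Matrix.single a b 1 * B : Mn n K) i j = A i a * B b j := by
      intro A B
      rw [Matrix.mul_apply, Finset.sum_eq_single b]
      · rw [Matrix.mul_single_apply_same, mul_one]
      · intro x _ hx
        rw [Matrix.mul_single_apply_of_ne _ _ _ _ _ hx, zero_mul]
      · intro hx
        exact absurd (Finset.mem_univ b) hx
    rw [h2] at h1
    have h5 : P * Matrix.single a b 1 - Matrix.single a b 1 * P =
        P * Matrix.single a b 1 * 1 - 1 * Matrix.single a b 1 * P := by simp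
    rw [h5] at h1
    simp only [Matrix.sub_apply, Matrix.add_apply, Matrix.smul_apply, smul_eq_mul] at h1 ⊢
    rw [h4, h4, h4, h4, h4, h4] at h1
    linear_combination h1
  have h6 : ∀ i a : Fin n, - (3 * (P * P) i a) * u + (3 * P i a) * f (P * P) -
      ((1 : Mn n K) i a) * f (P * P * P) = - ((1 : Mn n K) i a) * u := by
    intro i a
    have := congrArg f (hent i a)
    simp only [map_sub, map_add, map_smul, smul_eq_mul, hf1', mul_zero, zero_sub] at this
    rw [← hu] at this
    linear_combination this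
  have hu0 : u ≠ 0 := hf1
  have h3 : (3 : K) ≠ 0 := by norm_num
  have h2' : (2 : K) ≠ 0 := by norm_num
  set s := f (P * P) / u with hs
  set t := (1 - f (P * P * P) / u) / 3 with ht
  have hPP : P * P = s • P + t • 1 := by
    ext i a
    have := h6 i a
    simp only [Matrix.add_apply, Matrix.smul_apply, smul_eq_mul]
    rw [hs, ht]
    field_simp
    linear_combination (-1 : K) * this
  have hPPP : P * P * P = (s * s + t) • P + (s * t) • 1 := by
    rw [hPP, add_mul, smul_mul_assoc, hPP, smul_mul_assoc, one_mul, smul_add, smul_smul, smul_smul]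
    module
  have hst : 4 * t = 1 - s * s := by
    have h7 : f (P * P * P) = (s * s + t) * u := by
      rw [hPPP, map_add, map_smul, map_smul, hf1', ← hu]; simp
    have h8 : t * 3 = 1 - (s * s + t) := by
      have h9 : t * 3 = 1 - f (P * P * P) / u := by rw [ht]; field_simp
      rw [h9, h7, mul_div_assoc, div_self hu0, mul_one]
    linear_combination h8
  refine ⟨(s - 1) / 2, ?_⟩
  have h9 : (P - ((s - 1) / 2) • (1 : Mn n K)) * (P - ((s - 1) / 2) • 1) =
      P * P - (s - 1) • P + (((s - 1) / 2) * ((s - 1) / 2)) • 1 := by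
    rw [sub_mul, mul_sub, mul_sub]
    simp only [smul_mul_assoc, mul_smul_comm, one_mul, mul_one, smul_smul]
    have : (s - 1) = (s - 1) / 2 + (s - 1) / 2 := by ring
    conv_rhs => rw [this]
    module
  rw [h9, hPP]
  have ht' : t = (1 - s * s) / 4 := by
    rw [← hst]; ring
  rw [ht']
  match_scalars
  · ring
  · ring

lemma two_zero {A : Mn n K} [CharZero K] (h : A + A = 0) : A = 0 := by
  have : (2 : K) • A = 0 := by rw [two_smul, h]
  rcases smul_eq_zero.1 this with h | h
  · exact absurd h (by norm_num)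
  · exact h

lemma id_pos [CharZero K] {f N : Mn n K} (hf : f * f = f) (h : f * N - N * f = N) :
    f * N = N ∧ N * f = 0 := by
  have h1 : f * N * f = 0 := by
    have := congrArg (fun Y => f * Y) h
    simp only [mul_sub, ← mul_assoc, hf] at this
    exact sub_eq_self.1 this
  have h2 : N * f = 0 := by
    apply two_zero
    have := congrArg (fun Y => Y * f) h
    simp only [sub_mul, mul_assoc, hf] at this
    rw [← mul_assoc, h1, zero_sub] at this
    nth_rw 1 [← this]
    simp
  exact ⟨by rw [h2, sub_zero] at h; exact h, h2⟩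

lemma id_neg [CharZero K] {f N : Mn n K} (hf : f * f = f) (h : f * N - N * f = -N) :
    f * N = 0 ∧ N * f = N := by
  have h1 : f * N * f = 0 := by
    have := congrArg (fun Y => Y * f) h
    simp only [sub_mul, mul_assoc, hf, neg_mul] at this
    rw [← mul_assoc] at this
    have h2 : f * N * f = (f * N * f - N * f) + N * f := by abel
    rw [h2, this]; abel
  have h2 : f * N = 0 := by
    apply two_zero
    have := congrArg (fun Y => f * Y) h
    simp only [mul_sub, ← mul_assoc, hf, mul_neg] at this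
    rw [h1, sub_zero] at this
    nth_rw 1 [this]
    simp
  exact ⟨h2, by rw [h2, zero_sub] at h; exact neg_injective h⟩

end gen

lemma third {m : ℕ} (hm : 3 ≤ m) (i j : Fin m) : ∃ k, k ≠ i ∧ k ≠ j := by
  by_contra h
  push Not at h
  have h1 : (Finset.univ : Finset (Fin m)) ⊆ {i, j} := by
    intro k _
    by_cases hk : k = i
    · simp [hk]
    · simp [h k hk]
  have h2 := Finset.card_le_card h1
  rw [Finset.card_univ, Fintype.card_fin] at h2
  have := Finset.card_le_two (a := i) (b := j)
  omega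

section ide
variable {m n : ℕ} {K R : Type} [Field K] [CharZero K] [Ring R] {N : Fin m → Fin m → R → Mn n K}

/-- weights -/
structure Wt (N : Fin m → Fin m → R → Mn n K) (P : Fin m → Mn n K) : Prop where
  h1 : ∀ i j a, i ≠ j → P i * N i j a - N i j a * P i = N i j a
  h2 : ∀ i j a, i ≠ j → P j * N i j a - N i j a * P j = - N i j a
  h3 : ∀ i j k a, i ≠ j → k ≠ i → k ≠ j → P k * N i j a = N i j a * P k
  h4 : ∀ i j, P i * P j = P j * P i

lemma Wt.br {P : Fin m → Mn n K} (h : Wt N P) (k i j : Fin m) (hij : i ≠ j) (a b : R) :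
    P k * (N i j a * N j i b - N j i b * N i j a) =
      (N i j a * N j i b - N j i b * N i j a) * P k := by
  have key : ∀ i j a b, i ≠ j → P k * (N i j a * N j i b) = N i j a * N j i b * P k := by
    intro i j a b hij
    by_cases hk : k = i
    · subst hk
      have e1 : P k * N k j a = N k j a * P k + N k j a := by
        have := h.h1 k j a hij
        rw [sub_eq_iff_eq_add] at this
        rw [this]; abel
      have e2 : P k * N j k b = N j k b * P k - N j k b := by
        have := h.h2 j k b hij.symm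
        rw [sub_eq_iff_eq_add] at this
        rw [this]; abel
      rw [← mul_assoc, e1, add_mul, mul_assoc, e2]
      noncomm_ring
    · by_cases hk' : k = j
      · subst hk'
        have e1 : P k * N k i b = N k i b * P k + N k i b := by
          have := h.h1 k i b hij.symm
          rw [sub_eq_iff_eq_add] at this
          rw [this]; abel
        have e2 : P k * N i k a = N i k a * P k - N i k a := by
          have := h.h2 i k a hij
          rw [sub_eq_iff_eq_add] at this
          rw [this]; abel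
        rw [← mul_assoc, e2, sub_mul, mul_assoc, e1]
        noncomm_ring
      · rw [← mul_assoc, h.h3 i j k a hij hk hk', mul_assoc, h.h3 j i k b hij.symm hk' hk,
          mul_assoc]
  rw [mul_sub, key i j a b hij, key j i b a hij.symm, sub_mul]

lemma LR.zero_prop (hm : 3 ≤ m) (hN : LR N) {i j : Fin m} (hij : i ≠ j) (h0 : N i j 1 = 0)
    (k l : Fin m) (hkl : k ≠ l) (a : R) : N k l a = 0 := by
  have s1 : ∀ i j : Fin m, i ≠ j → N i j 1 = 0 → ∀ k, k ≠ i → k ≠ j → ∀ a, N i k a = 0 := by
    intro i j hij h0 k hki hkj a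
    have := hN.comm i j k hij hkj.symm hki.symm 1 a
    rw [h0, one_mul, zero_mul, mul_zero, sub_zero] at this
    exact this.symm
  have s2 : ∀ i j : Fin m, i ≠ j → N i j 1 = 0 → ∀ k, k ≠ i → k ≠ j → ∀ a, N k j a = 0 := by
    intro i j hij h0 k hki hkj a
    have := hN.comm k i j hki hij hkj a 1
    rw [h0, mul_one, zero_mul, mul_zero, sub_zero] at this
    exact this.symm
  have s3 : ∀ i j : Fin m, i ≠ j → N i j 1 = 0 → ∀ k, k ≠ i → ∀ a, N i k a = 0 := by
    intro i j hij h0 k hki a
    by_cases hkj : k = j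
    · subst hkj
      obtain ⟨p, hp1, hp2⟩ := third hm i k
      exact s1 i p hp1.symm (s1 i k hij h0 p hp1 hp2 1) k hki hp2.symm a
    · exact s1 i j hij h0 k hki hkj a
  have s4 : ∀ i j : Fin m, i ≠ j → N i j 1 = 0 → ∀ k, k ≠ j → ∀ a, N k j a = 0 := by
    intro i j hij h0 k hkj a
    by_cases hki : k = i
    · subst hki
      obtain ⟨p, hp1, hp2⟩ := third hm k j
      exact s2 p j hp2 (s2 k j hij h0 p hp1 hp2 1) k hp1.symm hkj a
    · exact s2 i j hij h0 k hki hkj a
  -- reach (k, l)
  by_cases hki : k = i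
  · subst hki
    exact s3 k j hij h0 l hkl.symm a
  · by_cases hkj : k = j
    · subst hkj
      obtain ⟨p, hp1, hp2⟩ := third hm i k
      have h1 : N i p 1 = 0 := s3 i k hij h0 p hp1 1
      have h2 : N k p 1 = 0 := s4 i p hp1.symm h1 k hp2.symm 1
      exact s3 k p hp2.symm h2 l hkl.symm a
    · have h1 : N k j 1 = 0 := s4 i j hij h0 k hkj 1
      exact s3 k j hkj h1 l hkl.symm a

lemma LR.nz (hm : 3 ≤ m) (hn : 2 ≤ n) (hN : LR N) (hL : ∀ w : Mn n K, w.trace = 0 → w ∈ Lsp N)
    {i j : Fin m} (hij : i ≠ j) : N i j 1 ≠ 0 := by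
  intro h0
  have hz := hN.zero_prop hm hij h0
  have hle : Lsp N ≤ ⊥ := by
    rw [Lsp, Submodule.span_le]
    rintro w (⟨k, l, a, hkl, rfl⟩ | ⟨k, l, a, b, hkl, rfl⟩)
    · simpa using hz k l hkl a
    · simp [hz k l hkl a, hz l k hkl.symm b]
  have h1 : (Matrix.single (⟨0, by omega⟩ : Fin n) (⟨1, by omega⟩ : Fin n) (1 : K)) ∈ Lsp N := by
    apply hL
    rw [Matrix.trace_single_eq_of_ne]
    simp
  have h2 := hle h1
  rw [Submodule.mem_bot] at h2
  have := congrFun (congrFun h2 ⟨0, by omega⟩) ⟨1, by omega⟩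
  simp at this

/-- (a) the operators `ad P` are diagonalizable with weights `0, 1, -1` on everything. -/
lemma Wt.cube (hn : 2 ≤ n) {P : Fin m → Mn n K} (h : Wt N P)
    (hL : ∀ w : Mn n K, w.trace = 0 → w ∈ Lsp N) (k : Fin m) (X : Mn n K) :
    P k * (P k * (P k * X - X * P k) - (P k * X - X * P k) * P k) -
      (P k * (P k * X - X * P k) - (P k * X - X * P k) * P k) * P k = P k * X - X * P k := by
  let A : Mn n K →ₗ[K] Mn n K := LinearMap.mulLeft K (P k) - LinearMap.mulRight K (P k)
  have hA : ∀ X, A X = P k * X - X * P k := fun X => rfl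
  let W : Submodule K (Mn n K) := LinearMap.ker (A ∘ₗ A ∘ₗ A - A)
  have hW : ∀ X, X ∈ W ↔ A (A (A X)) = A X := by
    intro X
    rw [LinearMap.mem_ker, LinearMap.sub_apply, sub_eq_zero]; rfl
  have hle : Lsp N ≤ W := by
    rw [Lsp, Submodule.span_le]
    rintro w (⟨i, j, a, hij, rfl⟩ | ⟨i, j, a, b, hij, rfl⟩)
    · show _ ∈ W
      rw [hW]
      by_cases hk : k = i
      · subst hk
        have e : A (N k j a) = N k j a := h.h1 k j a hij
        rw [e, e, e]
      · by_cases hk' : k = j
        · subst hk'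
          have e : A (N i k a) = - N i k a := h.h2 i k a hij
          rw [e, map_neg, e, neg_neg, e]
        · have e : A (N i j a) = 0 := by
            rw [hA, h.h3 i j k a hij hk hk', sub_self]
          simp only [e, map_zero]
    · show _ ∈ W
      rw [hW]
      have e : A (N i j a * N j i b - N j i b * N i j a) = 0 := by
        rw [hA, h.br k i j hij a b, sub_self]
      simp only [e, map_zero]
  have := (hW X).1 (all_of_sl hn W (fun w hw => hle (hL w hw)) (by
    rw [hW]
    have e : A 1 = 0 := by rw [hA]; simp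
    simp only [e, map_zero]) X)
  exact this

lemma Wt.smul (hm : 3 ≤ m) (hn : 2 ≤ n) (hN : LR N) {P : Fin m → Mn n K} (h : Wt N P)
    (hL : ∀ w : Mn n K, w.trace = 0 → w ∈ Lsp N) (k : Fin m) (c : K) :
    P k ≠ c • (1 : Mn n K) := by
  intro hc
  obtain ⟨j, hj, -⟩ := third hm k k
  have := h.h1 k j 1 hj.symm
  rw [hc] at this
  simp only [smul_mul_assoc, one_mul, mul_smul_comm, mul_one, sub_self] at this
  exact hN.nz hm hn hL hj.symm this.symm

/-- shift by scalars. -/
lemma Wt.shift {P : Fin m → Mn n K} (h : Wt N P) (l : Fin m → K) :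
    Wt N (fun i => P i - l i • (1 : Mn n K)) where
  h1 i j a hij := by
    refine Eq.trans ?_ (h.h1 i j a hij)
    simp only [sub_mul, mul_sub, smul_mul_assoc, one_mul, mul_smul_comm, mul_one]
    abel
  h2 i j a hij := by
    refine Eq.trans ?_ (h.h2 i j a hij)
    simp only [sub_mul, mul_sub, smul_mul_assoc, one_mul, mul_smul_comm, mul_one]
    abel
  h3 i j k a hij hki hkj := by
    simp only [sub_mul, mul_sub, smul_mul_assoc, one_mul, mul_smul_comm, mul_one]
    rw [h.h3 i j k a hij hki hkj]
  h4 i j := by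
    simp only [sub_mul, mul_sub, smul_mul_assoc, one_mul, mul_smul_comm, mul_one]
    rw [h.h4 i j, smul_sub, smul_sub, smul_smul, smul_smul, mul_comm (l i) (l j)]
    abel

/-- two idempotents. -/
lemma Wt.pair (hn : 2 ≤ n) {f : Fin m → Mn n K} (h : Wt N f) (hf : ∀ i, f i * f i = f i)
    (hL : ∀ w : Mn n K, w.trace = 0 → w ∈ Lsp N) {i j : Fin m} (hij : i ≠ j) :
    f i * f j = 0 ∨ (1 - f i) * (1 - f j) = 0 := by
  apply prime_M
  intro X
  let A : Mn n K →ₗ[K] Mn n K :=
    LinearMap.mulRight K ((1 - f i) * (1 - f j)) ∘ₗ LinearMap.mulLeft K (f i * f j)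
  have hA : ∀ X, A X = f i * f j * X * ((1 - f i) * (1 - f j)) := fun X => rfl
  have c1 : ∀ k, f k * (1 - f k) = 0 := fun k => by rw [mul_sub, mul_one, hf, sub_self]
  have cc : ∀ k l, f k * f l = f l * f k := h.h4
  have c2 : ∀ k l, (1 - f k) * (1 - f l) = (1 - f l) * (1 - f k) := by
    intro k l
    simp only [mul_sub, sub_mul, mul_one, one_mul]
    rw [cc k l]; abel
  have key : ∀ Y, f i * Y = Y * f i → A Y = 0 := by
    intro Y hY
    rw [hA, cc i j, mul_assoc (f j), hY]
    calc f j * (Y * f i) * ((1 - f i) * (1 - f j))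
        = f j * Y * (f i * (1 - f i)) * (1 - f j) := by noncomm_ring
      _ = 0 := by rw [c1]; simp
  have key' : ∀ Y, f j * Y = Y * f j → A Y = 0 := by
    intro Y hY
    rw [hA, mul_assoc (f i), hY, c2 i j]
    calc f i * (Y * f j) * ((1 - f j) * (1 - f i))
        = f i * Y * (f j * (1 - f j)) * (1 - f i) := by noncomm_ring
      _ = 0 := by rw [c1]; simp
  have hle : Lsp N ≤ LinearMap.ker A := by
    rw [Lsp, Submodule.span_le]
    rintro w (⟨k, l, a, hkl, rfl⟩ | ⟨k, l, a, b, hkl, rfl⟩)
    · show A _ = 0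
      by_cases hki : k = i
      · subst hki
        by_cases hlj : l = j
        · subst hlj
          rw [hA, mul_assoc (f k), (id_neg (hf l) (h.h2 k l a hkl)).1]
          simp
        · exact key' _ (h.h3 k l j a hkl hij.symm (Ne.symm hlj))
      · by_cases hli : l = i
        · subst hli
          rw [hA, cc l j, mul_assoc (f j), (id_neg (hf l) (h.h2 k l a hkl)).1]
          simp
        · exact key _ (h.h3 k l i a hkl (Ne.symm hki) (Ne.symm hli))
    · show A _ = 0
      exact key _ (h.br i k l hkl a b)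
  have := all_of_sl hn (LinearMap.ker A) (fun w hw => hle (hL w hw)) (key 1 (by simp)) X
  have h2 : A X = 0 := this
  rw [hA] at h2
  exact h2

/-- orthogonal idempotents generate everything. -/
lemma sum_one (hn : 2 ≤ n) {e : Fin m → Mn n K} (he : ∀ i, e i * e i = e i)
    (h0 : ∀ i, e i ≠ 0) (ho : ∀ i j, i ≠ j → e i * e j = 0) (i0 : Fin m)
    (hL : ∀ w : Mn n K, w.trace = 0 → w ∈ Lsp N)
    (h1 : ∀ i j a, i ≠ j → (∃ k, e k * N i j a = N i j a) ∧ (∃ k, N i j a * e k = N i j a)) :
    ∑ i, e i = 1 := by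
  set E := ∑ i, e i with hE
  have hEe : ∀ k, E * e k = e k := by
    intro k
    rw [hE, Finset.sum_mul, Finset.sum_eq_single k (fun j _ hj => ho j k hj)
      (fun h => absurd (Finset.mem_univ k) h), he]
  have heE : ∀ k, e k * E = e k := by
    intro k
    rw [hE, Finset.mul_sum, Finset.sum_eq_single k (fun j _ hj => ho k j hj.symm)
      (fun h => absurd (Finset.mem_univ k) h), he]
  have hl : ∀ i j a, i ≠ j → E * N i j a = N i j a := by
    intro i j a hij
    obtain ⟨⟨k, hk⟩, -⟩ := h1 i j a hij
    nth_rw 1 [← hk]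
    rw [← mul_assoc, hEe, hk]
  have hr : ∀ i j a, i ≠ j → N i j a * E = N i j a := by
    intro i j a hij
    obtain ⟨-, ⟨k, hk⟩⟩ := h1 i j a hij
    nth_rw 1 [← hk]
    rw [mul_assoc, heE, hk]
  let A : Mn n K →ₗ[K] Mn n K := LinearMap.mulLeft K E - LinearMap.mulRight K E
  have hA : ∀ X, A X = E * X - X * E := fun X => rfl
  have hle : Lsp N ≤ LinearMap.ker A := by
    rw [Lsp, Submodule.span_le]
    rintro w (⟨k, l, a, hkl, rfl⟩ | ⟨k, l, a, b, hkl, rfl⟩)
    · show A _ = 0
      rw [hA, hl k l a hkl, hr k l a hkl, sub_self]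
    · show A _ = 0
      rw [hA, mul_sub, sub_mul, ← mul_assoc, ← mul_assoc, hl k l a hkl, hl l k b hkl.symm,
        mul_assoc, mul_assoc, hr k l a hkl, hr l k b hkl.symm, sub_self]
  have hc : ∀ X, E * X = X * E := by
    intro X
    have := all_of_sl hn (LinearMap.ker A) (fun w hw => hle (hL w hw)) (by
      show A 1 = 0
      rw [hA]; simp) X
    have h2 : A X = 0 := this
    rw [hA, sub_eq_zero] at h2
    exact h2
  obtain ⟨c, hc⟩ := scalar_of_comm hc
  have h3 := hEe i0
  rw [hc, smul_mul_assoc, one_mul] at h3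
  have h4 : (c - 1) • e i0 = 0 := by rw [sub_smul, one_smul, h3, sub_self]
  rcases smul_eq_zero.1 h4 with h5 | h5
  · rw [hc, sub_eq_zero.1 h5, one_smul]
  · exact absurd h5 (h0 i0)

end ide

theorem ide : S_P → S_IDE := by
  intro hP m n hm hn K _ _ R _ N hN hL
  obtain ⟨P, p1, p2, p3, p4⟩ := hP m n hm K R N hN
  have hW : Wt N P := ⟨p1, p2, p3, p4⟩
  have hex : ∀ k, ∃ l : K, (P k - l • (1 : Mn n K)) * (P k - l • 1) = P k - l • 1 := fun k =>
    quad (hW.cube hn hL k) (hW.smul hm hn hN hL k)
  choose l hl using hex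
  set f : Fin m → Mn n K := fun k => P k - l k • (1 : Mn n K) with hf
  have hWf : Wt N f := hW.shift l
  have hff : ∀ k, f k * f k = f k := hl
  have hns : ∀ k (c : K), f k ≠ c • (1 : Mn n K) := fun k c => hWf.smul hm hn hN hL k c
  have hn0 : ∀ k, f k ≠ 0 := fun k h => hns k 0 (by rw [h, zero_smul])
  have hn1 : ∀ k, (1 : Mn n K) - f k ≠ 0 := fun k h => hns k 1 (by
    rw [one_smul]; exact (sub_eq_zero.1 h).symm)
  have hp : ∀ i j, i ≠ j → f i * f j = 0 ∨ (1 - f i) * (1 - f j) = 0 := fun i j hij =>
    hWf.pair hn hff hL hij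
  have cc : ∀ k l, f k * f l = f l * f k := hWf.h4
  have c2 : ∀ k l, (1 - f k) * (1 - f l) = (1 - f l) * (1 - f k) := by
    intro k l
    simp only [mul_sub, sub_mul, mul_one, one_mul]
    rw [cc k l]; abel
  -- no mixing
  have mix : ∀ i j k, i ≠ j → i ≠ k → j ≠ k → f i * f j = 0 → (1 - f i) * (1 - f k) = 0 → False := by
    intro i j k hij hik hjk h1 h2
    have h3 : f j * f k = f j := by
      have e1 : f j * (1 - f i) = f j := by rw [mul_sub, mul_one, cc j i, h1, sub_zero]
      have e2 : f j * (1 - f i) * (1 - f k) = 0 := by rw [mul_assoc, h2, mul_zero]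
      rw [e1, mul_sub, mul_one, sub_eq_zero] at e2
      exact e2.symm
    rcases hp j k hjk with h4 | h4
    · rw [h4] at h3
      exact hn0 j h3.symm
    · apply hn1 k
      have e1 : (1 - f j) * (1 - f k) = 1 - f k := by
        simp only [mul_sub, sub_mul, mul_one, one_mul]
        rw [h3]; abel
      rw [← e1, h4]
  have hne2 : ∀ i j, i ≠ j → f i * f j = 0 → (1 - f i) * (1 - f j) = 0 → False := by
    intro i j hij h1 h2
    obtain ⟨k, hki, hkj⟩ := third hm i j
    rcases hp i k hki.symm with h3 | h3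
    · exact mix i k j hki.symm hij hkj h3 h2
    · exact mix i j k hij hki.symm hkj.symm h1 h3
  have nz : 0 < m := by omega
  by_cases hall : ∀ i j, i ≠ j → f i * f j = 0
  · refine ⟨f, hff, hn0, hall, ?_, Or.inl ?_⟩
    · apply sum_one hn hff hn0 hall ⟨0, nz⟩ hL
      intro i j a hij
      exact ⟨⟨i, (id_pos (hff i) (hWf.h1 i j a hij)).1⟩, ⟨j, (id_neg (hff j) (hWf.h2 i j a hij)).2⟩⟩
    · intro i j a hij
      rw [(id_pos (hff i) (hWf.h1 i j a hij)).1, (id_neg (hff j) (hWf.h2 i j a hij)).2]
  · push Not at hall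
    obtain ⟨i, j, hij, hne⟩ := hall
    have hall' : ∀ k l, k ≠ l → (1 - f k) * (1 - f l) = 0 := by
      have d : ∀ i j, i ≠ j → (1 - f i) * (1 - f j) = 0 → ∀ k, k ≠ i → (1 - f i) * (1 - f k) = 0 := by
        intro i j hij h k hki
        by_cases hkj : k = j
        · rw [hkj]; exact h
        · rcases hp i k hki.symm with h3 | h3
          · exact (mix i k j hki.symm hij hkj h3 h).elim
          · exact h3
      have dij : (1 - f i) * (1 - f j) = 0 := (hp i j hij).resolve_left hne
      intro k l hkl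
      by_cases hki : k = i
      · subst hki
        exact d k j hij dij l hkl.symm
      · have h1 := d i j hij dij k hki
        rw [c2] at h1
        exact d k i hki h1 l hkl.symm
    have e2 : ∀ k, (1 - f k) * (1 - f k) = 1 - f k := by
      intro k
      simp only [mul_sub, sub_mul, mul_one, one_mul]
      rw [hff]; abel
    have l1 : ∀ i j a, i ≠ j → (1 - f j) * N i j a = N i j a := by
      intro i j a hij
      rw [sub_mul, one_mul, (id_neg (hff j) (hWf.h2 i j a hij)).1, sub_zero]
    have l2 : ∀ i j a, i ≠ j → N i j a * (1 - f i) = N i j a := by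
      intro i j a hij
      rw [mul_sub, mul_one, (id_pos (hff i) (hWf.h1 i j a hij)).2, sub_zero]
    refine ⟨fun k => 1 - f k, e2, hn1, hall', ?_, Or.inr ?_⟩
    · apply sum_one hn e2 hn1 hall' ⟨0, nz⟩ hL
      intro i j a hij
      exact ⟨⟨j, l1 i j a hij⟩, ⟨i, l2 i j a hij⟩⟩
    · intro i j a hij
      show N i j a = (1 - f j) * N i j a * (1 - f i)
      rw [l1 i j a hij, l2 i j a hij]

end Pool.Agent.T2h61.PR
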