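import Pool.Agent.T2h61.PR.T_CORE

set_option autoImplicit false

namespace Pool.Agent.T2h61.PR

open Matrix Pool.Agent.Helper58.K2

section conj1
variable {m n : ℕ} {K R : Type} [Field K] [CharZero K] [Ring R]
  {X : Fin m → Fin m → R → (Mn n K)ˣ} {N : Fin m → Fin m → R → Mn n K}

/-- Products of nonadjacent elements vanish. -/
def ZP (N : Fin m → Fin m → R → Mn n K) : Prop :=
  (∀ i j k l a b, i ≠ j → k ≠ l → j ≠ k → N i j a * N k l b = 0) ∨
    (∀ i j k l a b, i ≠ j → k ≠ l → i ≠ l → N i j a * N k l b = 0)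

lemma ZP.sq (h : ZP N) {i j : Fin m} (hij : i ≠ j) (a b : R) : N i j a * N i j b = 0 := by
  rcases h with h | h
  · exact h i j i j a b hij hij hij.symm
  · exact h i j i j a b hij hij hij

lemma ZP.aba (h : ZP N) {i j k l : Fin m} (hij : i ≠ j) (hkl : k ≠ l) (hne : ¬ (k = j ∧ l = i))
    (a b c : R) (hLR : LR N) : N i j a * N k l b * N i j c = 0 := by
  by_cases h1 : j = k
  · have h2 : i ≠ l := fun h' => hne ⟨h1.symm, h'.symm⟩
    rcases h with h | h
    · rw [mul_assoc, h k l i j b c hkl hij (Ne.symm h2), mul_zero]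
    · rw [h i j k l a b hij hkl h2, zero_mul]
  · by_cases h2 : i = l
    · rcases h with h | h
      · rw [h i j k l a b hij hkl h1, zero_mul]
      · rw [mul_assoc, h k l i j b c hkl hij (Ne.symm h1), mul_zero]
    · rw [hLR.commute i j k l hij hkl h1 h2, mul_assoc]
      have : N i j a * N i j c = 0 := by
        rcases h with h | h
        · exact h i j i j a c hij hij hij.symm
        · exact h i j i j a c hij hij hij
      rw [this, mul_zero]

lemma LR.neg (hLR : LR N) {i j : Fin m} (hij : i ≠ j) (a : R) : N i j (-a) = - N i j a := by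
  have h0 : N i j 0 = 0 := by
    have := hLR.add i j 0 0 hij
    rw [add_zero] at this
    exact left_eq_add.1 this
  have h1 := hLR.add i j a (-a) hij
  rw [add_neg_cancel, h0] at h1
  exact (neg_eq_of_add_eq_zero_right h1.symm).symm

/-- the two conjugations agree. -/
lemma conj_agree (hm : 3 ≤ m) (hn : 2 ≤ n) (hLR : LR N) (hXN : XN X N) (hZ : ZP N)
    (hL : ∀ w : Mn n K, w.trace = 0 → w ∈ Lsp N) {i j : Fin m} (hij : i ≠ j) (a : R)
    (w : Mn n K) :
    (X i j a : Mn n K) * w * (((X i j a)⁻¹ : (Mn n K)ˣ) : Mn n K) =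
      (1 + N i j a) * w * (1 - N i j a) := by
  set g := X i j a with hg
  set A := N i j a with hA
  have hAA : A * A = 0 := hZ.sq hij a a
  have hz1 : (1 + A) * (1 - A) = 1 := by
    have : (1 + A) * (1 - A) = 1 - A * A := by noncomm_ring
    rw [this, hAA, sub_zero]
  have hz2 : (1 - A) * (1 + A) = 1 := by
    have : (1 - A) * (1 + A) = 1 - A * A := by noncomm_ring
    rw [this, hAA, sub_zero]
  have hgi : (((g⁻¹ : (Mn n K)ˣ) : Mn n K)) * (g : Mn n K) = 1 := Units.inv_mul g
  have hgi' : (g : Mn n K) * (((g⁻¹ : (Mn n K)ˣ) : Mn n K)) = 1 := Units.mul_inv g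
  -- multiplicativity
  have mX : ∀ u v : Mn n K, (g : Mn n K) * (u * v) * (((g⁻¹ : (Mn n K)ˣ) : Mn n K)) =
      ((g : Mn n K) * u * (((g⁻¹ : (Mn n K)ˣ) : Mn n K))) *
        ((g : Mn n K) * v * (((g⁻¹ : (Mn n K)ˣ) : Mn n K))) := by
    intro u v
    calc (g : Mn n K) * (u * v) * (((g⁻¹ : (Mn n K)ˣ) : Mn n K))
        = (g : Mn n K) * u * 1 * v * (((g⁻¹ : (Mn n K)ˣ) : Mn n K)) := by noncomm_ring
      _ = (g : Mn n K) * u * ((((g⁻¹ : (Mn n K)ˣ) : Mn n K)) * (g : Mn n K)) * v *
          (((g⁻¹ : (Mn n K)ˣ) : Mn n K)) := by rw [hgi]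
      _ = _ := by noncomm_ring
  have mz : ∀ u v : Mn n K, (1 + A) * (u * v) * (1 - A) =
      ((1 + A) * u * (1 - A)) * ((1 + A) * v * (1 - A)) := by
    intro u v
    calc (1 + A) * (u * v) * (1 - A) = (1 + A) * u * 1 * v * (1 - A) := by noncomm_ring
      _ = (1 + A) * u * ((1 - A) * (1 + A)) * v * (1 - A) := by rw [hz2]
      _ = _ := by noncomm_ring
  have dX : ∀ u v : Mn n K, (g : Mn n K) * (u - v) * (((g⁻¹ : (Mn n K)ˣ) : Mn n K)) =
      (g : Mn n K) * u * (((g⁻¹ : (Mn n K)ˣ) : Mn n K)) -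
        (g : Mn n K) * v * (((g⁻¹ : (Mn n K)ˣ) : Mn n K)) := by
    intro u v; rw [mul_sub, sub_mul]
  have dz : ∀ u v : Mn n K, (1 + A) * (u - v) * (1 - A) =
      (1 + A) * u * (1 - A) - (1 + A) * v * (1 - A) := by
    intro u v; noncomm_ring
  have expand : ∀ w : Mn n K, (1 + A) * w * (1 - A) = w + (A * w - w * A) - A * w * A := by
    intro w; noncomm_ring
  -- generators different from (j, i)
  have k1 : ∀ k l b, k ≠ l → ¬ (k = j ∧ l = i) →
      (g : Mn n K) * N k l b * (((g⁻¹ : (Mn n K)ˣ) : Mn n K)) = (1 + A) * N k l b * (1 - A) := by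
    intro k l b hkl hne
    rw [expand, hZ.aba hij hkl hne a b a hLR, sub_zero]
    by_cases h1 : j = k
    · subst h1
      have h2 : i ≠ l := fun h' => hne ⟨rfl, h'.symm⟩
      rw [hXN.left i j l hij hkl h2, hLR.comm i j l hij hkl h2]
    · by_cases h2 : i = l
      · subst h2
        have h3 := hLR.comm k i j hkl hij (Ne.symm h1) b a
        rw [hXN.right i j k hij hkl (Ne.symm h1), ← h3]
        noncomm_ring
      · rw [hXN.fix i j k l hij hkl h1 h2, hLR.commute i j k l hij hkl h1 h2, sub_self, add_zero]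
  have k2 : ∀ k l b, k ≠ l →
      (g : Mn n K) * N k l b * (((g⁻¹ : (Mn n K)ˣ) : Mn n K)) = (1 + A) * N k l b * (1 - A) := by
    intro k l b hkl
    by_cases hne : k = j ∧ l = i
    · obtain ⟨rfl, rfl⟩ := hne
      obtain ⟨p, hp1, hp2⟩ := third hm l k
      have e := hLR.comm k p l hp2.symm hp1 hkl b 1
      rw [mul_one] at e
      have h1 := k1 k p b hp2.symm (fun h => hp1 h.2)
      have h2 := k1 p l 1 hp1 (fun h => hp2 h.1)
      rw [← e, dX, dz, mX, mX, mz, mz, h1, h2]
    · exact k1 k l b hkl hne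
  let f1 : Mn n K →ₗ[K] Mn n K :=
    LinearMap.mulRight K (((g⁻¹ : (Mn n K)ˣ) : Mn n K)) ∘ₗ LinearMap.mulLeft K (g : Mn n K)
  let f2 : Mn n K →ₗ[K] Mn n K := LinearMap.mulRight K (1 - A) ∘ₗ LinearMap.mulLeft K (1 + A)
  have hf1 : ∀ w, f1 w = (g : Mn n K) * w * (((g⁻¹ : (Mn n K)ˣ) : Mn n K)) := fun w => rfl
  have hf2 : ∀ w, f2 w = (1 + A) * w * (1 - A) := fun w => rfl
  have hle : Lsp N ≤ LinearMap.eqLocus f1 f2 := by
    rw [Lsp, Submodule.span_le]
    rintro w (⟨k, l, b, hkl, rfl⟩ | ⟨k, l, b, c, hkl, rfl⟩)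
    · exact k2 k l b hkl
    · show f1 _ = f2 _
      rw [hf1, hf2, dX, dz, mX, mX, mz, mz, k2 k l b hkl,
        k2 l k c hkl.symm]
  have := all_of_sl hn (LinearMap.eqLocus f1 f2) (fun w hw => hle (hL w hw)) (by
    show f1 1 = f2 1
    rw [hf1, hf2, mul_one, mul_one, hgi', hz1]) w
  exact this

theorem conj1 (hm : 3 ≤ m) (hn : 2 ≤ n) (hX : SR X) (hLR : LR N) (hXN : XN X N) (hZ : ZP N)
    (hL : ∀ w : Mn n K, w.trace = 0 → w ∈ Lsp N) {i j : Fin m} (hij : i ≠ j) (a : R) :
    (X i j a : Mn n K) = 1 + N i j a := by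
  have hz1 : ∀ i j a, i ≠ j → (1 + N i j a) * (1 - N i j a) = 1 := by
    intro i j a hij
    have : (1 + N i j a) * (1 - N i j a) = 1 - N i j a * N i j a := by noncomm_ring
    rw [this, hZ.sq hij, sub_zero]
  have hz2 : ∀ i j a, i ≠ j → (1 - N i j a) * (1 + N i j a) = 1 := by
    intro i j a hij
    have : (1 - N i j a) * (1 + N i j a) = 1 - N i j a * N i j a := by noncomm_ring
    rw [this, hZ.sq hij, sub_zero]
  -- scalars
  have hsc : ∀ i j a, i ≠ j → ∃ c : K, (X i j a : Mn n K) = c • (1 + N i j a) := by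
    intro i j a hij
    have h1 := conj_agree hm hn hLR hXN hZ hL hij a
    have h2 : ∀ w, (1 - N i j a) * (X i j a : Mn n K) * w = w * ((1 - N i j a) * (X i j a : Mn n K)) := by
      intro w
      have h3 : (X i j a : Mn n K) * w = (1 + N i j a) * w * (1 - N i j a) * (X i j a : Mn n K) := by
        rw [← h1 w, mul_assoc _ _ (X i j a : Mn n K), Units.inv_mul, mul_one]
      rw [mul_assoc, h3]
      calc (1 - N i j a) * ((1 + N i j a) * w * (1 - N i j a) * (X i j a : Mn n K))
          = ((1 - N i j a) * (1 + N i j a)) * w * (1 - N i j a) * (X i j a : Mn n K) := by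
            noncomm_ring
        _ = _ := by rw [hz2 i j a hij]; noncomm_ring
    obtain ⟨c, hc⟩ := scalar_of_comm h2
    refine ⟨c, ?_⟩
    calc (X i j a : Mn n K) = ((1 + N i j a) * (1 - N i j a)) * (X i j a : Mn n K) := by
          rw [hz1 i j a hij, one_mul]
      _ = (1 + N i j a) * ((1 - N i j a) * (X i j a : Mn n K)) := by rw [mul_assoc]
      _ = c • (1 + N i j a) := by rw [hc, mul_smul_comm, mul_one]
  obtain ⟨k, hki, hkj⟩ := third hm i j
  -- X i j a = [X i k a, X k j 1]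
  have e1 := hX.comm i k j hki.symm hkj hij a 1
  rw [mul_one] at e1
  have e2 : (X i j a : Mn n K) * (X k j 1 : Mn n K) =
      (X i k a : Mn n K) * (X k j 1 : Mn n K) * (((X i k a)⁻¹ : (Mn n K)ˣ) : Mn n K) := by
    rw [← Units.val_mul, ← Units.val_mul, ← Units.val_mul, ← e1]
    congr 1
    group
  rw [conj_agree hm hn hLR hXN hZ hL hki.symm a] at e2
  obtain ⟨c, hc⟩ := hsc k j 1 hkj
  have hc0 : c ≠ 0 := by
    rintro rfl
    rw [zero_smul] at hc
    have := Units.mul_inv (X k j (1 : R))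
    rw [hc, zero_mul] at this
    have h01 := congrFun (congrFun this ⟨0, by omega⟩) ⟨0, by omega⟩
    simp at h01
  set A := N i k a with hA
  set B := N k j 1 with hB
  set C := N i j a with hC
  have hAB : A * B - B * A = C := by
    have := hLR.comm i k j hki.symm hkj hij a 1
    rw [mul_one] at this
    exact this
  have hABA : A * B * A = 0 :=
    hZ.aba hki.symm hkj (fun h => hij h.2.symm) a 1 a hLR
  have hCB : C * B = 0 := by
    rcases hZ with h | h
    · exact h i j k j a 1 hij hkj (Ne.symm hkj)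
    · exact h i j k j a 1 hij hkj hij
  have e3 : (1 + A) * (1 + B) * (1 - A) = (1 + C) * (1 + B) := by
    have h1 : A * A = 0 := hZ.sq hki.symm a a
    calc (1 + A) * (1 + B) * (1 - A)
        = 1 + B + (A * B - B * A) - A * A - A * B * A := by noncomm_ring
      _ = 1 + B + C := by rw [hAB, h1, hABA]; simp
      _ = (1 + C) * (1 + B) := by
        have : (1 + C) * (1 + B) = 1 + B + C + C * B := by noncomm_ring
        rw [this, hCB, add_zero]
  rw [hc, mul_smul_comm, mul_smul_comm, smul_mul_assoc, e3] at e2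
  have e4 := smul_right_injective _ hc0 e2
  have e5 : (X i j a : Mn n K) * ((1 + B) * (1 - B)) = (1 + C) * ((1 + B) * (1 - B)) := by
    rw [← mul_assoc, ← mul_assoc]
    exact congrArg (fun t => t * (1 - B)) e4
  rw [hz1 k j 1 hkj, mul_one, mul_one] at e5
  exact e5

end conj1

/-- The structure theorem. -/
theorem st2 (hUNI : S_UNI) (hBETA : S_BETA) (hLOG : S_LOG) (hINV : S_INV) (hIDE : S_IDE)
    (m n : ℕ) (hm : 3 ≤ m)
    (hn : 2 ≤ n) (K : Type) [Field K] [CharZero K] (R : Type) [Ring R]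
    (X : Fin m → Fin m → R → (Mn n K)ˣ) (hX : SR X)
    (hIrr : Irr (fun t : Fin m × Fin m × R => X t.1 t.2.1 t.2.2))
    (hInf : (Subgroup.closure {g | ∃ i j a, g = X i j a}).carrier.Infinite) :
    ∃ e : Fin m → Mn n K,
      BD (fun i j (a : R) => (X i j a : Mn n K) - 1) e ∨
      BD (fun i j (a : Rᵐᵒᵖ) => -((X j i a.unop : Mn n K) - 1)) e := by
  obtain ⟨N, hLR, hXN, hL⟩ := core hUNI hBETA hLOG hINV m n hm hn K R X hX hIrr hInf
  obtain ⟨e, he, h0, ho, hs, hb | hb⟩ := hIDE m n hm hn K R N hLR hL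
  · have hSD := SD.of_typeS hm hn hLR hL he h0 ho hs hb
    have hZ : ZP N := Or.inl fun i j k l a b hij hkl hjk => by
      rw [← hSD.left hkl b, ← mul_assoc, hSD.right0 hij (Ne.symm hjk), zero_mul]
    have hXe : ∀ i j a, i ≠ j → (X i j a : Mn n K) - 1 = N i j a := fun i j a hij => by
      rw [conj1 hm hn hX hLR hXN hZ hL hij a]; simp
    refine ⟨e, Or.inl ⟨he, ho, hs, ?_, ?_, ?_, ?_⟩⟩
    · intro i j a b hij
      simp only [hXe i j _ hij]
      exact hSD.add i j a b hij
    · intro i j a hij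
      simp only [hXe i j _ hij]
      exact hSD.blk i j a hij
    · intro i j k hij hjk hik a b
      simp only [hXe i j _ hij, hXe j k _ hjk, hXe i k _ hik]
      exact hSD.mul i j k hij hjk hik a b
    · intro i j hij
      simp only [hXe i j _ hij, hXe j i _ hij.symm]
      exact hSD.inv hm hij
  · have hSD := SD.of_typeD hm hn hLR hL he h0 ho hs hb
    have hz : ∀ i j k l a b, i ≠ j → k ≠ l → i ≠ l → N i j a * N k l b = 0 := by
      intro i j k l a b hij hkl hil
      have h1 := hSD.right0 (i := j) (j := i) (k := l) hij.symm (Ne.symm hil) (MulOpposite.op a)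
      have h2 := hSD.left (i := l) (j := k) hkl.symm (MulOpposite.op b)
      simp only [MulOpposite.unop_op] at h1 h2
      have h3 : (-N i j a) * (e l * (-N k l b)) = 0 := by
        rw [← mul_assoc, h1, zero_mul]
      rw [h2, neg_mul_neg] at h3
      exact h3
    have hZ : ZP N := Or.inr hz
    have hXe : ∀ i j a, i ≠ j → (X i j a : Mn n K) - 1 = N i j a := fun i j a hij => by
      rw [conj1 hm hn hX hLR hXN hZ hL hij a]; simp
    refine ⟨e, Or.inr ⟨he, ho, hs, ?_, ?_, ?_, ?_⟩⟩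
    · intro i j a b hij
      simp only [hXe j i _ hij.symm]
      exact hSD.add i j a b hij
    · intro i j a hij
      simp only [hXe j i _ hij.symm]
      exact hSD.blk i j a hij
    · intro i j k hij hjk hik a b
      simp only [hXe j i _ hij.symm, hXe k j _ hjk.symm, hXe k i _ hik.symm]
      exact hSD.mul i j k hij hjk hik a b
    · intro i j hij
      simp only [hXe i j _ hij, hXe j i _ hij.symm]
      exact hSD.inv hm hij

end Pool.Agent.T2h61.PR
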