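import Pool.Agent.T2h61.PR.T_IDE

set_option autoImplicit false

namespace Pool.Agent.T2h61.PR

open Matrix

section sd
variable {m n : ℕ} {K R : Type} [Field K] [Ring R]

/-- A family of block type. -/
structure SD (N : Fin m → Fin m → R → Mn n K) (e : Fin m → Mn n K) : Prop where
  idem : ∀ i, e i * e i = e i
  ne : ∀ i, e i ≠ 0
  orth : ∀ i j, i ≠ j → e i * e j = 0
  sum : ∑ i, e i = 1
  add : ∀ i j a b, i ≠ j → N i j (a + b) = N i j a + N i j b
  blk : ∀ i j a, i ≠ j → N i j a = e i * N i j a * e j
  mul : ∀ i j k, i ≠ j → j ≠ k → i ≠ k → ∀ a b, N i j a * N j k b = N i k (a * b)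
  span : ∀ i j, i ≠ j → ∀ X, e i * X * e j ∈ Submodule.span K (Set.range (N i j))

variable {N : Fin m → Fin m → R → Mn n K} {e : Fin m → Mn n K}

lemma SD.left (h : SD N e) {i j : Fin m} (hij : i ≠ j) (a : R) : e i * N i j a = N i j a := by
  rw [h.blk i j a hij, ← mul_assoc, ← mul_assoc, h.idem]

lemma SD.right (h : SD N e) {i j : Fin m} (hij : i ≠ j) (a : R) : N i j a * e j = N i j a := by
  rw [h.blk i j a hij, mul_assoc, h.idem]

lemma SD.left0 (h : SD N e) {i j k : Fin m} (hij : i ≠ j) (hk : k ≠ i) (a : R) :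
    e k * N i j a = 0 := by
  rw [h.blk i j a hij, ← mul_assoc, ← mul_assoc, h.orth k i hk]; simp

lemma SD.right0 (h : SD N e) {i j k : Fin m} (hij : i ≠ j) (hk : k ≠ j) (a : R) :
    N i j a * e k = 0 := by
  rw [h.blk i j a hij, mul_assoc, h.orth j k hk.symm]; simp

/-- `N i j 1 * N j i 1 = e i`. -/
lemma SD.inv (hm : 3 ≤ m) (h : SD N e) {i j : Fin m} (hij : i ≠ j) :
    N i j 1 * N j i 1 = e i := by
  obtain ⟨k, hki, hkj⟩ := third hm i j
  have h1 : ∀ a, N i j 1 * N j i 1 * N i k a = N i k a := by
    intro a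
    rw [mul_assoc, h.mul j i k hij.symm hki.symm hkj.symm, h.mul i j k hij hkj.symm hki.symm,
      one_mul, one_mul]
  set T := N i j 1 * N j i 1 with hT
  have h2 : ∀ X, (T - e i) * (e i * X * e k) = 0 := by
    intro X
    have hle : Submodule.span K (Set.range (N i k)) ≤ LinearMap.ker (LinearMap.mulLeft K (T - e i)) := by
      rw [Submodule.span_le]
      rintro _ ⟨a, rfl⟩
      show (T - e i) * N i k a = 0
      rw [sub_mul, h1, h.left hki.symm, sub_self]
    exact hle (h.span i k hki.symm X)
  have h3 : (T - e i) * e i = T - e i := by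
    rw [sub_mul, h.idem, hT, mul_assoc, h.right hij.symm]
  have h4 : ∀ X, (T - e i) * X * e k = 0 := by
    intro X
    have := h2 X
    rw [← mul_assoc, ← mul_assoc, h3] at this
    exact this
  rcases prime_M h4 with h5 | h5
  · exact sub_eq_zero.1 h5
  · exact absurd h5 (h.ne k)

lemma SD.trace_eq (hm : 3 ≤ m) (h : SD N e) (i j : Fin m) : (e i).trace = (e j).trace := by
  by_cases hij : i = j
  · rw [hij]
  · rw [← h.inv hm hij, Matrix.trace_mul_comm, h.inv hm (Ne.symm hij)]

/-- the rank of an idempotent -/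
lemma trace_idem {f : Mn n K} (hf : f * f = f) :
    f.trace = (Module.finrank K (LinearMap.range (Matrix.toLin' f)) : K) := by
  have h1 : LinearMap.IsProj (LinearMap.range (Matrix.toLin' f)) (Matrix.toLin' f) := by
    constructor
    · intro x
      exact LinearMap.mem_range_self _ x
    · rintro x ⟨y, rfl⟩
      rw [← LinearMap.comp_apply, ← Matrix.toLin'_mul, hf]
  rw [← h1.trace, Matrix.trace_toLin'_eq]

lemma SD.rank (hm : 3 ≤ m) [CharZero K] (h : SD N e) (i : Fin m) :
    n = m * Module.finrank K (LinearMap.range (Matrix.toLin' (e i))) := by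
  have h1 : (∑ j, e j).trace = (n : K) := by
    rw [h.sum, trace_one, Fintype.card_fin]
  rw [Matrix.trace_sum, Finset.sum_congr rfl (fun j _ => h.trace_eq hm j i), Finset.sum_const,
    Finset.card_univ, Fintype.card_fin, trace_idem (h.idem i), nsmul_eq_mul] at h1
  exact_mod_cast h1.symm

/-- commutative case -/
lemma SD.rank_comm (hm : 3 ≤ m) [CharZero K] (h : SD N e) (hR : ∀ a b : R, a * b = b * a)
    (i : Fin m) : Module.finrank K (LinearMap.range (Matrix.toLin' (e i))) = 1 := by
  obtain ⟨j, hji, -⟩ := third hm i i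
  have hij : i ≠ j := hji.symm
  obtain ⟨k, hki, hkj⟩ := third hm i j
  -- psi
  have e1 : ∀ a, N i j a * N j i 1 = N i k a * N k i 1 := by
    intro a
    have e2 : N i j a = N i k a * N k j 1 := by
      rw [h.mul i k j hki.symm hkj hij, mul_one]
    rw [e2, mul_assoc, h.mul k j i hkj hij.symm hki, one_mul]
  have e3 : ∀ a b, (N i j a * N j i 1) * (N i j b * N j i 1) = N i j (a * b) * N j i 1 := by
    intro a b
    rw [e1 b, ← mul_assoc, mul_assoc (N i j a), h.mul j i k hij.symm hki.symm hkj.symm, one_mul,
      h.mul i j k hij hkj.symm hki.symm, ← e1]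
  have hc1 : ∀ a b, (N i j a * N j i 1) * (N i j b * N j i 1) =
      (N i j b * N j i 1) * (N i j a * N j i 1) := by
    intro a b
    rw [e3, e3, hR]
  set S : Set (Mn n K) := Set.range (fun a => N i j a * N j i 1) with hS
  have hspan : ∀ X, e i * X * e i ∈ Submodule.span K S := by
    intro X
    have h1 : e i * X * e i = e i * (X * N i j 1) * e j * N j i 1 := by
      rw [mul_assoc (e i * (X * N i j 1)), h.left hij.symm, ← h.inv hm hij]
      noncomm_ring
    rw [h1]
    have hle : Submodule.span K (Set.range (N i j)) ≤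
        (Submodule.span K S).comap (LinearMap.mulRight K (N j i 1)) := by
      rw [Submodule.span_le]
      rintro _ ⟨a, rfl⟩
      exact Submodule.subset_span ⟨a, rfl⟩
    exact hle (h.span i j hij _)
  have hcomm : ∀ x ∈ Submodule.span K S, ∀ y ∈ Submodule.span K S, x * y = y * x := by
    intro x hx y hy
    have h1 : ∀ a, ∀ y ∈ Submodule.span K S, (N i j a * N j i 1) * y = y * (N i j a * N j i 1) := by
      intro a y hy
      induction hy using Submodule.span_induction with
      | mem y hy => obtain ⟨b, rfl⟩ := hy; exact hc1 a b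
      | zero => simp
      | add y z _ _ h1 h2 => rw [mul_add, add_mul, h1, h2]
      | smul c y _ h1 => rw [mul_smul_comm, smul_mul_assoc, h1]
    induction hx using Submodule.span_induction with
    | mem x hx => obtain ⟨b, rfl⟩ := hx; exact h1 b y hy
    | zero => simp
    | add x z _ _ h1 h2 => rw [mul_add, add_mul, h1, h2]
    | smul c x _ h1 => rw [mul_smul_comm, smul_mul_assoc, h1]
  set f := e i with hf
  have hff : f * f = f := h.idem i
  have h5 : ∀ X Y, f * X * f * Y * f = f * Y * f * X * f := by
    intro X Y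
    have := hcomm _ (hspan X) _ (hspan Y)
    calc f * X * f * Y * f = f * X * (f * f) * Y * f := by rw [hff]
      _ = (f * X * f) * (f * Y * f) := by noncomm_ring
      _ = (f * Y * f) * (f * X * f) := this
      _ = f * Y * (f * f) * X * f := by noncomm_ring
      _ = f * Y * f * X * f := by rw [hff]
  -- entries
  have h6 : ∀ p a b c d q : Fin n, f p a * f b c * f d q = f p c * f d a * f b q := by
    intro p a b c d q
    have := congrFun (congrFun (h5 (Matrix.single a b 1) (Matrix.single c d 1)) p) q
    have h4 : ∀ (A B : Mn n K) (a b i j : Fin n),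
        (A * Matrix.single a b 1 * B : Mn n K) i j = A i a * B b j := by
      intro A B a b i j
      rw [Matrix.mul_apply, Finset.sum_eq_single b]
      · rw [Matrix.mul_single_apply_same, mul_one]
      · intro x _ hx
        rw [Matrix.mul_single_apply_of_ne _ _ _ _ _ hx, zero_mul]
      · intro hx
        exact absurd (Finset.mem_univ b) hx
    rw [h4, h4, h4, h4] at this
    exact this
  have h7 : (f.trace) ^ 2 • f = f := by
    ext d q
    have h8 : ∑ p, ∑ b, f p p * f b b * f d q = ∑ p, ∑ b, f p b * f d p * f b q :=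
      Finset.sum_congr rfl fun p _ => Finset.sum_congr rfl fun b _ => h6 p p b b d q
    have h9 : ∑ p, ∑ b, f p p * f b b * f d q = f.trace ^ 2 * f d q := by
      rw [Matrix.trace]
      simp only [Matrix.diag_apply]
      rw [pow_two, Finset.sum_mul_sum, Finset.sum_mul]
      exact Finset.sum_congr rfl fun p _ => by rw [Finset.sum_mul]
    have h10 : ∑ p, ∑ b, f p b * f d p * f b q = f d q := by
      have : ∑ p, ∑ b, f p b * f d p * f b q = (f * (f * f) : Mn n K) d q := by
        simp only [Matrix.mul_apply, Finset.mul_sum]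
        exact Finset.sum_congr rfl fun p _ => Finset.sum_congr rfl fun b _ => by ring
      rw [this, hff, hff]
    rw [h9, h10] at h8
    simpa using h8
  have h8 : (f.trace ^ 2 - 1) • f = 0 := by rw [sub_smul, h7, one_smul, sub_self]
  rcases smul_eq_zero.1 h8 with h9 | h9
  · rw [trace_idem hff] at h9
    have h10 : (Module.finrank K (LinearMap.range (Matrix.toLin' f))) ^ 2 = 1 := by
      have := sub_eq_zero.1 h9
      exact_mod_cast this
    nlinarith [h10, sq_nonneg (Module.finrank K (LinearMap.range (Matrix.toLin' f)))]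
  · exact absurd h9 (h.ne i)

lemma SD.rank_one (hm : 3 ≤ m) (hn : 2 ≤ n) [CharZero K] (h : SD N e) (hH : Hyp n m R)
    (i : Fin m) : Module.finrank K (LinearMap.range (Matrix.toLin' (e i))) = 1 := by
  rcases hH with hH | hH
  · have h1 := h.rank hm i
    set r := Module.finrank K (LinearMap.range (Matrix.toLin' (e i)))
    by_contra hr
    rcases Nat.lt_or_ge r 2 with h2 | h2
    · have : r = 0 := by omega
      rw [this] at h1
      omega
    · exact hH r h2 h1
  · exact h.rank_comm hm hH i

lemma SD.main (hm : 3 ≤ m) (hn : 2 ≤ n) [CharZero K] (h : SD N e) (hH : Hyp n m R) :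
    ∃ (σ : Fin m ≃ Fin n) (g : (Mn n K)ˣ) (φ : R →+* K), ∀ i j a, i ≠ j → N i j a =
      (g : Mn n K) * Matrix.single (σ i) (σ j) (φ a) * ((g⁻¹ : (Mn n K)ˣ) : Mn n K) := by
  have hr := h.rank_one hm hn hH
  have hmn : m = n := by
    have := h.rank hm ⟨0, by omega⟩
    rw [hr, mul_one] at this
    exact this.symm
  subst hmn
  set i0 : Fin m := ⟨0, by omega⟩ with hi0
  -- one-dimensional ranges
  have hone : ∀ i, ∀ v w : Fin m → K, v ≠ 0 → e i *ᵥ v = v → e i *ᵥ w = w → ∃ c : K, w = c • v := by
    intro i v w hv hev hew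
    obtain ⟨u, hu, hu'⟩ := finrank_eq_one_iff'.1 (hr i)
    have hvm : v ∈ LinearMap.range (Matrix.toLin' (e i)) := ⟨v, by rw [Matrix.toLin'_apply, hev]⟩
    have hwm : w ∈ LinearMap.range (Matrix.toLin' (e i)) := ⟨w, by rw [Matrix.toLin'_apply, hew]⟩
    obtain ⟨a, ha⟩ := hu' ⟨v, hvm⟩
    obtain ⟨b, hb⟩ := hu' ⟨w, hwm⟩
    have ha' : a • (u : Fin m → K) = v := congrArg Subtype.val ha
    have hb' : b • (u : Fin m → K) = w := congrArg Subtype.val hb
    have ha0 : a ≠ 0 := by
      rintro rfl
      rw [zero_smul] at ha'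
      exact hv ha'.symm
    refine ⟨b / a, ?_⟩
    rw [← ha', ← hb', smul_smul, div_mul_cancel₀ _ ha0]
  obtain ⟨v0, hv0, hev0⟩ : ∃ v : Fin m → K, v ≠ 0 ∧ e i0 *ᵥ v = v := by
    obtain ⟨u, hu, -⟩ := finrank_eq_one_iff'.1 (hr i0)
    obtain ⟨y, hy⟩ := u.2
    refine ⟨u, fun h' => hu (Subtype.ext h'), ?_⟩
    rw [← hy, Matrix.toLin'_apply, Matrix.mulVec_mulVec, h.idem]
  set w : Fin m → Fin m → K := fun i => if i = i0 then v0 else N i i0 1 *ᵥ v0 with hw
  have hw0 : w i0 = v0 := by simp [hw]
  have hwi : ∀ i, i ≠ i0 → w i = N i i0 1 *ᵥ v0 := fun i hi => by simp [hw, hi]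
  have hew : ∀ i, e i *ᵥ w i = w i := by
    intro i
    by_cases hi : i = i0
    · rw [hi, hw0, hev0]
    · rw [hwi i hi, Matrix.mulVec_mulVec, h.left hi]
  have hew0 : ∀ i k, k ≠ i → e k *ᵥ w i = 0 := by
    intro i k hk
    rw [← hew i, Matrix.mulVec_mulVec, h.orth k i hk, Matrix.zero_mulVec]
  have hN0 : ∀ i j k a, i ≠ j → k ≠ j → N i j a *ᵥ w k = 0 := by
    intro i j k a hij hk
    rw [← hew k, Matrix.mulVec_mulVec, h.right0 hij hk, Matrix.zero_mulVec]
  have hN1 : ∀ i j, i ≠ j → N i j 1 *ᵥ w j = w i := by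
    intro i j hij
    by_cases hj : j = i0
    · subst hj
      rw [hw0, hwi i hij]
    · by_cases hi : i = i0
      · subst hi
        rw [hw0, hwi j hj, Matrix.mulVec_mulVec, h.inv hm hij, hev0]
      · rw [hwi i hi, hwi j hj, Matrix.mulVec_mulVec, h.mul i j i0 hij hj hi, one_mul]
  have hwne : ∀ i, w i ≠ 0 := by
    intro i hi
    by_cases hi' : i = i0
    · subst hi'
      rw [hw0] at hi
      exact hv0 hi
    · have := hN1 i0 i (Ne.symm hi')
      rw [hi, Matrix.mulVec_zero, hw0] at this
      exact hv0 this.symm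
  have hcex : ∀ i j a, ∃ c : K, i ≠ j → N i j a *ᵥ w j = c • w i := by
    intro i j a
    by_cases hij : i = j
    · exact ⟨0, fun h' => absurd hij h'⟩
    · obtain ⟨c, hc⟩ := hone i (w i) (N i j a *ᵥ w j) (hwne i) (hew i)
        (by rw [Matrix.mulVec_mulVec, h.left hij])
      exact ⟨c, fun _ => hc⟩
  choose c hc using hcex
  have canc : ∀ i (x y : K), x • w i = y • w i → x = y := by
    intro i x y hxy
    have : (x - y) • w i = 0 := by rw [sub_smul, hxy, sub_self]
    rcases smul_eq_zero.1 this with h1 | h1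
    · exact sub_eq_zero.1 h1
    · exact absurd h1 (hwne i)
  have hc1 : ∀ i j, i ≠ j → c i j 1 = 1 := by
    intro i j hij
    apply canc i
    rw [← hc i j 1 hij, hN1 i j hij, one_smul]
  have hcadd : ∀ i j a b, i ≠ j → c i j (a + b) = c i j a + c i j b := by
    intro i j a b hij
    apply canc i
    rw [← hc i j _ hij, h.add i j a b hij, Matrix.add_mulVec, hc i j a hij, hc i j b hij, add_smul]
  have hcmul : ∀ i j k a b, i ≠ j → j ≠ k → i ≠ k → c i k (a * b) = c i j a * c j k b := by
    intro i j k a b hij hjk hik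
    apply canc i
    rw [← hc i k _ hik, ← h.mul i j k hij hjk hik, ← Matrix.mulVec_mulVec, hc j k b hjk,
      Matrix.mulVec_smul, hc i j a hij, smul_smul, mul_comm]
  have E1 : ∀ i j k a, i ≠ j → i ≠ k → c i j a = c i k a := by
    intro i j k a hij hik
    by_cases hjk : j = k
    · rw [hjk]
    · have := hcmul i j k a 1 hij hjk hik
      rw [mul_one, hc1 j k hjk, mul_one] at this
      exact this.symm
  have E2 : ∀ i j k a, i ≠ k → j ≠ k → c i k a = c j k a := by
    intro i j k a hik hjk
    by_cases hij : i = j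
    · rw [hij]
    · have := hcmul i j k 1 a hij hjk hik
      rw [one_mul, hc1 i j hij, one_mul] at this
      exact this
  have Eall : ∀ i j k l a, i ≠ j → k ≠ l → c i j a = c k l a := by
    intro i j k l a hij hkl
    by_cases hkj : k = j
    · subst hkj
      obtain ⟨p, hp1, hp2⟩ := third hm i k
      rw [E1 i k p a hij hp1.symm, E2 i k p a hp1.symm hp2.symm, E1 k p l a hp2.symm hkl]
    · rw [E2 i k j a hij hkj, E1 k j l a hkj hkl]
  obtain ⟨i1, hi1, -⟩ := third hm i0 i0
  obtain ⟨i2, hi20, hi21⟩ := third hm i0 i1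
  let φ : R →+* K :=
    { toFun := fun a => c i0 i1 a
      map_one' := hc1 i0 i1 hi1.symm
      map_mul' := by
        intro a b
        rw [hcmul i0 i2 i1 a b hi20.symm hi21 hi1.symm,
          Eall i0 i2 i0 i1 a hi20.symm hi1.symm, Eall i2 i1 i0 i1 b hi21 hi1.symm]
      map_zero' := by
        have := hcadd i0 i1 0 0 hi1.symm
        rw [add_zero] at this
        exact left_eq_add.1 this
      map_add' := fun a b => hcadd i0 i1 a b hi1.symm }
  have hφ : ∀ i j a, i ≠ j → N i j a *ᵥ w j = φ a • w i := by
    intro i j a hij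
    rw [hc i j a hij, Eall i j i0 i1 a hij hi1.symm]
    rfl
  -- the change of basis
  let G : Mn m K := Matrix.of (fun r k => w k r)
  have hcol : ∀ k, (fun r => G r k) = w k := fun k => rfl
  have hli : LinearIndependent K G.col := by
    rw [Fintype.linearIndependent_iff]
    intro f hf i
    have h1 : ∑ k, f k • w k = 0 := hf
    have h2 := congrArg (fun v => e i *ᵥ v) h1
    simp only [Matrix.mulVec_zero] at h2
    rw [Matrix.mulVec_sum, Finset.sum_eq_single i] at h2
    · rw [Matrix.mulVec_smul, hew] at h2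
      rcases smul_eq_zero.1 h2 with h3 | h3
      · exact h3
      · exact absurd h3 (hwne i)
    · intro k _ hk
      rw [Matrix.mulVec_smul, hew0 k i hk.symm, smul_zero]
    · intro h'
      exact absurd (Finset.mem_univ i) h'
  obtain ⟨g, hg⟩ := Matrix.linearIndependent_cols_iff_isUnit.1 hli
  refine ⟨Equiv.refl _, g, φ, fun i j a hij => ?_⟩
  have key : N i j a * G = G * Matrix.single i j (φ a) := by
    ext r k
    have h1 : (N i j a * G) r k = (N i j a *ᵥ w k) r := rfl
    rw [h1]
    by_cases hk : k = j
    · subst hk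
      rw [hφ i k a hij, Matrix.mul_single_apply_same]
      show φ a * w i r = w i r * φ a
      rw [mul_comm]
    · rw [hN0 i j k a hij hk, Matrix.mul_single_apply_of_ne _ _ _ _ _ hk]
      rfl
  simp only [Equiv.refl_apply]
  rw [hg, ← key, mul_assoc, ← hg, Units.mul_inv, mul_one]

end sd

section fromIDE
variable {m n : ℕ} {K R : Type} [Field K] [CharZero K] [Ring R]

lemma span_general (hn : 2 ≤ n) {N : Fin m → Fin m → R → Mn n K}
    (hL : ∀ w : Mn n K, w.trace = 0 → w ∈ Lsp N) (W : Submodule K (Mn n K)) (p q : Mn n K)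
    (h1 : p * 1 * q ∈ W) (h2 : ∀ k l a, k ≠ l → p * N k l a * q ∈ W)
    (h3 : ∀ k l a b, k ≠ l → p * (N k l a * N l k b) * q ∈ W) (X : Mn n K) : p * X * q ∈ W := by
  let A : Mn n K →ₗ[K] Mn n K := LinearMap.mulRight K q ∘ₗ LinearMap.mulLeft K p
  have hA : ∀ X, A X = p * X * q := fun X => rfl
  have hle : Lsp N ≤ W.comap A := by
    rw [Lsp, Submodule.span_le]
    rintro w (⟨k, l, a, hkl, rfl⟩ | ⟨k, l, a, b, hkl, rfl⟩)
    · exact h2 k l a hkl
    · show A _ ∈ W
      rw [map_sub]
      exact W.sub_mem (h3 k l a b hkl) (h3 l k b a hkl.symm)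
  exact all_of_sl hn (W.comap A) (fun w hw => hle (hL w hw)) h1 X

lemma SD.of_typeS (hm : 3 ≤ m) (hn : 2 ≤ n) {N : Fin m → Fin m → R → Mn n K} (hN : LR N)
    {e : Fin m → Mn n K}
    (hL : ∀ w : Mn n K, w.trace = 0 → w ∈ Lsp N) (he : ∀ i, e i * e i = e i) (h0 : ∀ i, e i ≠ 0)
    (ho : ∀ i j, i ≠ j → e i * e j = 0) (hs : ∑ i, e i = 1)
    (hb : ∀ i j a, i ≠ j → N i j a = e i * N i j a * e j) : SD N e := by
  have hmul : ∀ i j k, i ≠ j → j ≠ k → i ≠ k → ∀ a b, N i j a * N j k b = N i k (a * b) := by
    intro i j k hij hjk hik a b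
    have h1 : N j k b * N i j a = 0 := by
      rw [hb i j a hij, hb j k b hjk]
      calc e j * N j k b * e k * (e i * N i j a * e j)
          = e j * N j k b * (e k * e i) * N i j a * e j := by noncomm_ring
        _ = 0 := by rw [ho k i hik.symm]; simp
    rw [← hN.comm i j k hij hjk hik, h1, sub_zero]
  refine ⟨he, h0, ho, hs, hN.add, hb, hmul, ?_⟩
  intro i j hij X
  apply span_general hn hL
  · rw [mul_one, ho i j hij]; exact Submodule.zero_mem _
  · intro k l a hkl
    by_cases hk : k = i
    · by_cases hl : l = j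
      · subst hk hl
        rw [← hb k l a hkl]
        exact Submodule.subset_span ⟨a, rfl⟩
      · rw [hb k l a hkl]
        have : e i * (e k * N k l a * e l) * e j = e i * e k * N k l a * (e l * e j) := by
          noncomm_ring
        rw [this, ho l j hl, mul_zero]
        exact Submodule.zero_mem _
    · rw [hb k l a hkl]
      have : e i * (e k * N k l a * e l) * e j = (e i * e k) * N k l a * e l * e j := by
        noncomm_ring
      rw [this, ho i k (Ne.symm hk)]
      simp
  · intro k l a b hkl
    have h1 : N k l a * N l k b = e k * (N k l a * N l k b) * e k := by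
      nth_rw 1 [hb k l a hkl]
      nth_rw 1 [hb l k b hkl.symm]
      calc e k * N k l a * e l * (e l * N l k b * e k)
          = e k * N k l a * (e l * e l) * N l k b * e k := by noncomm_ring
        _ = e k * (N k l a * (e l * N l k b)) * e k := by rw [he]; noncomm_ring
        _ = e k * (N k l a * N l k b) * e k := by
          have : e l * N l k b = N l k b := by
            rw [hb l k b hkl.symm, ← mul_assoc, ← mul_assoc, he]
          rw [this]
    rw [h1]
    by_cases hk : k = i
    · subst hk
      have : e k * (e k * (N k l a * N l k b) * e k) * e j =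
        e k * e k * (N k l a * N l k b) * (e k * e j) := by noncomm_ring
      rw [this, ho k j hij, mul_zero]
      exact Submodule.zero_mem _
    · have : e i * (e k * (N k l a * N l k b) * e k) * e j =
        (e i * e k) * (N k l a * N l k b) * e k * e j := by noncomm_ring
      rw [this, ho i k (Ne.symm hk)]
      simp

lemma SD.of_typeD (hm : 3 ≤ m) (hn : 2 ≤ n) {N : Fin m → Fin m → R → Mn n K} (hN : LR N)
    {e : Fin m → Mn n K}
    (hL : ∀ w : Mn n K, w.trace = 0 → w ∈ Lsp N) (he : ∀ i, e i * e i = e i) (h0 : ∀ i, e i ≠ 0)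
    (ho : ∀ i j, i ≠ j → e i * e j = 0) (hs : ∑ i, e i = 1)
    (hb : ∀ i j a, i ≠ j → N i j a = e j * N i j a * e i) :
    SD (fun i j (a : Rᵐᵒᵖ) => - N j i a.unop) e := by
  have hmul : ∀ i j k, i ≠ j → j ≠ k → i ≠ k → ∀ a b, N j k b * N i j a = - N i k (a * b) := by
    intro i j k hij hjk hik a b
    have h1 : N i j a * N j k b = 0 := by
      rw [hb i j a hij, hb j k b hjk]
      calc e j * N i j a * e i * (e k * N j k b * e j)
          = e j * N i j a * (e i * e k) * N j k b * e j := by noncomm_ring
        _ = 0 := by rw [ho i k hik]; simp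
    rw [← hN.comm i j k hij hjk hik, h1, zero_sub, neg_neg]
  refine ⟨he, h0, ho, hs, ?_, ?_, ?_, ?_⟩
  · intro i j a b hij
    show - N j i (a + b).unop = - N j i a.unop + - N j i b.unop
    rw [MulOpposite.unop_add, hN.add j i _ _ hij.symm, neg_add]
  · intro i j a hij
    show - N j i a.unop = e i * (- N j i a.unop) * e j
    rw [mul_neg, neg_mul, ← hb j i a.unop hij.symm]
  · intro i j k hij hjk hik a b
    show (- N j i a.unop) * (- N k j b.unop) = - N k i (a * b).unop
    rw [neg_mul_neg, hmul k j i hjk.symm hij.symm hik.symm, MulOpposite.unop_mul]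
  · intro i j hij X
    apply span_general hn hL
    · rw [mul_one, ho i j hij]; exact Submodule.zero_mem _
    · intro k l a hkl
      by_cases hk : l = i
      · by_cases hl : k = j
        · subst hk hl
          rw [← hb k l a hkl]
          have : N k l a = - (- N k l (MulOpposite.op a).unop) := by simp
          rw [this]
          exact Submodule.neg_mem _ (Submodule.subset_span ⟨MulOpposite.op a, rfl⟩)
        · rw [hb k l a hkl]
          have : e i * (e l * N k l a * e k) * e j = e i * e l * N k l a * (e k * e j) := by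
            noncomm_ring
          rw [this, ho k j hl, mul_zero]
          exact Submodule.zero_mem _
      · rw [hb k l a hkl]
        have : e i * (e l * N k l a * e k) * e j = (e i * e l) * N k l a * e k * e j := by
          noncomm_ring
        rw [this, ho i l (Ne.symm hk)]
        simp
    · intro k l a b hkl
      have h1 : N k l a * N l k b = e l * (N k l a * N l k b) * e l := by
        nth_rw 1 [hb k l a hkl]
        nth_rw 1 [hb l k b hkl.symm]
        calc e l * N k l a * e k * (e k * N l k b * e l)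
            = e l * N k l a * (e k * e k) * N l k b * e l := by noncomm_ring
          _ = e l * (N k l a * (e k * N l k b)) * e l := by rw [he]; noncomm_ring
          _ = e l * (N k l a * N l k b) * e l := by
            have : e k * N l k b = N l k b := by
              rw [hb l k b hkl.symm, ← mul_assoc, ← mul_assoc, he]
            rw [this]
      rw [h1]
      by_cases hk : l = i
      · subst hk
        have : e l * (e l * (N k l a * N l k b) * e l) * e j =
          e l * e l * (N k l a * N l k b) * (e l * e j) := by noncomm_ring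
        rw [this, ho l j hij, mul_zero]
        exact Submodule.zero_mem _
      · have : e i * (e l * (N k l a * N l k b) * e l) * e j =
          (e i * e l) * (N k l a * N l k b) * e l * e j := by noncomm_ring
        rw [this, ho i l (Ne.symm hk)]
        simp

end fromIDE

theorem str : S_IDE → S_STR := by
  intro hI m n hm hn K _ _ R _ N hN hL hH
  obtain ⟨e, he, h0, ho, hs, hb | hb⟩ := hI m n hm hn K R N hN hL
  · obtain ⟨σ, g, φ, h⟩ := (SD.of_typeS hm hn hN hL he h0 ho hs hb).main hm hn hH
    exact ⟨σ, g, φ, Or.inl h⟩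
  · have hH' : Hyp n m Rᵐᵒᵖ := by
      rcases hH with h | h
      · exact Or.inl h
      · refine Or.inr fun a b => MulOpposite.unop_injective ?_
        rw [MulOpposite.unop_mul, MulOpposite.unop_mul, h]
    obtain ⟨σ, g, φ, h⟩ := (SD.of_typeD hm hn hN hL he h0 ho hs hb).main hm hn hH'
    let φ' : R →+* K :=
      { toFun := fun a => φ (MulOpposite.op a)
        map_one' := by simp
        map_mul' := by
          intro a b
          rw [MulOpposite.op_mul, map_mul, mul_comm]
        map_zero' := by simp
        map_add' := by intro a b; rw [MulOpposite.op_add, map_add] }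
    refine ⟨σ, g, φ', Or.inr fun i j a hij => ?_⟩
    have := h j i (MulOpposite.op a) hij.symm
    simp only [MulOpposite.unop_op] at this
    rw [neg_eq_iff_eq_neg] at this
    exact this

end Pool.Agent.T2h61.PR
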